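import Pool.Agent.H93.TR.Main
import Mathlib.GroupTheory.HNNExtension

/-!
# The Bass-Serre tree of an HNN extension

`bst φ` is the tree on the left cosets of the base group in `HNNExtension G A B φ`. If a homomorphism from the HNN
extension to a group in the class `C` is injective on the associated subgroup `A` (the base group need not inject) and
the base group is in `C`, then the HNN extension is in `C` (`hnn_edge_mem`).
-/

set_option autoImplicit false

namespace Pool.Agent.H54.IX

open HNNExtension HNNExtension.NormalWord Pool.Agent.H98.FJ Pool.Agent.H93.TR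

variable {G : Type} [Group G] {A B : Subgroup G} (φ : A ≃* B)

/-- the base group, as a subgroup of the HNN extension -/
abbrev base : Subgroup (HNNExtension G A B φ) := (HNNExtension.of (φ := φ)).range

/-- the vertices: left cosets of the base group -/
abbrev Vx : Type := HNNExtension G A B φ ⧸ base φ

theorem of_mem_base (b : G) : (of b : HNNExtension G A B φ) ∈ base φ := ⟨b, rfl⟩

theorem mk_mul_of (g : HNNExtension G A B φ) (b : G) :
    ((g * of b : HNNExtension G A B φ) : Vx φ) = (g : Vx φ) := by
  rw [QuotientGroup.eq]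
  have : (g * of b)⁻¹ * g = (of b⁻¹ : HNNExtension G A B φ) := by
    rw [map_inv]
    group
  rw [this]
  exact of_mem_base φ _

theorem t_notMem_base : (t : HNNExtension G A B φ) ∉ base φ := by
  intro h
  let w : NormalWord.ReducedWord G A B := ⟨1, [(1, 1)], List.isChain_singleton _⟩
  have hw : w.prod φ = t := by
    simp [w, ReducedWord.prod]
  have h1 := ReducedWord.toList_eq_nil_of_mem_of_range φ w (by rw [hw]; exact h)
  simp [w] at h1

/-- the Bass-Serre tree -/
def bst : SimpleGraph (Vx φ) where
  Adj u v := ∃ g : HNNExtension G A B φ, (u = (g : Vx φ) ∧ v = ((g * t : HNNExtension G A B φ) : Vx φ)) ∨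
    (v = (g : Vx φ) ∧ u = ((g * t : HNNExtension G A B φ) : Vx φ))
  symm := ⟨by
    rintro u v ⟨g, h | h⟩
    · exact ⟨g, Or.inr h⟩
    · exact ⟨g, Or.inl h⟩⟩
  loopless := ⟨by
    rintro u ⟨g, ⟨h1, h2⟩ | ⟨h1, h2⟩⟩
    · rw [h1, QuotientGroup.eq] at h2
      apply t_notMem_base φ
      have : (t : HNNExtension G A B φ) = g⁻¹ * (g * t) := by group
      rw [this]
      exact h2
    · rw [h1, QuotientGroup.eq] at h2
      apply t_notMem_base φ
      have : (t : HNNExtension G A B φ) = g⁻¹ * (g * t) := by group
      rw [this]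
      exact h2⟩

theorem bst_t (g : HNNExtension G A B φ) :
    (bst φ).Adj (g : Vx φ) ((g * t : HNNExtension G A B φ) : Vx φ) := ⟨g, Or.inl ⟨rfl, rfl⟩⟩

/-- the neighbours of a vertex -/
theorem bst_step (g : HNNExtension G A B φ) (v : Vx φ) (h : (bst φ).Adj (g : Vx φ) v) :
    ∃ (b : G) (u : ℤˣ), v = ((g * of b * t ^ (u : ℤ) : HNNExtension G A B φ) : Vx φ) := by
  obtain ⟨g', ⟨h1, h2⟩ | ⟨h1, h2⟩⟩ := h
  · rw [QuotientGroup.eq] at h1
    obtain ⟨b, hb⟩ := h1
    refine ⟨b, 1, ?_⟩
    rw [h2, hb]
    congr 1
    simp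
  · rw [QuotientGroup.eq] at h2
    obtain ⟨b, hb⟩ := h2
    refine ⟨b, -1, ?_⟩
    rw [h1, hb]
    congr 1
    simp

theorem bst_reach (x : HNNExtension G A B φ) : ∀ g : HNNExtension G A B φ,
    (bst φ).Reachable (g : Vx φ) ((g * x : HNNExtension G A B φ) : Vx φ) := by
  induction x using HNNExtension.induction_on with
  | of b =>
    intro g
    rw [mk_mul_of]
  | t =>
    intro g
    exact (bst_t φ g).reachable
  | mul x y hx hy =>
    intro g
    rw [← mul_assoc]
    exact (hx g).trans (hy (g * x))
  | inv x hx =>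
    intro g
    have h := hx (g * x⁻¹)
    rw [inv_mul_cancel_right] at h
    exact h.symm

theorem bst_connected : (bst φ).Connected := by
  have : Nonempty (Vx φ) := ⟨((1 : HNNExtension G A B φ) : Vx φ)⟩
  refine ⟨fun u v => ?_⟩
  induction u using QuotientGroup.induction_on with
  | H g =>
    induction v using QuotientGroup.induction_on with
    | H g' =>
      have h := bst_reach φ (g⁻¹ * g') g
      rw [mul_inv_cancel_left] at h
      exact h

/-- a subword `t^u b t^-u` with `b` in the associated subgroup is in the base group -/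
theorem pinch (b : G) (u : ℤˣ) (hb : b ∈ toSubgroup A B u) :
    ∃ b' : G, (t ^ (u : ℤ) * of b * t ^ ((-u : ℤˣ) : ℤ) : HNNExtension G A B φ) = of b' := by
  rcases Int.units_eq_one_or u with h | h
  · subst h
    refine ⟨φ ⟨b, hb⟩, ?_⟩
    rw [equiv_eq_conj]
    simp
  · subst h
    refine ⟨φ.symm ⟨b, hb⟩, ?_⟩
    rw [equiv_symm_eq_conj]
    simp

/-- the reduced word of a trail -/
theorem trail_word {u v : Vx φ} (p : (bst φ).Walk u v) (hp : p.IsTrail) :
    ∀ g : HNNExtension G A B φ, (g : Vx φ) = u → ∃ w : NormalWord.ReducedWord G A B,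
      w.toList.length = p.length ∧
      ((g * w.prod φ : HNNExtension G A B φ) : Vx φ) = v ∧
      ∀ x ∈ w.toList.head?, p.snd = ((g * of w.head * t ^ (x.1 : ℤ) :
        HNNExtension G A B φ) : Vx φ) := by
  induction p with
  | nil =>
    intro g hg
    refine ⟨ReducedWord.empty G A B, rfl, ?_, ?_⟩
    · simp [ReducedWord.prod, hg]
    · simp
  | @cons u v w h p ih =>
    intro g hg
    subst hg
    obtain ⟨b, e, hv⟩ := bst_step φ g v h
    rw [SimpleGraph.Walk.isTrail_cons] at hp
    obtain ⟨w', hl, hw, hs⟩ := ih hp.1 (g * of b * t ^ (e : ℤ)) hv.symm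
    have hchain : ((e, w'.head) :: w'.toList).IsChain
        (fun a b => a.2 ∈ toSubgroup A B a.1 → a.1 = b.1) := by
      rw [List.isChain_cons]
      refine ⟨fun x hx hb => ?_, w'.chain⟩
      by_contra hne
      have hx1 : x.1 = -e := by
        rcases Int.units_eq_one_or x.1 with h1 | h1 <;> rcases Int.units_eq_one_or e with h2 | h2 <;>
          simp_all
      have h3 := hs x hx
      rw [hx1] at h3
      obtain ⟨b', hb'⟩ := pinch φ w'.head e hb
      have h4 : (g * of b * t ^ (e : ℤ) * of w'.head * t ^ ((-e : ℤˣ) : ℤ) :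
          HNNExtension G A B φ) = g * (of (b * b')) := by
        rw [map_mul, ← hb']
        group
      rw [h4, mk_mul_of] at h3
      have hlen : 0 < p.length := by
        rw [← hl]
        cases hh : w'.toList with
        | nil => rw [hh] at hx; simp at hx
        | cons y l => simp
      apply hp.2
      cases p with
      | nil => simp at hlen
      | cons h' p' =>
        rw [SimpleGraph.Walk.edges_cons]
        have h5 : (SimpleGraph.Walk.cons h' p').snd = _ := h3
        rw [SimpleGraph.Walk.snd_cons] at h5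
        refine List.mem_cons.2 (Or.inl ?_)
        rw [h5, Sym2.eq_swap]
    refine ⟨⟨b, (e, w'.head) :: w'.toList, hchain⟩, ?_, ?_, ?_⟩
    · simp [hl]
    · rw [← hw]
      congr 1
      simp [ReducedWord.prod, mul_assoc]
    · intro x hx
      simp only [List.head?_cons, Option.mem_def, Option.some.injEq] at hx
      subst hx
      rw [SimpleGraph.Walk.snd_cons]
      exact hv

theorem bst_acyclic : (bst φ).IsAcyclic := by
  intro u c hc
  induction u using QuotientGroup.induction_on with
  | H g =>
    obtain ⟨w, hl, hw, -⟩ := trail_word φ c hc.isCircuit.isTrail g rfl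
    have h1 : w.prod φ ∈ base φ := by
      rw [eq_comm, QuotientGroup.eq] at hw
      simpa using hw
    have h2 := ReducedWord.toList_eq_nil_of_mem_of_range φ w h1
    have h3 := hc.three_le_length
    rw [← hl, h2] at h3
    simp at h3

theorem bst_isTree : (bst φ).IsTree := ⟨bst_connected φ, bst_acyclic φ⟩

theorem bst_onTree : OnTree (HNNExtension G A B φ) (bst φ) := by
  refine ⟨bst_isTree φ, ?_⟩
  rintro n u v ⟨g, ⟨h1, h2⟩ | ⟨h1, h2⟩⟩
  · refine ⟨n * g, Or.inl ⟨?_, ?_⟩⟩
    · rw [h1]; rfl
    · rw [h2, mul_assoc]; rfl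
  · refine ⟨n * g, Or.inr ⟨?_, ?_⟩⟩
    · rw [h1]; rfl
    · rw [h2, mul_assoc]; rfl

/-- the stabiliser of a vertex -/
theorem stab_conj (n g : HNNExtension G A B φ) (h : n • (g : Vx φ) = (g : Vx φ)) :
    g⁻¹ * n * g ∈ base φ := by
  have h1 : ((n * g : HNNExtension G A B φ) : Vx φ) = (g : Vx φ) := h
  rw [eq_comm, QuotientGroup.eq] at h1
  rwa [mul_assoc]

/-- the stabiliser of an edge -/
theorem edge_conj (n g : HNNExtension G A B φ) (h : n • (g : Vx φ) = (g : Vx φ))
    (h' : n • ((g * t : HNNExtension G A B φ) : Vx φ) = ((g * t : HNNExtension G A B φ) : Vx φ)) :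
    ∃ a : A, n = (g * t) * of (a : G) * (g * t)⁻¹ := by
  obtain ⟨b, hb⟩ := stab_conj φ n g h
  obtain ⟨c, hc⟩ := stab_conj φ n (g * t) h'
  have hbB : b ∈ B := by
    by_contra hb'
    let w : NormalWord.ReducedWord G A B := ⟨1, [(-1, b), (1, 1)], by
      rw [List.isChain_pair]
      intro h1
      exact absurd h1 hb'⟩
    have hw : w.prod φ = of c := by
      rw [hc]
      have : n = g * of b * g⁻¹ := by rw [hb]; group
      rw [this]
      simp only [w, ReducedWord.prod, List.map_cons, List.map_nil, List.prod_cons, List.prod_nil]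
      simp [mul_assoc]
    have h1 := ReducedWord.toList_eq_nil_of_mem_of_range φ w (by rw [hw]; exact of_mem_base φ c)
    simp [w] at h1
  refine ⟨φ.symm ⟨b, hbB⟩, ?_⟩
  rw [equiv_symm_eq_conj]
  have : n = g * of b * g⁻¹ := by rw [hb]; group
  rw [this]
  simp [mul_assoc]

/-- **HNN extensions.** The base group is in the class and a homomorphism to a group in the class is injective on the
associated subgroup. -/
theorem hnn_edge_mem {C : (G : Type) → [Group G] → Prop} (hC : Inherits C) (hE : Extension C)
    (hG : C G) {Q : Type} [Group Q] (hQ : C Q) (f : HNNExtension G A B φ →* Q)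
    (hf : ∀ a : A, f (of (a : G)) = 1 → (a : G) = 1) : C (HNNExtension G A B φ) := by
  refine main hC hE (bst_onTree φ) ?_ hQ f ?_
  · intro v
    induction v using QuotientGroup.induction_on with
    | H g =>
      let ψ : MulAction.stabilizer (HNNExtension G A B φ) (g : Vx φ) →* base φ :=
        { toFun := fun n => ⟨g⁻¹ * n.1 * g, stab_conj φ n.1 g n.2⟩
          map_one' := Subtype.ext (by simp)
          map_mul' := fun n m => Subtype.ext (by simp [mul_assoc]) }
      refine hC.of_injective ψ ?_ ?_
      · intro n m h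
        have h1 : g⁻¹ * n.1 * g = g⁻¹ * m.1 * g := congrArg Subtype.val h
        exact Subtype.ext (mul_left_cancel (mul_right_cancel h1))
      · exact hC.iso G (base φ) (MonoidHom.ofInjective (HNNExtension.of_injective φ)) hG
  · intro n hn u v huv hu hv
    have key : ∀ g : HNNExtension G A B φ, n • (g : Vx φ) = (g : Vx φ) →
        n • ((g * t : HNNExtension G A B φ) : Vx φ) = ((g * t : HNNExtension G A B φ) : Vx φ) →
        n = 1 := by
      intro g h1 h2
      obtain ⟨a, ha⟩ := edge_conj φ n g h1 h2
      have h3 : f n = 1 := hn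
      rw [ha, map_mul, map_mul, map_inv, mul_inv_eq_one, mul_eq_left] at h3
      have h4 := hf a h3
      rw [ha, h4, map_one]
      simp
    obtain ⟨g, ⟨h1, h2⟩ | ⟨h1, h2⟩⟩ := huv
    · subst h1 h2
      exact key g hu hv
    · subst h1 h2
      exact key g hv hu

end Pool.Agent.H54.IX
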