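import Pool.Agent.H54.IX.Grp

/-!
# Blocks

Two ways to cut the blocks `i` into tokens of the same types: the recut element between the two lists of tokens does not
depend on the order of the blocks.
-/

set_option autoImplicit false

open Classical

namespace Pool.Agent.H54.IX

variable {A T I : Type}

/-- permutations lift through maps -/
theorem perm_lift {α β : Type} (f : α → β) : ∀ (m : List β) (l : List α), (l.map f).Perm m →
    ∃ l' : List α, l'.Perm l ∧ l'.map f = m := by
  intro m
  induction m with
  | nil =>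
    intro l h
    have : l = [] := by simpa using h.length_eq
    exact ⟨[], by rw [this], rfl⟩
  | cons y m ih =>
    intro l h
    have hy : y ∈ l.map f := h.symm.subset (by simp)
    obtain ⟨x, hx, rfl⟩ := List.mem_map.1 hy
    obtain ⟨l1, l2, rfl⟩ := List.append_of_mem hx
    have h1 : (f x :: (l1 ++ l2).map f).Perm (f x :: m) := by
      refine List.Perm.trans ?_ h
      rw [List.map_append, List.map_append, List.map_cons]
      exact List.perm_middle.symm
    obtain ⟨l', hl', hm⟩ := ih (l1 ++ l2) (List.Perm.cons_inv h1)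
    refine ⟨x :: l', (hl'.cons x).trans List.perm_middle.symm, ?_⟩
    rw [List.map_cons, hm]

/-- relabelling of full lists -/
theorem exists_relabel (τ : A → T) (U V : List A) (hU : U.Nodup) (hV : V.Nodup)
    (hU' : ∀ a, a ∈ U) (hV' : ∀ a, a ∈ V) (h : U.map τ = V.map τ) :
    ∃ σ ∈ sg τ, U.map σ = V := by
  have hl : U.length = V.length := by
    have := congrArg List.length h
    simpa using this
  let eU := List.Nodup.getEquivOfForallMemList U hU hU'
  let eV := List.Nodup.getEquivOfForallMemList V hV hV'
  let σ : Equiv.Perm A := (eU.symm.trans (finCongr hl)).trans eV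
  have hσ : ∀ (i : ℕ) (hi : i < U.length), σ U[i] = V[i]'(hl ▸ hi) := by
    intro i hi
    have h1 : eU ⟨i, hi⟩ = U[i] := rfl
    change eV (finCongr hl (eU.symm U[i])) = _
    rw [← h1, Equiv.symm_apply_apply]
    rfl
  refine ⟨σ, ?_, ?_⟩
  · intro a
    obtain ⟨i, hi, rfl⟩ := List.getElem_of_mem (hU' a)
    rw [hσ i hi]
    have h2 : (U.map τ)[i]'(by simpa using hi) = (V.map τ)[i]'(by simpa using hl ▸ hi) := by
      simp only [h]
    rw [List.getElem_map, List.getElem_map] at h2
    exact h2.symm
  · refine List.ext_getElem (by simpa using hl) fun i h1 h2 => ?_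
    rw [List.getElem_map]
    exact hσ i (by simpa using h1)

theorem flatMap_inj {α β : Type} (f g : α → List β) : ∀ (W : List α),
    (∀ i ∈ W, (f i).length = (g i).length) → W.flatMap f = W.flatMap g → ∀ i ∈ W, f i = g i := by
  intro W
  induction W with
  | nil => intro _ _ i hi; simp at hi
  | cons a W ih =>
    intro hl h
    rw [List.flatMap_cons, List.flatMap_cons] at h
    obtain ⟨h1, h2⟩ := List.append_inj h (hl a (by simp))
    intro i hi
    rw [List.mem_cons] at hi
    rcases hi with rfl | hi
    · exact h1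
    · exact ih (fun j hj => hl j (List.mem_cons_of_mem _ hj)) h2 i hi

theorem flatMap_perm {α β : Type} (f g : α → List β) (W : List α)
    (h : ∀ i ∈ W, (f i).Perm (g i)) : (W.flatMap f).Perm (W.flatMap g) := by
  induction W with
  | nil => exact List.Perm.refl _
  | cons a W ih =>
    rw [List.flatMap_cons, List.flatMap_cons]
    exact (h a (by simp)).append (ih fun i hi => h i (List.mem_cons_of_mem _ hi))

section

variable [Fintype A] {M : Type} [Group M] {r : A → A → M}

theorem RR_flatMap (hr : YB r) (w C : I → List A) : ∀ W : List I, (W.flatMap w).Nodup →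
    (∀ i ∈ W, (w i).Perm (C i)) →
    RR r (W.flatMap w) (W.flatMap C) = (W.map fun i => RR r (w i) (C i)).prod := by
  intro W
  induction W with
  | nil =>
    intro _ _
    simp
  | cons a W ih =>
    intro hn hp
    rw [List.flatMap_cons, List.flatMap_cons, List.map_cons, List.prod_cons]
    rw [List.flatMap_cons] at hn
    have hp' : ∀ i ∈ W, (w i).Perm (C i) := fun i hi => hp i (List.mem_cons_of_mem _ hi)
    rw [RR_append hr (hp a (by simp)) (flatMap_perm w C W hp') hn,
      ih (List.nodup_append.1 hn).2.1 hp']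

theorem prod_blocks (hr : YB r) (w C : I → List A) {W W' : List I} (hW : W.Perm W')
    (hn : (W.flatMap w).Nodup) (hp : ∀ i ∈ W, (w i).Perm (C i)) :
    (W.map fun i => RR r (w i) (C i)).prod = (W'.map fun i => RR r (w i) (C i)).prod := by
  refine List.Perm.prod_eq' (hW.map _) ?_
  rw [List.nodup_flatMap] at hn
  have h1 : W.Pairwise fun i j => i ∈ W ∧ j ∈ W := by
    rw [List.pairwise_iff_forall_sublist]
    intro a b hab
    exact ⟨hab.subset (by simp), hab.subset (by simp)⟩
  rw [List.pairwise_map]
  refine (hn.2.and h1).imp ?_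
  rintro i j ⟨hd, hi, hj⟩
  refine RR_comm hr (hp i hi) (hp j hj) ?_
  rw [List.nodup_append]
  refine ⟨hn.1 i hi, hn.1 j hj, ?_⟩
  intro a ha b hb hab
  subst hab
  exact hd ha hb

/-- **Block lemma.** -/
theorem block (τ : A → T) {W W' : List I} (hW : W.Perm W') (w B : I → List A)
    (hw : (W.flatMap w).Nodup) (hwf : ∀ a, a ∈ W.flatMap w) (hB : (W.flatMap B).Nodup)
    (hBf : ∀ a, a ∈ W.flatMap B) (ht : ∀ i ∈ W, ((w i).map τ).Perm ((B i).map τ)) :
    RR (rh τ) (W.flatMap w) (W.flatMap B) = RR (rh τ) (W'.flatMap w) (W'.flatMap B) := by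
  have hr := rh_yb τ
  -- the relabelled blocks
  have h1 : ∀ i, ∃ l : List A, i ∈ W → l.Perm (B i) ∧ l.map τ = (w i).map τ := by
    intro i
    by_cases hi : i ∈ W
    · obtain ⟨l, h2, h3⟩ := perm_lift τ _ (B i) (ht i hi).symm
      exact ⟨l, fun _ => ⟨h2, h3⟩⟩
    · exact ⟨[], fun h => absurd h hi⟩
  choose B' hB' using h1
  have hperm : (W.flatMap B').Perm (W.flatMap B) := flatMap_perm B' B W fun i hi => (hB' i hi).1
  obtain ⟨σ, hσ, hσ'⟩ := exists_relabel τ (W.flatMap B') (W.flatMap w) (hperm.nodup_iff.2 hB) hw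
    (fun a => hperm.symm.subset (hBf a)) hwf (by
      rw [List.map_flatMap, List.map_flatMap]
      refine List.flatMap_congr fun i hi => ?_
      exact (hB' i hi).2)
  have hBw : ∀ i ∈ W, (B' i).map σ = w i := by
    refine flatMap_inj (fun i => (B' i).map σ) w W ?_ ?_
    · intro i hi
      have := congrArg List.length (hB' i hi).2
      simpa using this
    · rw [← hσ', List.map_flatMap]
  have hC : ∀ i ∈ W, (w i).Perm ((B i).map σ) := by
    intro i hi
    rw [← hBw i hi]
    exact (hB' i hi).1.map σ
  have key : ∀ V : List I, V.Perm W → RR (rh τ) (V.flatMap w) (V.flatMap B) =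
      (V.map fun i => RR (rh τ) (w i) ((B i).map σ)).prod * pm τ σ hσ := by
    intro V hV
    have hVw : (V.flatMap w).Nodup := (List.Perm.flatMap_right w hV).nodup_iff.2 hw
    have hVB : (V.flatMap B).Perm (W.flatMap B) := List.Perm.flatMap_right B hV
    have e1 : (V.flatMap B).map σ = V.flatMap fun i => (B i).map σ := List.map_flatMap
    have e2 : RR (rh τ) ((V.flatMap B).map σ) (V.flatMap B) = pm τ σ hσ := by
      rw [← RR_inv, RR_relabel τ _ _ rfl (hVB.nodup_iff.2 hB) σ hσ
        (fun a ha => absurd (hVB.symm.subset (hBf a)) ha), inv_inv]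
    rw [← RR_trans (V.flatMap w) ((V.flatMap B).map σ) (V.flatMap B), e2, e1,
      RR_flatMap hr w (fun i => (B i).map σ) V hVw (fun i hi => hC i (hV.subset hi))]
  rw [key W (List.Perm.refl _), key W' hW.symm,
    prod_blocks hr w (fun i => (B i).map σ) hW hw hC]

end

end Pool.Agent.H54.IX
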