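import Pool.Agent.H54.IX.Blk

/-!
# Lists of intervals

`len` gives the lengths of intervals. A list of intervals is a placement of the intervals, one after the other, starting
at 0; `pre len W a` is the left endpoint of `a`.
-/

set_option autoImplicit false

open Classical

namespace Pool.Agent.H54.IX

section

variable {I : Type} (len : I → ℝ)

/-- the left endpoint of `a` in the list `W` of intervals of lengths `len` -/
noncomputable def pre : List I → I → ℝ
  | [], _ => 0
  | b :: W, a => if b = a then 0 else len b + pre W a

/-- `h` maps the intervals placed in the order `W` to those placed in the order `W'`, by translations -/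
def Adapted (h : ℝ → ℝ) (W W' : List I) : Prop :=
  ∀ i ∈ W, ∀ t, 0 ≤ t → t < len i → h (pre len W i + t) = pre len W' i + t

/-- the points of the intervals -/
abbrev Pt : Type := {p : I × ℝ // 0 ≤ p.2 ∧ p.2 < len p.1}

/-- the position of a point -/
noncomputable def pos (W : List I) (p : Pt len) : ℝ := pre len W p.1.1 + p.1.2

end

/-- sums of elements of `M` are unique -/
def Uniq (M : Set ℝ) : Prop :=
  ∀ l l' : List ℝ, (∀ x ∈ l, x ∈ M) → (∀ x ∈ l', x ∈ M) → l.sum = l'.sum → l.Perm l'

/-- piecewise translations of `[0,T)` with finitely many pieces, `P` contains the break points -/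
def Pw (T : ℝ) (P : Finset ℝ) (h : Equiv.Perm ℝ) : Prop :=
  (∀ x, ¬ (0 ≤ x ∧ x < T) → h x = x) ∧
    ∀ x y, x ≤ y → (∀ p ∈ P, ¬ (x < p ∧ p ≤ y)) → h y - h x = y - x

end Pool.Agent.H54.IX
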