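import Pool.Agent.H54.IX.Grm
import Pool.Agent.H54.IX.Def

/-!
# Piecewise isometries as interval exchange transformations

The two-sided line is folded out: the germs on the right are placed in `[0, 2R)` and the germs on the left, in the
opposite direction, in `[2R, 4R)`. A piecewise isometry becomes a piecewise translation.
-/

set_option autoImplicit false

open Classical

namespace Pool.Agent.H54.IX

theorem germ_right {h : ℝ → ℝ} {a b c : ℝ} {σ : Bool}
    (hc : ∀ t, a < t → t < b → h t = c + sgn σ * t) {x : ℝ} (h1 : a ≤ x) (h2 : x < b) :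
    Germ h (x, true) (c + sgn σ * x, σ) := by
  refine ⟨b - x, by linarith, fun s hs hs' => ?_⟩
  change h (x + sgn true * s) = c + sgn σ * x + sgn σ * s
  rw [sgn_true, hc _ (by linarith) (by linarith)]
  ring

theorem germ_left {h : ℝ → ℝ} {a b c : ℝ} {σ : Bool}
    (hc : ∀ t, a < t → t < b → h t = c + sgn σ * t) {x : ℝ} (h1 : a < x) (h2 : x ≤ b) :
    Germ h (x, false) (c + sgn σ * x, !σ) := by
  refine ⟨x - a, by linarith, fun s hs hs' => ?_⟩
  change h (x + sgn false * s) = c + sgn σ * x + sgn (!σ) * s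
  rw [sgn_false, hc _ (by linarith) (by linarith)]
  cases σ <;> simp only [sgn, Bool.not_false, Bool.not_true] <;> simp <;> ring

/-- the germs in `[-R, R]` -/
def DR (R : ℝ) (d : ℝ × Bool) : Prop :=
  (d.2 = true ∧ -R ≤ d.1 ∧ d.1 < R) ∨ (d.2 = false ∧ -R < d.1 ∧ d.1 ≤ R)

/-- the place of a germ -/
noncomputable def pv (R : ℝ) (d : ℝ × Bool) : ℝ := if d.2 = true then d.1 + R else 3 * R - d.1

/-- the germ at a place -/
noncomputable def iv (R : ℝ) (z : ℝ) : ℝ × Bool := if z < 2 * R then (z - R, true) else (3 * R - z, false)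

/-- the places of the germs -/
noncomputable def emb (R : ℝ) : {d // DR R d} ≃ {z : ℝ // 0 ≤ z ∧ z < 4 * R} where
  toFun d := ⟨pv R d.1, by
    obtain ⟨⟨x, b⟩, ⟨h1, h2, h3⟩ | ⟨h1, h2, h3⟩⟩ := d
    · change b = true at h1
      subst h1
      change -R ≤ x at h2
      change x < R at h3
      unfold pv
      rw [if_pos rfl]
      constructor
      · change 0 ≤ x + R
        linarith
      · change x + R < 4 * R
        linarith
    · change b = false at h1
      subst h1
      change -R < x at h2
      change x ≤ R at h3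
      unfold pv
      rw [if_neg (by simp)]
      constructor
      · change 0 ≤ 3 * R - x
        linarith
      · change 3 * R - x < 4 * R
        linarith⟩
  invFun z := ⟨iv R z.1, by
    obtain ⟨z, h1, h2⟩ := z
    change DR R (iv R z)
    unfold iv
    by_cases h : z < 2 * R
    · rw [if_pos h]
      exact Or.inl ⟨rfl, by change -R ≤ z - R; linarith, by change z - R < R; linarith⟩
    · rw [if_neg h]
      exact Or.inr ⟨rfl, by change -R < 3 * R - z; linarith, by change 3 * R - z ≤ R; linarith⟩⟩
  left_inv d := by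
    refine Subtype.ext ?_
    change iv R (pv R d.1) = d.1
    obtain ⟨⟨x, b⟩, ⟨h1, h2, h3⟩ | ⟨h1, h2, h3⟩⟩ := d
    · change b = true at h1
      subst h1
      change x < R at h3
      have h4 : pv R (x, true) = x + R := if_pos rfl
      change iv R (pv R (x, true)) = (x, true)
      rw [h4]
      unfold iv
      rw [if_pos (by linarith), add_sub_cancel_right]
    · change b = false at h1
      subst h1
      change x ≤ R at h3
      have h4 : pv R (x, false) = 3 * R - x := if_neg (by simp)
      change iv R (pv R (x, false)) = (x, false)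
      rw [h4]
      unfold iv
      rw [if_neg (by linarith), sub_sub_cancel]
  right_inv z := by
    refine Subtype.ext ?_
    obtain ⟨z, h1, h2⟩ := z
    change pv R (iv R z) = z
    unfold iv pv
    by_cases h : z < 2 * R
    · rw [if_pos h, if_pos rfl]
      change z - R + R = z
      ring
    · rw [if_neg h, if_neg (by simp)]
      change 3 * R - (3 * R - z) = z
      ring

section

variable (K : Subgroup (Equiv.Perm ℝ)) (hK : ∀ k ∈ K, ∃ P : Finset ℝ, Iso P k) (R : ℝ)
  (hR : ∀ k ∈ K, ∀ x, R ≤ |x| → k x = x)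

include hR in
theorem gm_fix (k : K) (d : ℝ × Bool) (hd : ¬ DR R d) : gm K hK k d = d := by
  refine (gm_germ K hK k d).unique ?_
  obtain ⟨x, b⟩ := d
  have hfix := hR k.1 k.2
  cases b
  · by_cases hx : x ≤ -R
    · refine ⟨1, one_pos, fun s hs _ => ?_⟩
      change k.1 (x + sgn false * s) = x + sgn false * s
      refine hfix _ ?_
      rw [sgn_false]
      rw [le_abs]
      exact Or.inr (by linarith)
    · have hx2 : R < x := by
        by_contra h
        exact hd (Or.inr ⟨rfl, not_le.1 hx, not_lt.1 h⟩)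
      refine ⟨x - R, by linarith, fun s hs hs' => ?_⟩
      change k.1 (x + sgn false * s) = x + sgn false * s
      refine hfix _ ?_
      rw [sgn_false]
      rw [le_abs]
      exact Or.inl (by linarith)
  · by_cases hx : x < -R
    · refine ⟨-R - x, by linarith, fun s hs hs' => ?_⟩
      change k.1 (x + sgn true * s) = x + sgn true * s
      refine hfix _ ?_
      rw [sgn_true]
      rw [le_abs]
      exact Or.inr (by linarith)
    · have hx2 : R ≤ x := by
        by_contra h
        exact hd (Or.inl ⟨rfl, not_lt.1 hx, not_le.1 h⟩)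
      refine ⟨1, one_pos, fun s hs _ => ?_⟩
      change k.1 (x + sgn true * s) = x + sgn true * s
      refine hfix _ ?_
      rw [sgn_true]
      rw [le_abs]
      exact Or.inl (by linarith)

include hR in
theorem gm_DR (k : K) (d : ℝ × Bool) : DR R (gm K hK k d) ↔ DR R d := by
  constructor
  · intro h
    by_contra hd
    rw [gm_fix K hK R hR k d hd] at h
    exact hd h
  · intro h
    by_contra hd
    have h1 := gm_fix K hK R hR k⁻¹ _ hd
    have h2 : gm K hK k⁻¹ (gm K hK k d) = d := by
      rw [← Equiv.Perm.mul_apply, ← map_mul, inv_mul_cancel, map_one]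
      rfl
    rw [h2] at h1
    rw [← h1] at hd
    exact hd h

/-- the action on the germs in `[-R, R]` -/
noncomputable def gm1 : K →* Equiv.Perm {d // DR R d} where
  toFun k := (gm K hK k).subtypePerm (fun d => gm_DR K hK R hR k d)
  map_one' := by
    refine Equiv.ext fun d => Subtype.ext ?_
    change gm K hK 1 d.1 = d.1
    rw [map_one]
    rfl
  map_mul' k l := by
    refine Equiv.ext fun d => Subtype.ext ?_
    change gm K hK (k * l) d.1 = gm K hK k (gm K hK l d.1)
    rw [map_mul]
    rfl

/-- the homomorphism to the group of piecewise translations -/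
noncomputable def iet : K →* Equiv.Perm ℝ :=
  (Equiv.Perm.ofSubtype (p := fun z : ℝ => 0 ≤ z ∧ z < 4 * R)).comp
    (((emb R).permCongrHom : Equiv.Perm {d // DR R d} →* _).comp (gm1 K hK R hR))

theorem iet_mem (k : K) (z : ℝ) (h0 : 0 ≤ z) (h1 : z < 4 * R) :
    iet K hK R hR k z = pv R (gm K hK k (iv R z)) := by
  have h2 : iet K hK R hR k z =
      (((emb R).permCongrHom (gm1 K hK R hR k)) ⟨z, h0, h1⟩ : {z : ℝ // 0 ≤ z ∧ z < 4 * R}).1 :=
    Equiv.Perm.ofSubtype_apply_of_mem (p := fun z : ℝ => 0 ≤ z ∧ z < 4 * R) (a := z)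
      ((emb R).permCongrHom (gm1 K hK R hR k)) ⟨h0, h1⟩
  rw [h2]
  rfl

theorem iet_notMem (k : K) (z : ℝ) (h0 : ¬ (0 ≤ z ∧ z < 4 * R)) : iet K hK R hR k z = z :=
  Equiv.Perm.ofSubtype_apply_of_not_mem _ h0

theorem iet_pw (k : K) : ∃ P, Pw (4 * R) P (iet K hK R hR k) := by
  obtain ⟨P0, hP0⟩ := hK k.1 k.2
  refine ⟨P0.image (fun p => p + R) ∪ P0.image (fun p => 3 * R - p) ∪ {0, 2 * R, 4 * R},
    iet_notMem K hK R hR k, ?_⟩
  intro z z' hz hP
  rcases hz.eq_or_lt with rfl | hz
  · rw [sub_self, sub_self]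
  have hPa : ∀ p ∈ P0, ¬ (z < p + R ∧ p + R ≤ z') := fun p hp =>
    hP _ (Finset.mem_union_left _ (Finset.mem_union_left _ (Finset.mem_image_of_mem _ hp)))
  have hPb : ∀ p ∈ P0, ¬ (z < 3 * R - p ∧ 3 * R - p ≤ z') := fun p hp =>
    hP _ (Finset.mem_union_left _ (Finset.mem_union_right _
      (Finset.mem_image_of_mem (fun p => 3 * R - p) hp)))
  have h00 := hP 0 (Finset.mem_union_right _ (by simp))
  have h20 := hP (2 * R) (Finset.mem_union_right _ (by simp))
  have h40 := hP (4 * R) (Finset.mem_union_right _ (by simp))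
  by_cases hz0 : z < 0
  · have hz1 : z' < 0 := by
      by_contra h
      exact h00 ⟨hz0, not_lt.1 h⟩
    rw [iet_notMem K hK R hR k z (fun h => by linarith [h.1]),
      iet_notMem K hK R hR k z' (fun h => by linarith [h.1])]
  by_cases hz4 : 4 * R ≤ z
  · rw [iet_notMem K hK R hR k z (fun h => by linarith [h.2]),
      iet_notMem K hK R hR k z' (fun h => by linarith [h.2])]
  rw [not_lt] at hz0
  rw [not_le] at hz4
  have hz4' : z' < 4 * R := by
    by_contra h
    exact h40 ⟨hz4, not_lt.1 h⟩
  rw [iet_mem K hK R hR k z hz0 hz4, iet_mem K hK R hR k z' (by linarith) hz4']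
  by_cases hz2 : z < 2 * R
  · have hz2' : z' < 2 * R := by
      by_contra h
      exact h20 ⟨hz2, not_lt.1 h⟩
    obtain ⟨ε, hε, hgap⟩ := exists_gap P0 (z' - R)
    obtain ⟨c, σ, hc⟩ := hP0.affine (a := z - R) (b := z' - R + ε) (by linarith) (by
      rintro p hp ⟨h1, h2⟩
      by_cases h3 : p ≤ z' - R
      · exact hPa p hp ⟨by linarith, by linarith⟩
      · exact (hgap p hp).1 ⟨by linarith, by linarith⟩)
    have g1 := germ_right hc (le_refl (z - R)) (by linarith)
    have g2 := germ_right hc (show z - R ≤ z' - R by linarith) (by linarith)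
    have e1 : iv R z = (z - R, true) := if_pos hz2
    have e2 : iv R z' = (z' - R, true) := if_pos hz2'
    rw [e1, e2, (gm_germ K hK k _).unique g1, (gm_germ K hK k _).unique g2]
    cases σ
    · change (3 * R - (c + sgn false * (z' - R))) - (3 * R - (c + sgn false * (z - R))) = z' - z
      rw [sgn_false]
      ring
    · change (c + sgn true * (z' - R) + R) - (c + sgn true * (z - R) + R) = z' - z
      rw [sgn_true]
      ring
  · rw [not_lt] at hz2
    obtain ⟨ε, hε, hgap⟩ := exists_gap P0 (3 * R - z')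
    obtain ⟨c, σ, hc⟩ := hP0.affine (a := 3 * R - z' - ε) (b := 3 * R - z) (by linarith) (by
      rintro p hp ⟨h1, h2⟩
      by_cases h3 : 3 * R - z' ≤ p
      · exact hPb p hp ⟨by linarith, by linarith⟩
      · exact (hgap p hp).2 ⟨by linarith, by linarith⟩)
    have g1 := germ_left hc (show 3 * R - z' - ε < 3 * R - z by linarith) (le_refl _)
    have g2 := germ_left hc (show 3 * R - z' - ε < 3 * R - z' by linarith) (by linarith)
    have e1 : iv R z = (3 * R - z, false) := if_neg (by linarith)
    have e2 : iv R z' = (3 * R - z', false) := if_neg (by linarith)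
    rw [e1, e2, (gm_germ K hK k _).unique g1, (gm_germ K hK k _).unique g2]
    cases σ
    · change (c + sgn false * (3 * R - z') + R) - (c + sgn false * (3 * R - z) + R) = z' - z
      rw [sgn_false]
      ring
    · change (3 * R - (c + sgn true * (3 * R - z'))) - (3 * R - (c + sgn true * (3 * R - z))) =
        z' - z
      rw [sgn_true]
      ring

theorem iet_ker (k : K) (hk : iet K hK R hR k = 1) : ∃ P : Finset ℝ, ∀ x ∉ P, k.1 x = x := by
  have h1 : ∀ d, gm K hK k d = d := by
    intro d
    by_cases hd : DR R d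
    · have h2 : emb R (gm1 K hK R hR k ⟨d, hd⟩) = emb R ⟨d, hd⟩ := by
        refine Subtype.ext ?_
        have h3 := (emb R ⟨d, hd⟩).2
        have h4 := iet_mem K hK R hR k (emb R ⟨d, hd⟩).1 h3.1 h3.2
        rw [hk] at h4
        have h5 : iv R (emb R ⟨d, hd⟩).1 = d :=
          congrArg Subtype.val ((emb R).symm_apply_apply ⟨d, hd⟩)
        rw [h5] at h4
        exact h4.symm
      exact congrArg Subtype.val ((emb R).injective h2)
    · exact gm_fix K hK R hR k d hd
  obtain ⟨P0, hP0⟩ := hK k.1 k.2
  refine ⟨P0, fun x hx => ?_⟩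
  obtain ⟨ε, hε, hgap⟩ := exists_gap P0 x
  obtain ⟨c, σ, hc⟩ := hP0.affine (a := x - ε) (b := x + ε) (by linarith) (by
    rintro p hp ⟨h2, h3⟩
    rcases lt_trichotomy p x with h4 | h4 | h4
    · exact (hgap p hp).2 ⟨h2, h4⟩
    · exact hx (h4 ▸ hp)
    · exact (hgap p hp).1 ⟨h4, h3⟩)
  have g1 := germ_right hc (show x - ε ≤ x by linarith) (by linarith)
  have h2 := (gm_germ K hK k (x, true)).unique g1
  rw [h1] at h2
  have h3 : x = c + sgn σ * x := congrArg Prod.fst h2
  rw [hc x (by linarith) (by linarith), ← h3]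

end

end Pool.Agent.H54.IX
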