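import Pool.Agent.H54.IX.Main
import Pool.Agent.H54.IX.Emb
import Pool.Agent.H13.BD.Cls

/-!
# Groups of piecewise isometries of the line
-/

set_option autoImplicit false

open Classical

namespace Pool.Agent.H54.IX

open Pool.Agent.H98.FJ Pool.Agent.H44.GW

variable {C : (G : Type) → [Group G] → Prop}

/-- groups of piecewise translations of `[0,T)` -/
theorem main_sub (hC : Inherits C) (hE : Extension C) {T : ℝ} (hT : 0 < T)
    (H : Subgroup (Equiv.Perm ℝ)) (hH : ∀ h ∈ H, ∃ P, Pw T P h) : C H := by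
  refine hC.union (ι := Finset H) (fun s => Subgroup.closure (s : Set H)) ?_ ?_ ?_
  · intro s t hst
    exact Subgroup.closure_mono (by exact_mod_cast hst)
  · intro g
    exact ⟨{g}, Subgroup.subset_closure (by simp)⟩
  · intro s
    have h1 := main_fin hC hE hT (fun x : s => ((x : H) : Equiv.Perm ℝ))
      (fun x => hH _ (x : H).2)
    have h2 : Subgroup.closure (s : Set H) ≤
        ((FreeGroup.lift (fun x : s => ((x : H) : Equiv.Perm ℝ))).range).comap H.subtype := by
      rw [Subgroup.closure_le]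
      intro x hx
      exact ⟨FreeGroup.of ⟨x, hx⟩, FreeGroup.lift_apply_of⟩
    refine hC.of_injective (MonoidHom.codRestrict
      (H.subtype.comp (Subgroup.closure (s : Set H)).subtype) _ (fun x => h2 x.2)) ?_ h1
    intro x y hxy
    have h3 := congrArg (fun z : (FreeGroup.lift (fun x : s => ((x : H) : Equiv.Perm ℝ))).range => z.1) hxy
    exact Subtype.ext (Subtype.ext h3)

/-- finitely supported permutations -/
theorem lf_of_fin {A X : Type} [Group A] (f : A →* Equiv.Perm X) (hf : Function.Injective f)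
    (h : ∀ a, ∃ P : Finset X, ∀ x ∉ P, f a x = x) : LF A := by
  intro s hs
  choose P hP using h
  obtain ⟨F, hF⟩ : ∃ F : Finset X, F = hs.toFinset.biUnion P := ⟨_, rfl⟩
  let K : Subgroup A :=
    { carrier := {a | ∀ x ∉ F, f a x = x}
      one_mem' := fun x _ => by rw [map_one]; rfl
      mul_mem' := fun {a b} ha hb x hx => by
        rw [map_mul, Equiv.Perm.mul_apply, hb x hx, ha x hx]
      inv_mem' := fun {a} ha x hx => by
        rw [map_inv]
        exact (Equiv.symm_apply_eq _).2 (ha x hx).symm }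
  have hK : ∀ a ∈ K, ∀ x ∈ F, f a x ∈ F := by
    intro a ha x hx
    by_contra h1
    have h2 := ha _ h1
    rw [(f a).injective h2] at h1
    exact h1 hx
  refine ⟨K, ?_, ?_⟩
  · refine Finite.of_injective (fun (a : K) (x : F) => (⟨f a.1 x, hK a.1 a.2 x x.2⟩ : F)) ?_
    intro a b hab
    refine Subtype.ext (hf (Equiv.ext fun x => ?_))
    by_cases hx : x ∈ F
    · exact congrArg Subtype.val (congrFun hab ⟨x, hx⟩)
    · rw [a.2 x hx, b.2 x hx]
  · intro a ha x hx
    refine hP a x fun h1 => hx ?_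
    rw [hF, Finset.mem_biUnion]
    exact ⟨a, hs.mem_toFinset.2 ha, h1⟩

theorem main_R (hC : Inherits C) (hE : Extension C) (K : Subgroup (Equiv.Perm ℝ))
    (hK : ∀ k ∈ K, ∃ P : Finset ℝ, Iso P k) (R : ℝ) (hR0 : 0 < R)
    (hR : ∀ k ∈ K, ∀ x, R ≤ |x| → k x = x) : C K := by
  refine Pool.Agent.H13.BD.lfKernel (Pool.Agent.H13.BD.inheritsExt hC hE) (iet K hK R hR) ?_ ?_
  · refine main_sub hC hE (T := 4 * R) (by linarith) _ ?_
    rintro _ ⟨k, rfl⟩
    exact iet_pw K hK R hR k
  · refine lf_of_fin (K.subtype.comp (iet K hK R hR).ker.subtype) ?_ ?_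
    · intro x y hxy
      exact Subtype.ext (Subtype.ext hxy)
    · intro a
      exact iet_ker K hK R hR a.1 a.2

/-- **The main theorem.** -/
theorem main_all (hC : Inherits C) (hE : Extension C) (H : Subgroup (Equiv.Perm ℝ))
    (hH : ∀ h ∈ H, (∃ P : Finset ℝ, Iso P h) ∧ ∃ R : ℝ, ∀ x, R ≤ |x| → h x = x) : C H := by
  refine hC.union (ι := Finset H) (fun s => Subgroup.closure (s : Set H)) ?_ ?_ ?_
  · intro s t hst
    exact Subgroup.closure_mono (by exact_mod_cast hst)
  · intro g
    exact ⟨{g}, Subgroup.subset_closure (by simp)⟩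
  · intro s
    choose R hR using fun h : H => (hH h.1 h.2).2
    obtain ⟨R0, hR0, hR1⟩ : ∃ R0 : ℝ, 0 < R0 ∧ ∀ h ∈ s, R h ≤ R0 := by
      refine ⟨1 + ∑ h ∈ s, |R h|, ?_, ?_⟩
      · have := Finset.sum_nonneg (s := s) (f := fun h => |R h|) (fun _ _ => abs_nonneg _)
        linarith
      · intro h hh
        have h1 := Finset.single_le_sum (s := s) (f := fun h => |R h|) (fun _ _ => abs_nonneg _) hh
        have h2 := le_abs_self (R h)
        linarith
    let K0 : Subgroup (Equiv.Perm ℝ) :=
      { carrier := {k | ∀ x, R0 ≤ |x| → k x = x}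
        one_mem' := fun x _ => rfl
        mul_mem' := fun {a b} ha hb x hx => by
          rw [Equiv.Perm.mul_apply, hb x hx, ha x hx]
        inv_mem' := fun {a} ha x hx => (Equiv.symm_apply_eq _).2 (ha x hx).symm }
    have hle : (Subgroup.closure (s : Set H)).map H.subtype ≤ K0 := by
      rw [Subgroup.map_le_iff_le_comap, Subgroup.closure_le]
      intro h hh x hx
      exact hR h x ((hR1 h hh).trans hx)
    have h1 : C ((Subgroup.closure (s : Set H)).map H.subtype) := by
      refine main_R hC hE _ ?_ R0 hR0 (fun k hk => hle hk)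
      rintro _ ⟨k, -, rfl⟩
      exact (hH k.1 k.2).1
    exact hC.iso _ _ ((Subgroup.closure (s : Set H)).equivMapOfInjective H.subtype
      H.subtype_injective).symm h1

end Pool.Agent.H54.IX
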