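import Mathlib

/-!
# Germs of piecewise isometries of the line

A piecewise isometry of the line acts on the one-sided germs of the line. `(x, true)` is the germ of the line on the right
of `x` and `(x, false)` is the germ on the left of `x`.
-/

set_option autoImplicit false

open Classical

namespace Pool.Agent.H54.IX

/-- isometric on the components of the complement of `P` -/
def Iso (P : Finset ℝ) (h : ℝ → ℝ) : Prop :=
  ∀ x y, x < y → (∀ p ∈ P, ¬ (x ≤ p ∧ p ≤ y)) → |h y - h x| = y - x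

/-- the signs -/
def sgn (b : Bool) : ℝ := if b then 1 else -1

theorem sgn_true : sgn true = 1 := rfl

theorem sgn_false : sgn false = -1 := rfl

theorem sgn_inj {b b' : Bool} (h : sgn b = sgn b') : b = b' := by
  cases b <;> cases b' <;> simp [sgn] at h ⊢ <;> linarith

/-- `h` maps the germ `d` to the germ `d'` -/
def Germ (h : ℝ → ℝ) (d d' : ℝ × Bool) : Prop :=
  ∃ ε : ℝ, 0 < ε ∧ ∀ s, 0 < s → s < ε → h (d.1 + sgn d.2 * s) = d'.1 + sgn d'.2 * s

theorem Germ.unique {h : ℝ → ℝ} {d d' d'' : ℝ × Bool} (h1 : Germ h d d') (h2 : Germ h d d'') :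
    d' = d'' := by
  obtain ⟨ε, hε, h1⟩ := h1
  obtain ⟨δ, hδ, h2⟩ := h2
  have hm : 0 < min ε δ := lt_min hε hδ
  have a1 := h1 (min ε δ / 2) (by linarith) (by linarith [min_le_left ε δ])
  have a2 := h2 (min ε δ / 2) (by linarith) (by linarith [min_le_right ε δ])
  have b1 := h1 (min ε δ / 3) (by linarith) (by linarith [min_le_left ε δ])
  have b2 := h2 (min ε δ / 3) (by linarith) (by linarith [min_le_right ε δ])
  have e1 : d'.1 + sgn d'.2 * (min ε δ / 2) = d''.1 + sgn d''.2 * (min ε δ / 2) := a1.symm.trans a2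
  have e2 : d'.1 + sgn d'.2 * (min ε δ / 3) = d''.1 + sgn d''.2 * (min ε δ / 3) := b1.symm.trans b2
  have e3 : (sgn d'.2 - sgn d''.2) * min ε δ = 0 := by linarith
  have e4 : sgn d'.2 = sgn d''.2 := by
    rcases mul_eq_zero.1 e3 with h3 | h3
    · linarith
    · exact absurd h3 hm.ne'
  refine Prod.ext ?_ (sgn_inj e4)
  rw [e4] at e1
  linarith

theorem Germ.comp {g h : ℝ → ℝ} {d d' d'' : ℝ × Bool} (h1 : Germ h d d') (h2 : Germ g d' d'') :
    Germ (g ∘ h) d d'' := by
  obtain ⟨ε, hε, h1⟩ := h1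
  obtain ⟨δ, hδ, h2⟩ := h2
  refine ⟨min ε δ, lt_min hε hδ, fun s hs hs' => ?_⟩
  rw [Function.comp_apply, h1 s hs (hs'.trans_le (min_le_left _ _)),
    h2 s hs (hs'.trans_le (min_le_right _ _))]

theorem Germ.inv {h : Equiv.Perm ℝ} {d d' : ℝ × Bool} (h1 : Germ h d d') :
    Germ (h⁻¹ : Equiv.Perm ℝ) d' d := by
  obtain ⟨ε, hε, h1⟩ := h1
  refine ⟨ε, hε, fun s hs hs' => ?_⟩
  rw [← h1 s hs hs']
  exact h.symm_apply_apply _

/-- isometries of intervals -/
theorem Iso.affine {P : Finset ℝ} {h : ℝ → ℝ} (hh : Iso P h) {a b : ℝ} (hab : a < b)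
    (hP : ∀ p ∈ P, ¬ (a < p ∧ p < b)) :
    ∃ (c : ℝ) (σ : Bool), ∀ t, a < t → t < b → h t = c + sgn σ * t := by
  have hiso : ∀ x y, a < x → x < y → y < b → |h y - h x| = y - x := by
    intro x y h1 h2 h3
    refine hh x y h2 fun p hp h4 => hP p hp ⟨by linarith [h4.1], by linarith [h4.2]⟩
  obtain ⟨t0, ht0⟩ : ∃ t0, t0 = a + (b - a) / 3 := ⟨_, rfl⟩
  obtain ⟨t1, ht1⟩ : ∃ t1, t1 = a + 2 * (b - a) / 3 := ⟨_, rfl⟩
  have h01 := hiso t0 t1 (by linarith) (by linarith) (by linarith)
  have hdist : ∀ x y, a < x → x < b → a < y → y < b → |h y - h x| = |y - x| := by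
    intro x y h1 h2 h3 h4
    rcases lt_trichotomy x y with h5 | h5 | h5
    · rw [hiso x y h1 h5 h4, abs_of_pos (by linarith)]
    · subst h5; simp
    · rw [abs_sub_comm, hiso y x h3 h5 h2, abs_sub_comm y x, abs_of_pos (by linarith)]
  have key : ∀ σ : Bool, h t1 - h t0 = sgn σ * (t1 - t0) →
      ∀ t, a < t → t < b → h t = (h t0 - sgn σ * t0) + sgn σ * t := by
    intro σ hσ t h1 h2
    have e0 := hdist t0 t (by linarith) (by linarith) h1 h2
    have e1 := hdist t1 t (by linarith) (by linarith) h1 h2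
    rw [abs_eq_abs] at e0 e1
    have hne : t0 ≠ t1 := by
      intro h3
      linarith
    cases σ
    · rw [sgn_false] at hσ ⊢
      rcases e0 with e0 | e0 <;> rcases e1 with e1 | e1 <;> linarith
    · rw [sgn_true] at hσ ⊢
      rcases e0 with e0 | e0 <;> rcases e1 with e1 | e1 <;> linarith
  rcases abs_eq (by linarith : (0 : ℝ) ≤ t1 - t0) |>.1 h01 with h2 | h2
  · exact ⟨_, true, key true (by rw [sgn_true]; linarith)⟩
  · exact ⟨_, false, key false (by rw [sgn_false]; linarith)⟩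

/-- no point of a finite set in a short one-sided neighbourhood -/
theorem exists_gap (P : Finset ℝ) (x : ℝ) : ∃ ε : ℝ, 0 < ε ∧
    ∀ p ∈ P, ¬ (x < p ∧ p < x + ε) ∧ ¬ (x - ε < p ∧ p < x) := by
  induction P using Finset.induction_on with
  | empty => exact ⟨1, one_pos, by simp⟩
  | insert q P _ ih =>
    obtain ⟨ε, hε, h⟩ := ih
    by_cases hq : q = x
    · refine ⟨ε, hε, fun p hp => ?_⟩
      rcases Finset.mem_insert.1 hp with rfl | hp
      · subst hq
        exact ⟨fun h1 => lt_irrefl _ h1.1, fun h1 => lt_irrefl _ h1.2⟩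
      · exact h p hp
    · have hq' : 0 < |q - x| := abs_pos.2 (sub_ne_zero.2 hq)
      refine ⟨min ε |q - x|, lt_min hε hq', fun p hp => ?_⟩
      have h1 := min_le_left ε |q - x|
      have h2 := min_le_right ε |q - x|
      rcases Finset.mem_insert.1 hp with rfl | hp
      · refine ⟨fun h3 => ?_, fun h3 => ?_⟩
        · have := abs_of_pos (show 0 < p - x by linarith)
          linarith [h3.1, h3.2]
        · have := abs_of_neg (show p - x < 0 by linarith [h3.2])
          linarith [h3.1, h3.2]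
      · obtain ⟨h3, h4⟩ := h p hp
        exact ⟨fun h5 => h3 ⟨h5.1, by linarith [h5.2]⟩, fun h5 => h4 ⟨by linarith [h5.1], h5.2⟩⟩

theorem Iso.exists_germ {P : Finset ℝ} {h : ℝ → ℝ} (hh : Iso P h) (d : ℝ × Bool) :
    ∃ d', Germ h d d' := by
  obtain ⟨x, b⟩ := d
  obtain ⟨ε, hε, hP⟩ := exists_gap P x
  cases b
  · obtain ⟨c, σ, hc⟩ := hh.affine (a := x - ε) (b := x) (by linarith) (fun p hp => (hP p hp).2)
    refine ⟨(c + sgn σ * x, !σ), ε, hε, fun s hs hs' => ?_⟩
    change h (x + sgn false * s) = c + sgn σ * x + sgn (!σ) * s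
    rw [sgn_false, hc _ (by linarith) (by linarith)]
    cases σ <;> simp only [sgn, Bool.not_false, Bool.not_true] <;> simp <;> ring
  · obtain ⟨c, σ, hc⟩ := hh.affine (a := x) (b := x + ε) (by linarith) (fun p hp => (hP p hp).1)
    refine ⟨(c + sgn σ * x, σ), ε, hε, fun s hs hs' => ?_⟩
    change h (x + sgn true * s) = c + sgn σ * x + sgn σ * s
    rw [sgn_true, hc _ (by linarith) (by linarith)]
    ring

/-- the action on the germs -/
noncomputable def gm (K : Subgroup (Equiv.Perm ℝ)) (hK : ∀ k ∈ K, ∃ P : Finset ℝ, Iso P k) :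
    K →* Equiv.Perm (ℝ × Bool) where
  toFun k :=
    { toFun := fun d => ((hK k.1 k.2).choose_spec.exists_germ d).choose
      invFun := fun d => ((hK k⁻¹.1 k⁻¹.2).choose_spec.exists_germ d).choose
      left_inv := fun d => by
        have h1 := ((hK k.1 k.2).choose_spec.exists_germ d).choose_spec
        have h2 := ((hK k⁻¹.1 k⁻¹.2).choose_spec.exists_germ
          ((hK k.1 k.2).choose_spec.exists_germ d).choose).choose_spec
        exact h2.unique h1.inv
      right_inv := fun d => by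
        have h1 := ((hK k⁻¹.1 k⁻¹.2).choose_spec.exists_germ d).choose_spec
        have h2 := ((hK k.1 k.2).choose_spec.exists_germ
          ((hK k⁻¹.1 k⁻¹.2).choose_spec.exists_germ d).choose).choose_spec
        have h3 : Germ ((k⁻¹.1)⁻¹ : Equiv.Perm ℝ)
          ((hK k⁻¹.1 k⁻¹.2).choose_spec.exists_germ d).choose d := h1.inv
        have h4 : ((k⁻¹.1)⁻¹ : Equiv.Perm ℝ) = k.1 := by
          rw [Subgroup.coe_inv, inv_inv]
        rw [h4] at h3
        exact h2.unique h3 }
  map_one' := by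
    refine Equiv.ext fun d => ?_
    have h1 := ((hK (1 : K).1 (1 : K).2).choose_spec.exists_germ d).choose_spec
    have h2 : Germ ((1 : K).1 : Equiv.Perm ℝ) d d := ⟨1, one_pos, fun s _ _ => rfl⟩
    exact h1.unique h2
  map_mul' k l := by
    refine Equiv.ext fun d => ?_
    have h1 := ((hK (k * l).1 (k * l).2).choose_spec.exists_germ d).choose_spec
    have h2 := ((hK l.1 l.2).choose_spec.exists_germ d).choose_spec
    have h3 := ((hK k.1 k.2).choose_spec.exists_germ
      ((hK l.1 l.2).choose_spec.exists_germ d).choose).choose_spec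
    exact h1.unique (h2.comp h3)

theorem gm_germ (K : Subgroup (Equiv.Perm ℝ)) (hK : ∀ k ∈ K, ∃ P : Finset ℝ, Iso P k) (k : K)
    (d : ℝ × Bool) : Germ (k.1 : Equiv.Perm ℝ) d (gm K hK k d) :=
  ((hK k.1 k.2).choose_spec.exists_germ d).choose_spec

end Pool.Agent.H54.IX
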