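import Mathlib

/-!
# Recut elements

Let `r : A → A → M` be a family of elements of a group with `r x y * r y x = 1`, commutation for disjoint pairs and the
Yang-Baxter relations. For lists `W`, `W'` of the same elements without repetitions `RR r W W'` is the product of the
`r a b` for a sequence of exchanges of neighbours `a`, `b` which takes `W` to `W'`. It is defined as
`bw E W * (bw E W')⁻¹`, `bw E W` being the product for one special sequence which takes `W` to the order of `E`.
-/

set_option autoImplicit false

open Classical

namespace Pool.Agent.H54.IX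

variable {A M : Type} [Group M]

/-- the relations for all pairs and triples -/
structure YB (r : A → A → M) : Prop where
  inv : ∀ x y, x ≠ y → r x y * r y x = 1
  comm : ∀ x y z w, x ≠ z → x ≠ w → y ≠ z → y ≠ w → x ≠ y → z ≠ w →
    r x y * r z w = r z w * r x y
  yb : ∀ x y z, x ≠ y → x ≠ z → y ≠ z → r x y * r x z * r y z = r y z * r x z * r x y

/-- `e` moves from the right of `U` to the left of `U` -/
def crs (r : A → A → M) (e : A) (U : List A) : M := (U.reverse.map fun u => r u e).prod

theorem crs_nil (r : A → A → M) (e : A) : crs r e [] = 1 := rfl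

theorem crs_append (r : A → A → M) (e : A) (U V : List A) :
    crs r e (U ++ V) = crs r e V * crs r e U := by
  unfold crs
  rw [List.reverse_append, List.map_append, List.prod_append]

theorem crs_single (r : A → A → M) (e a : A) : crs r e [a] = r a e := by
  unfold crs
  simp

/-- the special sequence -/
noncomputable def bw0 (r : A → A → M) : List A → List A → M
  | [], _ => 1
  | (e :: E), W => if e ∈ W then crs r e (W.takeWhile fun a => decide (a ≠ e)) * bw0 r E (W.erase e)
    else bw0 r E W

theorem bw0_mem (r : A → A → M) (e : A) (E U V : List A) (h : e ∉ U) :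
    bw0 r (e :: E) (U ++ e :: V) = crs r e U * bw0 r E (U ++ V) := by
  have h1 : e ∈ U ++ e :: V := by simp
  have h2 : (U ++ e :: V).takeWhile (fun a => decide (a ≠ e)) = U := by
    rw [List.takeWhile_append_of_pos]
    · simp
    · intro a ha
      simp only [decide_eq_true_eq]
      rintro rfl
      exact h ha
  have h3 : (U ++ e :: V).erase e = U ++ V := by
    rw [List.erase_append_right _ h]
    simp
  rw [bw0, if_pos h1, h2, h3]

theorem bw0_notMem (r : A → A → M) (e : A) (E W : List A) (h : e ∉ W) :
    bw0 r (e :: E) W = bw0 r E W := by
  rw [bw0, if_neg h]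

theorem crs_comm {r : A → A → M} (hr : YB r) {e a b : A} (U : List A) (hea : e ≠ a) (heb : e ≠ b)
    (hab : a ≠ b) (haU : a ∉ U) (hbU : b ∉ U) (heU : e ∉ U) :
    crs r e U * r a b = r a b * crs r e U := by
  have h : Commute (crs r e U) (r a b) := by
    unfold crs
    refine Commute.list_prod_left _ _ ?_
    intro x hx
    obtain ⟨u, hu, rfl⟩ := List.mem_map.1 hx
    rw [List.mem_reverse] at hu
    exact hr.comm u e a b (fun h => haU (h ▸ hu)) (fun h => hbU (h ▸ hu)) hea heb
      (fun h => heU (h ▸ hu)) hab
  exact h.eq

/-- exchange of two neighbours -/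
theorem bw0_swap {r : A → A → M} (hr : YB r) (E : List A) : ∀ (U V : List A) (a b : A),
    (U ++ a :: b :: V).Nodup → (∀ x ∈ U ++ a :: b :: V, x ∈ E) →
    bw0 r E (U ++ a :: b :: V) = r a b * bw0 r E (U ++ b :: a :: V) := by
  induction E with
  | nil =>
    intro U V a b _ h
    have := h a (by simp)
    simp at this
  | cons e E ih =>
    intro U V a b hn hE
    have hn2 : (U ++ b :: a :: V).Nodup := by
      refine (List.Perm.nodup_iff ?_).1 hn
      exact List.Perm.append_left U (List.Perm.swap b a V)
    have hab : a ≠ b := by
      rintro rfl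
      rw [List.nodup_append] at hn
      simpa using hn.2.1
    rw [List.nodup_append] at hn
    obtain ⟨hU, hV, hd⟩ := hn
    rw [List.nodup_cons, List.nodup_cons] at hV
    obtain ⟨haV, hbV, hVn⟩ := hV
    have haU : a ∉ U := fun h => hd a h a (by simp) rfl
    have hbU : b ∉ U := fun h => hd b h b (by simp) rfl
    have haV' : a ∉ V := fun h => haV (List.mem_cons_of_mem _ h)
    have hn0 : (U ++ a :: b :: V).Nodup := (List.Perm.nodup_iff
      (List.Perm.append_left U (List.Perm.swap a b V))).1 hn2
    by_cases hea : e = a
    · subst hea
      have h1 : U ++ b :: e :: V = (U ++ [b]) ++ e :: V := by simp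
      have h2 : e ∉ U ++ [b] := by
        simp only [List.mem_append, List.mem_singleton, not_or]
        exact ⟨haU, hab⟩
      rw [bw0_mem r e E U (b :: V) haU, h1, bw0_mem r e E (U ++ [b]) V h2, crs_append, crs_single]
      have h3 : U ++ [b] ++ V = U ++ b :: V := by simp
      rw [h3, mul_assoc, ← mul_assoc, ← mul_assoc, hr.inv e b hab, one_mul]
    · by_cases heb : e = b
      · subst heb
        have h1 : U ++ a :: e :: V = (U ++ [a]) ++ e :: V := by simp
        have h2 : e ∉ U ++ [a] := by
          simp only [List.mem_append, List.mem_singleton, not_or]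
          exact ⟨hbU, hea⟩
        rw [bw0_mem r e E U (a :: V) hbU, h1, bw0_mem r e E (U ++ [a]) V h2, crs_append, crs_single]
        have h3 : U ++ [a] ++ V = U ++ a :: V := by simp
        rw [h3, mul_assoc]
      · by_cases heU : e ∈ U
        · obtain ⟨U1, U2, rfl⟩ := List.append_of_mem heU
          have he1 : e ∉ U1 := by
            rw [List.nodup_append] at hU
            intro h
            exact hU.2.2 e h e (by simp) rfl
          have h1 : U1 ++ e :: U2 ++ a :: b :: V = U1 ++ e :: (U2 ++ a :: b :: V) := by simp
          have h2 : U1 ++ e :: U2 ++ b :: a :: V = U1 ++ e :: (U2 ++ b :: a :: V) := by simp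
          rw [h1, h2, bw0_mem r e E U1 _ he1, bw0_mem r e E U1 _ he1]
          have h3 : U1 ++ (U2 ++ a :: b :: V) = (U1 ++ U2) ++ a :: b :: V := by simp
          have h4 : U1 ++ (U2 ++ b :: a :: V) = (U1 ++ U2) ++ b :: a :: V := by simp
          have hsub : ((U1 ++ U2) ++ a :: b :: V).Sublist (U1 ++ e :: U2 ++ a :: b :: V) := by
            refine List.Sublist.append ?_ (List.Sublist.refl _)
            exact List.Sublist.append (List.Sublist.refl _) (List.sublist_cons_self _ _)
          have hn3 : ((U1 ++ U2) ++ a :: b :: V).Nodup := hn0.sublist hsub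
          have hE3 : ∀ x ∈ (U1 ++ U2) ++ a :: b :: V, x ∈ E := by
            intro x hx
            have h5 := hE x (hsub.subset hx)
            rw [List.mem_cons] at h5
            rcases h5 with rfl | h5
            · exfalso
              have h6 : (x :: ((U1 ++ U2) ++ a :: b :: V)).Nodup := by
                refine (List.Perm.nodup_iff ?_).1 hn0
                rw [h1, ← h3]
                exact List.perm_middle
              exact (List.nodup_cons.1 h6).1 hx
            · exact h5
          rw [h3, h4, ih (U1 ++ U2) V a b hn3 hE3, ← mul_assoc, ← mul_assoc,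
            crs_comm hr U1 hea heb hab (fun h => haU (List.mem_append_left _ h))
              (fun h => hbU (List.mem_append_left _ h)) he1]
        · by_cases heV : e ∈ V
          · obtain ⟨V1, V2, rfl⟩ := List.append_of_mem heV
            have he1 : e ∉ V1 := by
              rw [List.nodup_append] at hVn
              intro h
              exact hVn.2.2 e h e (by simp) rfl
            have he2 : e ∉ U ++ a :: b :: V1 := by
              simp only [List.mem_append, List.mem_cons, not_or]
              exact ⟨heU, hea, heb, he1⟩
            have he3 : e ∉ U ++ b :: a :: V1 := by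
              simp only [List.mem_append, List.mem_cons, not_or]
              exact ⟨heU, heb, hea, he1⟩
            have h1 : U ++ a :: b :: (V1 ++ e :: V2) = (U ++ a :: b :: V1) ++ e :: V2 := by simp
            have h2 : U ++ b :: a :: (V1 ++ e :: V2) = (U ++ b :: a :: V1) ++ e :: V2 := by simp
            rw [h1, h2, bw0_mem r e E _ _ he2, bw0_mem r e E _ _ he3]
            have h3 : U ++ a :: b :: V1 ++ V2 = U ++ a :: b :: (V1 ++ V2) := by simp
            have h4 : U ++ b :: a :: V1 ++ V2 = U ++ b :: a :: (V1 ++ V2) := by simp
            have hsub : (U ++ a :: b :: (V1 ++ V2)).Sublist (U ++ a :: b :: (V1 ++ e :: V2)) := by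
              refine List.Sublist.append (List.Sublist.refl _) ?_
              refine List.Sublist.cons_cons _ (List.Sublist.cons_cons _ ?_)
              exact List.Sublist.append (List.Sublist.refl _) (List.sublist_cons_self _ _)
            have hn3 : (U ++ a :: b :: (V1 ++ V2)).Nodup := hn0.sublist hsub
            have hE3 : ∀ x ∈ U ++ a :: b :: (V1 ++ V2), x ∈ E := by
              intro x hx
              have h5 := hE x (hsub.subset hx)
              rw [List.mem_cons] at h5
              rcases h5 with rfl | h5
              · exfalso
                have h6 : (x :: (U ++ a :: b :: (V1 ++ V2))).Nodup := by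
                  refine (List.Perm.nodup_iff ?_).1 hn0
                  rw [h1, ← h3]
                  exact List.perm_middle
                exact (List.nodup_cons.1 h6).1 hx
              · exact h5
            rw [h3, h4, ih U (V1 ++ V2) a b hn3 hE3]
            have e1 : crs r e (U ++ a :: b :: V1) = crs r e V1 * (r b e * r a e) * crs r e U := by
              have : U ++ a :: b :: V1 = U ++ [a] ++ [b] ++ V1 := by simp
              rw [this, crs_append, crs_append, crs_append, crs_single, crs_single]
              group
            have e2 : crs r e (U ++ b :: a :: V1) = crs r e V1 * (r a e * r b e) * crs r e U := by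
              have : U ++ b :: a :: V1 = U ++ [b] ++ [a] ++ V1 := by simp
              rw [this, crs_append, crs_append, crs_append, crs_single, crs_single]
              group
            have c1 := crs_comm hr U hea heb hab haU hbU heU
            have c2 := crs_comm hr V1 hea heb hab (fun h => haV' (List.mem_append_left _ h))
              (fun h => hbV (List.mem_append_left _ h)) he1
            have c3 := hr.yb a b e hab (Ne.symm hea) (Ne.symm heb)
            rw [e1, e2]
            calc crs r e V1 * (r b e * r a e) * crs r e U * (r a b * bw0 r E (U ++ b :: a :: (V1 ++ V2)))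
                = crs r e V1 * (r b e * r a e) * (crs r e U * r a b) *
                  bw0 r E (U ++ b :: a :: (V1 ++ V2)) := by group
              _ = crs r e V1 * (r b e * r a e) * (r a b * crs r e U) *
                  bw0 r E (U ++ b :: a :: (V1 ++ V2)) := by rw [c1]
              _ = crs r e V1 * (r b e * r a e * r a b) * crs r e U *
                  bw0 r E (U ++ b :: a :: (V1 ++ V2)) := by group
              _ = crs r e V1 * (r a b * r a e * r b e) * crs r e U *
                  bw0 r E (U ++ b :: a :: (V1 ++ V2)) := by rw [c3]
              _ = (crs r e V1 * r a b) * (r a e * r b e) * crs r e U *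
                  bw0 r E (U ++ b :: a :: (V1 ++ V2)) := by group
              _ = (r a b * crs r e V1) * (r a e * r b e) * crs r e U *
                  bw0 r E (U ++ b :: a :: (V1 ++ V2)) := by rw [c2]
              _ = r a b * (crs r e V1 * (r a e * r b e) * crs r e U *
                  bw0 r E (U ++ b :: a :: (V1 ++ V2))) := by group
          · have he1 : e ∉ U ++ a :: b :: V := by
              simp only [List.mem_append, List.mem_cons, not_or]
              exact ⟨heU, hea, heb, heV⟩
            have he2 : e ∉ U ++ b :: a :: V := by
              simp only [List.mem_append, List.mem_cons, not_or]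
              exact ⟨heU, heb, hea, heV⟩
            rw [bw0_notMem r e E _ he1, bw0_notMem r e E _ he2]
            refine ih U V a b hn0 ?_
            intro x hx
            have h5 := hE x hx
            rw [List.mem_cons] at h5
            rcases h5 with rfl | h5
            · exact absurd hx he1
            · exact h5

section fin

variable [Fintype A] (r : A → A → M)

/-- the reference order -/
noncomputable def bw (W : List A) : M := bw0 r Finset.univ.toList W

variable {r}

theorem bw_swap (hr : YB r) (U V : List A) (a b : A) (h : (U ++ a :: b :: V).Nodup) :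
    bw r (U ++ a :: b :: V) = r a b * bw r (U ++ b :: a :: V) :=
  bw0_swap hr _ U V a b h (fun x _ => by simp)

/-- the recut element -/
noncomputable def RR (r : A → A → M) (W W' : List A) : M := bw r W * (bw r W')⁻¹

@[simp] theorem RR_self (W : List A) : RR r W W = 1 := mul_inv_cancel _

theorem RR_trans (W W' W'' : List A) : RR r W W' * RR r W' W'' = RR r W W'' := by
  unfold RR
  group

theorem RR_inv (W W' : List A) : (RR r W W')⁻¹ = RR r W' W := by
  unfold RR
  group

theorem RR_swap (hr : YB r) (U V : List A) (a b : A) (h : (U ++ a :: b :: V).Nodup) :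
    RR r (U ++ a :: b :: V) (U ++ b :: a :: V) = r a b := by
  unfold RR
  rw [bw_swap hr U V a b h, mul_inv_cancel_right]

/-- locality -/
theorem RR_ctx (hr : YB r) {W W' : List A} (hp : W.Perm W') : ∀ U V : List A,
    (U ++ W ++ V).Nodup → RR r (U ++ W ++ V) (U ++ W' ++ V) = RR r W W' := by
  induction hp with
  | nil =>
    intro U V _
    rw [RR_self, RR_self]
  | @cons a l l' hp ih =>
    intro U V hn
    have h1 : U ++ a :: l ++ V = (U ++ [a]) ++ l ++ V := by simp
    have h2 : U ++ a :: l' ++ V = (U ++ [a]) ++ l' ++ V := by simp
    have h3 : a :: l = [a] ++ l ++ [] := by simp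
    have h4 : a :: l' = [a] ++ l' ++ [] := by simp
    have hn2 : ([a] ++ l ++ []).Nodup := by
      rw [← h3]
      rw [List.append_assoc, List.nodup_append] at hn
      exact (List.nodup_append.1 hn.2.1).1
    rw [h1, h2, ih (U ++ [a]) V (by rw [← h1]; exact hn), h3, h4, ih [a] [] hn2]
  | swap a b l =>
    intro U V hn
    have h1 : U ++ b :: a :: l ++ V = U ++ b :: a :: (l ++ V) := by simp
    have h2 : U ++ a :: b :: l ++ V = U ++ a :: b :: (l ++ V) := by simp
    have hn2 : ([] ++ b :: a :: l).Nodup := by
      rw [List.append_assoc, List.nodup_append] at hn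
      exact (List.nodup_append.1 hn.2.1).1
    rw [h1, h2, RR_swap hr U (l ++ V) b a (by rw [← h1]; exact hn)]
    have h3 := RR_swap hr [] l b a hn2
    exact h3.symm
  | @trans l l' l'' h1 h2 ih1 ih2 =>
    intro U V hn
    have hn2 : (U ++ l' ++ V).Nodup :=
      (List.Perm.nodup_iff (List.Perm.append_right V (List.Perm.append_left U h1))).1 hn
    rw [← RR_trans (U ++ l ++ V) (U ++ l' ++ V) (U ++ l'' ++ V), ih1 U V hn, ih2 U V hn2, RR_trans]

theorem RR_cons (hr : YB r) (a : A) {W W' : List A} (hp : W.Perm W') (h : (a :: W).Nodup) :
    RR r (a :: W) (a :: W') = RR r W W' := by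
  have h1 := RR_ctx hr hp [a] [] (by simpa using h)
  simpa using h1

theorem RR_right (hr : YB r) {W W' : List A} (hp : W.Perm W') (V : List A) (h : (W ++ V).Nodup) :
    RR r (W ++ V) (W' ++ V) = RR r W W' := by
  have h1 := RR_ctx hr hp [] V (by simpa using h)
  simpa using h1

theorem RR_left (hr : YB r) {W W' : List A} (hp : W.Perm W') (U : List A) (h : (U ++ W).Nodup) :
    RR r (U ++ W) (U ++ W') = RR r W W' := by
  have h1 := RR_ctx hr hp U [] (by simpa using h)
  simpa using h1

theorem RR_append (hr : YB r) {W W' V V' : List A} (hp : W.Perm W') (hq : V.Perm V')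
    (h : (W ++ V).Nodup) : RR r (W ++ V) (W' ++ V') = RR r W W' * RR r V V' := by
  have h2 : (W' ++ V).Nodup := (List.Perm.nodup_iff (List.Perm.append_right V hp)).1 h
  rw [← RR_trans (W ++ V) (W' ++ V) (W' ++ V'), RR_right hr hp V h, RR_left hr hq W' h2]

theorem RR_comm (hr : YB r) {W W' V V' : List A} (hp : W.Perm W') (hq : V.Perm V')
    (h : (W ++ V).Nodup) : RR r W W' * RR r V V' = RR r V V' * RR r W W' := by
  have h2 : (W ++ V').Nodup := (List.Perm.nodup_iff (List.Perm.append_left W hq)).1 h
  have h3 : RR r (W ++ V) (W' ++ V') = RR r V V' * RR r W W' := by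
    rw [← RR_trans (W ++ V) (W ++ V') (W' ++ V'), RR_left hr hq W h, RR_right hr hp V' h2]
  rw [← h3, RR_append hr hp hq h]

/-- a function of lists with the same behaviour under exchanges of neighbours computes the recut elements -/
theorem RR_gen (hr : YB r) {N : Type} [Group N] (g : M →* N) (F : List A → N)
    (hF : ∀ U V a b, (U ++ a :: b :: V).Nodup →
      F (U ++ a :: b :: V) = g (r a b) * F (U ++ b :: a :: V)) {W W' : List A}
    (hp : W.Perm W') : ∀ U V : List A, (U ++ W ++ V).Nodup →
      g (RR r W W') = F (U ++ W ++ V) * (F (U ++ W' ++ V))⁻¹ := by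
  induction hp with
  | nil =>
    intro U V _
    rw [RR_self, map_one, mul_inv_cancel]
  | @cons a l l' hp ih =>
    intro U V hn
    have h1 : U ++ a :: l ++ V = (U ++ [a]) ++ l ++ V := by simp
    have h2 : U ++ a :: l' ++ V = (U ++ [a]) ++ l' ++ V := by simp
    have hn2 : (a :: l).Nodup := by
      rw [List.append_assoc, List.nodup_append] at hn
      exact (List.nodup_append.1 hn.2.1).1
    rw [RR_cons hr a hp hn2, h1, h2]
    exact ih (U ++ [a]) V (by rw [← h1]; exact hn)
  | swap a b l =>
    intro U V hn
    have h1 : U ++ b :: a :: l ++ V = U ++ b :: a :: (l ++ V) := by simp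
    have h2 : U ++ a :: b :: l ++ V = U ++ a :: b :: (l ++ V) := by simp
    have hn2 : ([] ++ b :: a :: l).Nodup := by
      rw [List.append_assoc, List.nodup_append] at hn
      exact (List.nodup_append.1 hn.2.1).1
    have h3 := RR_swap hr [] l b a hn2
    rw [List.nil_append, List.nil_append] at h3
    rw [h3, h1, h2, hF U (l ++ V) b a (by rw [← h1]; exact hn), mul_inv_cancel_right]
  | @trans l l' l'' h1 h2 ih1 ih2 =>
    intro U V hn
    have hn2 : (U ++ l' ++ V).Nodup :=
      (List.Perm.nodup_iff (List.Perm.append_right V (List.Perm.append_left U h1))).1 hn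
    rw [← RR_trans l l' l'', map_mul, ih1 U V hn, ih2 U V hn2]
    group

theorem RR_gen' (hr : YB r) {N : Type} [Group N] (g : M →* N) (F : List A → N)
    (hF : ∀ U V a b, (U ++ a :: b :: V).Nodup →
      F (U ++ a :: b :: V) = g (r a b) * F (U ++ b :: a :: V)) {W W' : List A}
    (hp : W.Perm W') (h : W.Nodup) : g (RR r W W') = F W * (F W')⁻¹ := by
  have h1 := RR_gen hr g F hF hp [] [] (by simpa using h)
  simpa using h1

end fin

end Pool.Agent.H54.IX
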