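import Pool.Agent.H54.IX.Mem
import Pool.Agent.H54.IX.Rec

/-!
# The groups of tokens with types

`τ : A → T` gives the types of the tokens. `GT τ` is the semidirect product of `TG` of the graph of the pairs of tokens
of different types with the group of the permutations of the tokens which preserve the types. `rh τ x y` is the generator
if the types of `x`, `y` are different, and the transposition otherwise. It satisfies the Yang-Baxter relations for all
triples.
-/

set_option autoImplicit false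

open Classical

namespace Pool.Agent.H54.IX

open Pool.Agent.H98.FJ

variable {A T : Type}

/-- the graph of the pairs of tokens of different types -/
def grt (τ : A → T) : SimpleGraph A where
  Adj x y := τ x ≠ τ y
  symm := ⟨fun _ _ h => h.symm⟩
  loopless := ⟨fun _ h => h rfl⟩

/-- the permutations which preserve the types -/
def sg (τ : A → T) : Subgroup (Equiv.Perm A) where
  carrier := {σ | ∀ a, τ (σ a) = τ a}
  one_mem' := fun _ => rfl
  mul_mem' := fun {σ σ'} h h' a => by rw [Equiv.Perm.mul_apply, h, h']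
  inv_mem' := fun {σ} h a => by
    have h1 := h (σ⁻¹ a)
    rw [show σ (σ⁻¹ a) = a from σ.apply_symm_apply a] at h1
    exact h1.symm

theorem mem_sg {τ : A → T} {σ : Equiv.Perm A} : σ ∈ sg τ ↔ ∀ a, τ (σ a) = τ a := Iff.rfl

theorem sg_isYB (τ : A → T) (σ : sg τ) :
    IsYB (grt τ) (fun x y => rr (grt τ) (σ.1 x) (σ.1 y)) := by
  have hr := rr_isYB (grt τ)
  have ha : ∀ x y, (grt τ).Adj (σ.1 x) (σ.1 y) ↔ (grt τ).Adj x y := by
    intro x y
    change τ (σ.1 x) ≠ τ (σ.1 y) ↔ τ x ≠ τ y
    rw [σ.2 x, σ.2 y]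
  refine ⟨?_, ?_, ?_, ?_⟩
  · intro x y h
    exact hr.off _ _ (fun h1 => h ((ha x y).1 h1))
  · intro x y h
    exact hr.inv _ _ ((ha x y).2 h)
  · intro x y z w h1 h2 h3 h4 h5 h6
    exact hr.comm _ _ _ _ ((ha _ _).2 h1) ((ha _ _).2 h2) (fun h => h3 (σ.1.injective h))
      (fun h => h4 (σ.1.injective h)) (fun h => h5 (σ.1.injective h))
      (fun h => h6 (σ.1.injective h))
  · intro x y z h1 h2 h3
    exact hr.yb _ _ _ ((ha _ _).2 h1) ((ha _ _).2 h2) ((ha _ _).2 h3)

/-- the action on the generators -/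
def sgm (τ : A → T) (σ : sg τ) : TG (grt τ) →* TG (grt τ) := lft (sg_isYB τ σ)

theorem sgm_rr (τ : A → T) (σ : sg τ) (x y : A) :
    sgm τ σ (rr (grt τ) x y) = rr (grt τ) (σ.1 x) (σ.1 y) := lft_rr _ x y

theorem sgm_mul (τ : A → T) (σ ρ : sg τ) : (sgm τ σ).comp (sgm τ ρ) = sgm τ (σ * ρ) := by
  refine tg_ext fun x y _ => ?_
  rw [MonoidHom.comp_apply, sgm_rr, sgm_rr, sgm_rr]
  rfl

theorem sgm_one (τ : A → T) : sgm τ 1 = MonoidHom.id _ := by
  refine tg_ext fun x y _ => ?_
  rw [sgm_rr]
  rfl

/-- the action of the permutations on `TG` -/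
def sga (τ : A → T) : sg τ →* MulAut (TG (grt τ)) where
  toFun σ :=
    { toFun := sgm τ σ
      invFun := sgm τ σ⁻¹
      left_inv := fun g => by
        rw [← MonoidHom.comp_apply, sgm_mul, inv_mul_cancel, sgm_one]
        rfl
      right_inv := fun g => by
        rw [← MonoidHom.comp_apply, sgm_mul, mul_inv_cancel, sgm_one]
        rfl
      map_mul' := map_mul (sgm τ σ) }
  map_one' := by
    refine MulEquiv.ext fun g => ?_
    change sgm τ 1 g = g
    rw [sgm_one]
    rfl
  map_mul' σ ρ := by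
    refine MulEquiv.ext fun g => ?_
    change sgm τ (σ * ρ) g = sgm τ σ (sgm τ ρ g)
    rw [← sgm_mul]
    rfl

theorem sga_apply (τ : A → T) (σ : sg τ) (g : TG (grt τ)) : sga τ σ g = sgm τ σ g := rfl

/-- the group of the tokens with types -/
abbrev GT (τ : A → T) : Type := TG (grt τ) ⋊[sga τ] sg τ

theorem gt_mem {C : (G : Type) → [Group G] → Prop} (hC : Inherits C) (hE : Extension C)
    [Finite A] (τ : A → T) : C (GT τ) := by
  let p : GT τ →* sg τ := SemidirectProduct.rightHom
  have hfin : Finite (sg τ) := inferInstance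
  have hfi : p.ker.FiniteIndex := by
    have : Finite (p.range) := inferInstance
    exact Subgroup.finiteIndex_ker p
  refine hC.index (GT τ) p.ker hfi ?_
  have h1 : (SemidirectProduct.inl : TG (grt τ) →* GT τ).range = p.ker :=
    SemidirectProduct.range_inl_eq_ker_rightHom
  rw [← h1]
  exact hC.iso (TG (grt τ)) _ (MonoidHom.ofInjective SemidirectProduct.inl_injective)
    (tg_mem hC hE _)

/-- the transposition of two tokens of the same type -/
theorem swap_mem_sg {τ : A → T} {x y : A} (h : τ x = τ y) : Equiv.swap x y ∈ sg τ := by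
  intro a
  by_cases hx : a = x
  · subst hx; rw [Equiv.swap_apply_left, h]
  · by_cases hy : a = y
    · subst hy; rw [Equiv.swap_apply_right, h]
    · rw [Equiv.swap_apply_of_ne_of_ne hx hy]

/-- a permutation in `GT τ` -/
def pm (τ : A → T) (σ : Equiv.Perm A) (h : σ ∈ sg τ) : GT τ := SemidirectProduct.inr ⟨σ, h⟩

/-- the generators -/
noncomputable def rh (τ : A → T) (x y : A) : GT τ :=
  if h : τ x = τ y then pm τ (Equiv.swap x y) (swap_mem_sg h)
  else SemidirectProduct.inl (rr (grt τ) x y)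

theorem rh_eq {τ : A → T} {x y : A} (h : τ x = τ y) :
    rh τ x y = pm τ (Equiv.swap x y) (swap_mem_sg h) := dif_pos h

theorem rh_ne {τ : A → T} {x y : A} (h : τ x ≠ τ y) :
    rh τ x y = SemidirectProduct.inl (rr (grt τ) x y) := dif_neg h

theorem pm_mul (τ : A → T) (σ ρ : Equiv.Perm A) (h : σ ∈ sg τ) (h' : ρ ∈ sg τ) :
    pm τ σ h * pm τ ρ h' = pm τ (σ * ρ) (mul_mem h h') := by
  unfold pm
  rw [← map_mul]
  rfl

theorem pm_congr (τ : A → T) {σ ρ : Equiv.Perm A} (h : σ ∈ sg τ) (e : σ = ρ) :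
    pm τ σ h = pm τ ρ (e ▸ h) := by
  subst e
  rfl

theorem pm_one (τ : A → T) : pm τ 1 (one_mem _) = 1 := by
  unfold pm
  exact map_one _

/-- equivariance -/
theorem pm_rh (τ : A → T) (σ : Equiv.Perm A) (h : σ ∈ sg τ) (x y : A) :
    pm τ σ h * rh τ x y = rh τ (σ x) (σ y) * pm τ σ h := by
  by_cases hxy : τ x = τ y
  · have hxy' : τ (σ x) = τ (σ y) := by rw [h x, h y, hxy]
    rw [rh_eq hxy, rh_eq hxy', pm_mul, pm_mul]
    refine pm_congr τ _ ?_
    rw [Equiv.mul_swap_eq_swap_mul]
  · have hxy' : τ (σ x) ≠ τ (σ y) := by rw [h x, h y]; exact hxy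
    rw [rh_ne hxy, rh_ne hxy']
    have h1 := SemidirectProduct.inl_aut (φ := sga τ) ⟨σ, h⟩ (rr (grt τ) x y)
    rw [sga_apply, sgm_rr] at h1
    rw [h1]
    unfold pm
    rw [mul_assoc, ← map_mul, inv_mul_cancel, map_one, mul_one]

theorem rh_inv (τ : A → T) (x y : A) : rh τ x y * rh τ y x = 1 := by
  by_cases h : τ x = τ y
  · rw [rh_eq h, rh_eq h.symm, pm_mul]
    have : Equiv.swap x y * Equiv.swap y x = 1 := by
      rw [Equiv.swap_comm y x, Equiv.swap_mul_self]
    rw [pm_congr τ _ this]
    exact pm_one τ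
  · rw [rh_ne h, rh_ne (Ne.symm h), ← map_mul, (rr_isYB (grt τ)).inv x y h, map_one]

theorem rh_yb (τ : A → T) : YB (rh τ) where
  inv x y _ := rh_inv τ x y
  comm x y z w h1 h2 h3 h4 h5 h6 := by
    by_cases hxy : τ x = τ y
    · rw [rh_eq hxy, pm_rh, Equiv.swap_apply_of_ne_of_ne h1.symm h3.symm,
        Equiv.swap_apply_of_ne_of_ne h2.symm h4.symm]
    · by_cases hzw : τ z = τ w
      · rw [rh_eq hzw, pm_rh, Equiv.swap_apply_of_ne_of_ne h1 h2,
          Equiv.swap_apply_of_ne_of_ne h3 h4]
      · rw [rh_ne hxy, rh_ne hzw, ← map_mul, ← map_mul,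
          (rr_isYB (grt τ)).comm x y z w hxy hzw h1 h2 h3 h4]
  yb x y z h1 h2 h3 := by
    by_cases hxy : τ x = τ y
    · rw [rh_eq hxy, pm_rh, Equiv.swap_apply_left, Equiv.swap_apply_of_ne_of_ne h2.symm h3.symm,
        mul_assoc, pm_rh, Equiv.swap_apply_right, Equiv.swap_apply_of_ne_of_ne h2.symm h3.symm,
        mul_assoc]
    · by_cases hyz : τ y = τ z
      · have hs := swap_mem_sg hyz
        have e1 : pm τ (Equiv.swap y z) hs * rh τ x z = rh τ x y * pm τ (Equiv.swap y z) hs := by
          rw [pm_rh, Equiv.swap_apply_right, Equiv.swap_apply_of_ne_of_ne h1 h2]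
        have e2 : pm τ (Equiv.swap y z) hs * rh τ x y = rh τ x z * pm τ (Equiv.swap y z) hs := by
          rw [pm_rh, Equiv.swap_apply_left, Equiv.swap_apply_of_ne_of_ne h1 h2]
        rw [rh_eq hyz, e1, mul_assoc, mul_assoc, e2]
      · by_cases hxz : τ x = τ z
        · have hs := swap_mem_sg hxz
          have e1 : pm τ (Equiv.swap x z) hs * rh τ y z = rh τ y x * pm τ (Equiv.swap x z) hs := by
            rw [pm_rh, Equiv.swap_apply_right, Equiv.swap_apply_of_ne_of_ne h1.symm h3]
          have e2 : pm τ (Equiv.swap x z) hs * rh τ x y = rh τ z y * pm τ (Equiv.swap x z) hs := by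
            rw [pm_rh, Equiv.swap_apply_left, Equiv.swap_apply_of_ne_of_ne h1.symm h3]
          rw [rh_eq hxz, mul_assoc, e1, mul_assoc, e2, ← mul_assoc, ← mul_assoc, rh_inv, rh_inv]
        · rw [rh_ne hxy, rh_ne hyz, rh_ne hxz, ← map_mul, ← map_mul, ← map_mul, ← map_mul,
            (rr_isYB (grt τ)).yb x y z hxy hxz hyz]

section relabel

variable [Fintype A] (τ : A → T)

/-- equivariance of the recut elements -/
theorem pm_RR (σ : Equiv.Perm A) (h : σ ∈ sg τ) {W W' : List A} (hp : W.Perm W') (hn : W.Nodup) :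
    pm τ σ h * RR (rh τ) W W' = RR (rh τ) (W.map σ) (W'.map σ) * pm τ σ h := by
  have h1 := RR_gen' (rh_yb τ) (MulAut.conj (pm τ σ h)).toMonoidHom
    (fun W => bw (rh τ) (W.map σ)) (by
      intro U V a b hn
      have h2 := bw_swap (rh_yb τ) (U.map σ) (V.map σ) (σ a) (σ b) (by
        have := hn.map σ.injective
        simpa using this)
      have h3 : (MulAut.conj (pm τ σ h)).toMonoidHom (rh τ a b) = rh τ (σ a) (σ b) := by
        change pm τ σ h * rh τ a b * (pm τ σ h)⁻¹ = _
        rw [pm_rh, mul_inv_cancel_right]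
      rw [h3]
      simpa using h2) hp hn
  have h2 : pm τ σ h * RR (rh τ) W W' * (pm τ σ h)⁻¹ = RR (rh τ) (W.map σ) (W'.map σ) := h1
  rw [← h2, inv_mul_cancel_right]

/-- the exchange of two tokens of the same type in a list -/
theorem RR_transp {x y : A} (hxy : x ≠ y) (ht : τ x = τ y) (V1 V2 : List A)
    (hn : (x :: V1 ++ y :: V2).Nodup) :
    RR (rh τ) (x :: V1 ++ y :: V2) (y :: V1 ++ x :: V2) =
      pm τ (Equiv.swap x y) (swap_mem_sg ht) := by
  have hr := rh_yb τ
  have hs := swap_mem_sg ht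
  have e0 : x :: V1 ++ y :: V2 = (x :: V1 ++ [y]) ++ V2 := by simp
  have e1 : y :: V1 ++ x :: V2 = (y :: V1 ++ [x]) ++ V2 := by simp
  have hn1 : (x :: V1 ++ [y]).Nodup := by
    rw [e0, List.nodup_append] at hn
    exact hn.1
  have hp1 : (x :: V1 ++ [y]).Perm (y :: V1 ++ [x]) := by
    have h1 : (x :: V1 ++ [y]).Perm (y :: (x :: V1)) := by
      have := List.perm_append_comm (l₁ := x :: V1) (l₂ := [y])
      simpa using this
    have h2 : (y :: V1 ++ [x]).Perm (x :: (y :: V1)) := by
      have := List.perm_append_comm (l₁ := y :: V1) (l₂ := [x])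
      simpa using this
    exact h1.trans ((List.Perm.swap x y V1).trans h2.symm)
  rw [e0, e1, RR_right hr hp1 V2 (by rw [← e0]; exact hn)]
  have hx : x ∉ V1 := by
    rw [List.cons_append, List.nodup_cons] at hn1
    exact fun h => hn1.1 (List.mem_append_left _ h)
  have hy : y ∉ V1 := by
    rw [List.nodup_append] at hn1
    exact fun h => hn1.2.2 y (List.mem_cons_of_mem _ h) y (by simp) rfl
  have hV : V1.map (Equiv.swap x y) = V1 := by
    have : V1.map (Equiv.swap x y) = V1.map id := by
      refine List.map_congr_left fun a ha => ?_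
      exact Equiv.swap_apply_of_ne_of_ne (fun h => hx (h ▸ ha)) (fun h => hy (h ▸ ha))
    rw [this, List.map_id]
  have p1 : (x :: V1).Perm (V1 ++ [x]) := by
    have := List.perm_append_comm (l₁ := [x]) (l₂ := V1)
    simpa using this
  have p2 : (y :: V1).Perm (V1 ++ [y]) := by
    have := List.perm_append_comm (l₁ := [y]) (l₂ := V1)
    simpa using this
  have hn2 : (V1 ++ x :: y :: []).Nodup := by
    refine (List.Perm.nodup_iff ?_).1 hn1
    have := List.Perm.append_right [y] p1
    simpa using this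
  have hn3 : (V1 ++ [y, x]).Nodup :=
    (List.Perm.nodup_iff (List.Perm.append_left V1 (List.Perm.swap y x []))).1 hn2
  -- the three steps
  have s1 : RR (rh τ) (x :: V1 ++ [y]) (V1 ++ [x] ++ [y]) = RR (rh τ) (x :: V1) (V1 ++ [x]) :=
    RR_right hr p1 [y] hn1
  have s2 : RR (rh τ) (V1 ++ x :: y :: []) (V1 ++ y :: x :: []) = rh τ x y :=
    RR_swap hr V1 [] x y hn2
  have hn4 : (V1 ++ [y] ++ [x]).Nodup := by simpa using hn3
  have s3 : RR (rh τ) (V1 ++ [y] ++ [x]) (y :: V1 ++ [x]) = RR (rh τ) (V1 ++ [y]) (y :: V1) :=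
    RR_right hr p2.symm [x] hn4
  have hn5 : (y :: V1).Nodup := by
    refine (List.Perm.nodup_iff p2).2 ?_
    exact (List.nodup_append.1 hn4).1
  have s4 := pm_RR τ (Equiv.swap x y) hs p2 hn5
  rw [List.map_cons, List.map_append, hV, Equiv.swap_apply_right, List.map_cons, List.map_nil,
    Equiv.swap_apply_right] at s4
  have e3 : V1 ++ [x] ++ [y] = V1 ++ x :: y :: [] := by simp
  have e4 : V1 ++ y :: x :: [] = V1 ++ [y] ++ [x] := by simp
  rw [← RR_trans (x :: V1 ++ [y]) (V1 ++ [x] ++ [y]) (y :: V1 ++ [x]), s1, e3,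
    ← RR_trans (V1 ++ x :: y :: []) (V1 ++ y :: x :: []) (y :: V1 ++ [x]), s2, e4, s3,
    rh_eq ht, ← RR_inv (y :: V1) (V1 ++ [y]), ← mul_assoc, ← s4, mul_inv_cancel_right]

/-- relabelling -/
theorem RR_relabel : ∀ (n : ℕ) (W : List A), W.length = n → W.Nodup → ∀ (σ : Equiv.Perm A)
    (h : σ ∈ sg τ), (∀ a, a ∉ W → σ a = a) → RR (rh τ) W (W.map σ) = (pm τ σ h)⁻¹ := by
  have hr := rh_yb τ
  intro n
  induction n with
  | zero =>
    intro W hW hn σ h hfix
    rw [List.length_eq_zero_iff] at hW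
    subst hW
    have : σ = 1 := Equiv.ext fun a => hfix a (by simp)
    subst this
    rw [List.map_nil, RR_self]
    have h1 : pm τ 1 h = 1 := pm_one τ
    rw [h1, inv_one]
  | succ n ih =>
    intro W hW hn σ h hfix
    obtain ⟨x, V, rfl⟩ : ∃ x V, W = x :: V := by
      cases W with
      | nil => simp at hW
      | cons x V => exact ⟨x, V, rfl⟩
    have hperm : ((x :: V).map σ).Perm (x :: V) := by
      rw [List.perm_ext_iff_of_nodup (hn.map σ.injective) hn]
      intro a
      rw [List.mem_map]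
      constructor
      · rintro ⟨b, hb, rfl⟩
        by_contra hcon
        have h1 := hfix _ hcon
        have h2 := σ.injective h1
        rw [h2] at hcon
        exact hcon hb
      · intro ha
        refine ⟨σ.symm a, ?_, σ.apply_symm_apply a⟩
        by_contra hcon
        have h1 := hfix _ hcon
        rw [σ.apply_symm_apply] at h1
        rw [← h1] at hcon
        exact hcon ha
    rw [List.length_cons, Nat.add_right_cancel_iff] at hW
    rw [List.nodup_cons] at hn
    by_cases hx : σ x = x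
    · have h1 : (x :: V).map σ = x :: V.map σ := by rw [List.map_cons, hx]
      rw [h1] at hperm
      rw [h1, RR_cons hr x (List.Perm.cons_inv hperm).symm (List.nodup_cons.2 hn)]
      refine ih V hW hn.2 σ h ?_
      intro a ha
      by_cases hax : a = x
      · rw [hax, hx]
      · exact hfix a (by simp [hax, ha])
    · obtain ⟨V1, V2, hV⟩ : ∃ V1 V2, V = V1 ++ σ x :: V2 := by
        have h1 : σ x ∈ x :: V := hperm.subset (by simp)
        rw [List.mem_cons] at h1
        rcases h1 with h1 | h1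
        · exact absurd h1 hx
        · exact List.append_of_mem h1
      have ht : τ x = τ (σ x) := (h x).symm
      have hs := swap_mem_sg ht
      have hxy : x ≠ σ x := Ne.symm hx
      have hx1 : x ∉ V := hn.1
      have hnV : (V1 ++ σ x :: V2).Nodup := hV ▸ hn.2
      have hy1 : σ x ∉ V1 ∧ σ x ∉ V2 := by
        have := (List.perm_middle (a := σ x) (l₁ := V1) (l₂ := V2)).nodup_iff.1 hnV
        rw [List.nodup_cons, List.mem_append, not_or] at this
        exact this.1
      have hx2 : x ∉ V1 ∧ x ∉ V2 := by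
        rw [hV] at hx1
        simp only [List.mem_append, List.mem_cons, not_or] at hx1
        exact ⟨hx1.1, hx1.2.2⟩
      have hfixl : ∀ l : List A, x ∉ l → σ x ∉ l → l.map (Equiv.swap x (σ x)) = l := by
        intro l h1 h2
        have : l.map (Equiv.swap x (σ x)) = l.map id := by
          refine List.map_congr_left fun a ha => ?_
          exact Equiv.swap_apply_of_ne_of_ne (fun h => h1 (h ▸ ha)) (fun h => h2 (h ▸ ha))
        rw [this, List.map_id]
      have hn0 : (x :: V1 ++ σ x :: V2).Nodup := by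
        rw [List.cons_append, List.nodup_cons]
        exact ⟨hV ▸ hx1, hnV⟩
      have t1 := RR_transp τ hxy ht V1 V2 hn0
      -- the second step
      let ρ : Equiv.Perm A := σ * Equiv.swap x (σ x)
      have hρ : ρ ∈ sg τ := mul_mem h hs
      have hρy : ρ (σ x) = σ x := by
        change σ (Equiv.swap x (σ x) (σ x)) = σ x
        rw [Equiv.swap_apply_right]
      have hρx : ρ x = σ (σ x) := by
        change σ (Equiv.swap x (σ x) x) = σ (σ x)
        rw [Equiv.swap_apply_left]
      have hρo : ∀ a, a ≠ x → a ≠ σ x → ρ a = σ a := by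
        intro a h1 h2
        change σ (Equiv.swap x (σ x) a) = σ a
        rw [Equiv.swap_apply_of_ne_of_ne h1 h2]
      have hρl : ∀ l : List A, x ∉ l → σ x ∉ l → l.map ρ = l.map σ := by
        intro l h1 h2
        refine List.map_congr_left fun a ha => ?_
        exact hρo a (fun h => h1 (h ▸ ha)) (fun h => h2 (h ▸ ha))
      have hmap : (x :: V).map σ = σ x :: (V1 ++ x :: V2).map ρ := by
        rw [List.map_cons, hV, List.map_append, List.map_append, List.map_cons, List.map_cons,
          hρl V1 hx2.1 hy1.1, hρl V2 hx2.2 hy1.2, hρx]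
      have hnV' : (V1 ++ x :: V2).Nodup := by
        have h1 := (List.perm_middle (a := σ x) (l₁ := V1) (l₂ := V2)).nodup_iff.1 hnV
        rw [List.nodup_cons] at h1
        refine (List.perm_middle (a := x) (l₁ := V1) (l₂ := V2)).nodup_iff.2 ?_
        rw [List.nodup_cons, List.mem_append, not_or]
        exact ⟨hx2, h1.2⟩
      have hlen : (V1 ++ x :: V2).length = n := by
        rw [← hW, hV]
        simp
      have hfix' : ∀ a, a ∉ V1 ++ x :: V2 → ρ a = a := by
        intro a ha
        simp only [List.mem_append, List.mem_cons, not_or] at ha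
        by_cases hay : a = σ x
        · rw [hay, hρy]
        · rw [hρo a ha.2.1 hay]
          refine hfix a ?_
          rw [hV]
          simp only [List.mem_append, List.mem_cons, not_or]
          exact ⟨ha.2.1, ha.1, hay, ha.2.2⟩
      have t2 := ih (V1 ++ x :: V2) hlen hnV' ρ hρ hfix'
      have hperm2 : (V1 ++ x :: V2).Perm ((V1 ++ x :: V2).map ρ) := by
        have h1 : (σ x :: (V1 ++ x :: V2).map ρ).Perm (x :: V) := by
          rw [← hmap]
          exact hperm
        have h2 : (x :: V).Perm (σ x :: (V1 ++ x :: V2)) := by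
          rw [hV]
          have h3 : (x :: (V1 ++ σ x :: V2)).Perm (x :: σ x :: (V1 ++ V2)) :=
            List.Perm.cons x List.perm_middle
          have h4 : (σ x :: (V1 ++ x :: V2)).Perm (σ x :: x :: (V1 ++ V2)) :=
            List.Perm.cons (σ x) List.perm_middle
          exact h3.trans ((List.Perm.swap _ _ _).trans h4.symm)
        exact (List.Perm.cons_inv (h1.trans h2)).symm
      have hyV' : σ x ∉ V1 ++ x :: V2 := by
        simp only [List.mem_append, List.mem_cons, not_or]
        exact ⟨hy1.1, hx, hy1.2⟩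
      have t3 : RR (rh τ) (σ x :: (V1 ++ x :: V2)) (σ x :: (V1 ++ x :: V2).map ρ) =
          RR (rh τ) (V1 ++ x :: V2) ((V1 ++ x :: V2).map ρ) :=
        RR_cons hr (σ x) hperm2 (List.nodup_cons.2 ⟨hyV', hnV'⟩)
      have e1 : x :: V = x :: V1 ++ σ x :: V2 := by rw [hV]; rfl
      have e2 : σ x :: (V1 ++ x :: V2) = σ x :: V1 ++ x :: V2 := rfl
      rw [hmap, ← RR_trans (x :: V) (σ x :: (V1 ++ x :: V2)) _, t3, t2, e1, e2, t1]
      have h5 : pm τ ρ hρ = pm τ σ h * pm τ (Equiv.swap x (σ x)) hs := (pm_mul τ _ _ h hs).symm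
      have h6 : pm τ (Equiv.swap x (σ x)) hs * pm τ (Equiv.swap x (σ x)) hs = 1 := by
        rw [pm_mul, pm_congr τ _ (Equiv.swap_mul_self x (σ x))]
        exact pm_one τ
      rw [h5, mul_inv_rev, ← mul_assoc]
      have h7 : (pm τ (Equiv.swap x (σ x)) hs)⁻¹ = pm τ (Equiv.swap x (σ x)) hs :=
        inv_eq_of_mul_eq_one_left h6
      rw [h7, h6, one_mul]

end relabel

end Pool.Agent.H54.IX
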