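import Pool.Agent.H65.IX.Lst

/-!
# Adapted lists: inverses and compositions
-/

set_option autoImplicit false

open Classical

namespace Pool.Agent.H54.IX

variable {I : Type} (len : I → ℝ)

theorem Adapted.symm {h : Equiv.Perm ℝ} {W W' : List I} (hA : Adapted len h W W')
    (hp : W.Perm W') : Adapted len h.symm W' W := by
  intro i hi t h0 h1
  rw [← hA i (hp.symm.subset hi) t h0 h1, Equiv.symm_apply_apply]

theorem Adapted.comp {g h : Equiv.Perm ℝ} {W W' W'' : List I} (hA : Adapted len h W W')
    (hB : Adapted len g W' W'') (hp : W.Perm W') : Adapted len (g * h : Equiv.Perm ℝ) W W'' := by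
  intro i hi t h0 h1
  rw [Equiv.Perm.mul_apply, hA i hi t h0 h1, hB i (hp.subset hi) t h0 h1]

end Pool.Agent.H54.IX
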