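import Pool.Agent.H54.IX.Ref
import Pool.Agent.H54.IX.Pre
import Pool.Agent.H65.IX.Lst
import Pool.Agent.H65.IX.Bas

/-!
# Levels

A level is a finite set of lengths with unique sums and a list of tokens with these lengths.
-/

set_option autoImplicit false

open Classical

namespace Pool.Agent.H54.IX

/-- `x` is a sum of elements of `M` -/
def Rep (M : Finset ℝ) (x : ℝ) : Prop := ∃ l : List ℝ, (∀ y ∈ l, y ∈ M) ∧ l.sum = x

theorem Rep.of_mem {M : Finset ℝ} {x : ℝ} (h : x ∈ M) : Rep M x := ⟨[x], by simpa using h, by simp⟩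

theorem Rep.trans {M M' : Finset ℝ} {x : ℝ} (h : Rep M x) (hM : ∀ y ∈ M, Rep M' y) : Rep M' x := by
  obtain ⟨l, hl, rfl⟩ := h
  induction l with
  | nil => exact ⟨[], by simp, by simp⟩
  | cons y l ih =>
    obtain ⟨l1, h1, h2⟩ := hM y (hl y (by simp))
    obtain ⟨l2, h3, h4⟩ := ih (fun z hz => hl z (by simp [hz]))
    refine ⟨l1 ++ l2, ?_, ?_⟩
    · intro z hz
      rcases List.mem_append.1 hz with hz | hz
      · exact h1 z hz
      · exact h3 z hz
    · rw [List.sum_append, h2, h4, List.sum_cons]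

/-- tokens of a family of lists -/
abbrev Tok {A : Type} (ω : A → List ℝ) : Type := Σ a : A, Fin (ω a).length

/-- their lengths -/
def tlam {A : Type} (ω : A → List ℝ) (p : Tok ω) : ℝ := (ω p.1).get p.2

/-- the lists of tokens -/
def tw {A : Type} (ω : A → List ℝ) (a : A) : List (Tok ω) :=
  (List.finRange (ω a).length).map (Sigma.mk a)

theorem tw_map {A : Type} (ω : A → List ℝ) (a : A) : (tw ω a).map (tlam ω) = ω a := by
  unfold tw
  rw [List.map_map]
  refine List.ext_getElem (by simp) fun i h1 h2 => ?_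
  simp [tlam]

theorem tw_mem {A : Type} (ω : A → List ℝ) (a : A) (p : Tok ω) : p ∈ tw ω a ↔ p.1 = a := by
  unfold tw
  rw [List.mem_map]
  constructor
  · rintro ⟨i, -, rfl⟩
    rfl
  · rintro rfl
    exact ⟨p.2, List.mem_finRange _, rfl⟩

theorem tw_refn {A T : Type} (ω : A → List ℝ) (τ : A → T) (h : ∀ a b, τ a = τ b → ω a = ω b) :
    Refn τ (tlam ω) (tw ω) where
  nodup a := (List.nodup_finRange _).map (fun i j hij => eq_of_heq (Sigma.ext_iff.1 hij).2)
  disj a b p ha hb := by
    rw [tw_mem] at ha hb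
    rw [← ha, ← hb]
  cover p := ⟨p.1, (tw_mem ω p.1 p).2 rfl⟩
  typ a b hab := by rw [tw_map, tw_map, h a b hab]

/-- a level -/
structure Lev (T : ℝ) where
  A : Type
  fin : Fintype A
  M : Finset ℝ
  posM : ∀ x ∈ M, 0 < x
  uniq : Uniq (M : Set ℝ)
  lam : A → ℝ
  mem : ∀ a, lam a ∈ M
  W0 : List A
  nodup : W0.Nodup
  full : ∀ a, a ∈ W0
  total : (W0.map lam).sum = T

attribute [instance] Lev.fin

theorem Lev.pos {T : ℝ} (L : Lev T) (a : L.A) : 0 < L.lam a := L.posM _ (L.mem a)

/-- a finer level -/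
theorem exists_step {T : ℝ} (L : Lev T) (X : Finset ℝ) :
    ∃ (L' : Lev T) (w : L.A → List L'.A), Refn L.lam L'.lam w ∧ L'.W0 = L.W0.flatMap w ∧
      (∀ a, ((w a).map L'.lam).sum = L.lam a) ∧ (∀ x ∈ X, 0 < x → Rep L'.M x) ∧
      ∀ x ∈ L.M, Rep L'.M x := by
  obtain ⟨M', h1, h2, h3⟩ := Pool.Agent.H65.IX.exists_basis_list
    (L.M ∪ X.filter (fun x => 0 < x)) (by
      intro x hx
      rcases Finset.mem_union.1 hx with hx | hx
      · exact L.posM x hx
      · exact (Finset.mem_filter.1 hx).2)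
  have hrep : ∀ x ∈ L.M, Rep M' x := fun x hx => h3 x (Finset.mem_union_left _ hx)
  have hch : ∀ x : ℝ, ∃ l : List ℝ, x ∈ L.M → (∀ y ∈ l, y ∈ M') ∧ l.sum = x := by
    intro x
    by_cases hx : x ∈ L.M
    · obtain ⟨l, hl⟩ := hrep x hx
      exact ⟨l, fun _ => hl⟩
    · exact ⟨[], fun h => absurd h hx⟩
  choose rep hrep' using hch
  let ω : L.A → List ℝ := fun a => rep (L.lam a)
  have href : Refn L.lam (tlam ω) (tw ω) := tw_refn ω L.lam (fun a b hab => by
    change rep (L.lam a) = rep (L.lam b)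
    rw [hab])
  refine ⟨{
    A := Tok ω
    fin := inferInstance
    M := M'
    posM := h1
    uniq := uniq_of_indep M' h2
    lam := tlam ω
    mem := fun p => (hrep' (L.lam p.1) (L.mem p.1)).1 _ (List.get_mem _ _)
    W0 := L.W0.flatMap (tw ω)
    nodup := href.flatMap_nodup L.nodup
    full := href.flatMap_full L.full
    total := ?_ }, tw ω, href, rfl, ?_, ?_, hrep⟩
  · have h4 : ∀ W : List L.A, ((W.flatMap (tw ω)).map (tlam ω)).sum = (W.map L.lam).sum := by
      intro W
      induction W with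
      | nil => rfl
      | cons a W ih =>
        rw [List.flatMap_cons, List.map_append, List.sum_append, ih, tw_map, List.map_cons,
          List.sum_cons, (hrep' (L.lam a) (L.mem a)).2]
    rw [h4, L.total]
  · intro a
    change ((tw ω a).map (tlam ω)).sum = L.lam a
    rw [tw_map]
    exact (hrep' (L.lam a) (L.mem a)).2
  · intro x hx hx0
    exact h3 x (Finset.mem_union_right _ (Finset.mem_filter.2 ⟨hx, hx0⟩))

/-- a first level in which the elements of `X` are sums -/
theorem exists_first {T : ℝ} (hT : 0 < T) (X : Finset ℝ) :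
    ∃ L : Lev T, ∀ x ∈ X, 0 < x → Rep L.M x := by
  let L0 : Lev T := {
    A := Unit
    fin := inferInstance
    M := {T}
    posM := fun x hx => by rw [Finset.mem_singleton] at hx; rw [hx]; exact hT
    uniq := by
      intro l l' h h' hs
      have key : ∀ l : List ℝ, (∀ x ∈ l, x ∈ (({T} : Finset ℝ) : Set ℝ)) →
          l = List.replicate l.length T := by
        intro l hl
        refine List.eq_replicate_iff.2 ⟨rfl, fun x hx => ?_⟩
        simpa using hl x hx
      have h1 := key l h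
      have h2 := key l' h'
      rw [h1, h2, List.sum_replicate, List.sum_replicate, nsmul_eq_mul, nsmul_eq_mul] at hs
      have h3 := mul_right_cancel₀ hT.ne' hs
      have h4 : l.length = l'.length := by exact_mod_cast h3
      rw [h1, h2, h4]
    lam := fun _ => T
    mem := fun _ => Finset.mem_singleton_self T
    W0 := [()]
    nodup := by simp
    full := by simp
    total := by simp }
  obtain ⟨L', w, h1, h2, h3, h4, h5⟩ := exists_step L0 X
  exact ⟨L', h4⟩

/-- lists with prescribed left endpoints -/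
theorem exists_U {T : ℝ} (L : Lev T) (P : Finset ℝ) (h0 : (0 : ℝ) ∈ P)
    (hP : ∀ p ∈ P, 0 ≤ p ∧ p < T)
    (hrep : ∀ x ∈ P, ∀ y, (y ∈ P ∨ y = T) → x < y → Rep L.M (y - x)) :
    ∃ U : List L.A, U.Perm L.W0 ∧ ∀ x ∈ P, ∃ a ∈ U, pre L.lam U a = x := by
  obtain ⟨W, len, hn, hW, hlen, hs⟩ := exists_coarse T P h0 hP
  obtain ⟨B, hB, hB'⟩ := exists_fill L.uniq L.lam L.mem L.W0 len W hn (by
    intro i hi
    obtain ⟨h1, h2, -, -⟩ := hlen i hi
    have h3 := hrep i ((hW i).1 hi) (i + len i) h2 (by linarith)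
    rw [add_sub_cancel_left] at h3
    exact h3) (by rw [hs, L.total])
  refine ⟨W.flatMap B, hB, fun x hx => ?_⟩
  have hx' : x ∈ W := (hW x).2 hx
  have h4 : B x ≠ [] := by
    intro h5
    have h6 := hB' x hx'
    rw [h5] at h6
    have h7 := (hlen x hx').1
    simp at h6
    linarith
  obtain ⟨a, V, hV⟩ := List.exists_cons_of_ne_nil h4
  have ha : a ∈ B x := by rw [hV]; simp
  refine ⟨a, List.mem_flatMap.2 ⟨x, hx', ha⟩, ?_⟩
  rw [pre_flatMap B W hB' (hB.nodup_iff.2 L.nodup) x hx' a ha, hV, pre_self, add_zero]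
  exact (hlen x hx').2.2.2

end Pool.Agent.H54.IX
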