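import Pool.Agent.H54.IX.Sta

/-!
# The main theorem
-/

set_option autoImplicit false

open Classical

namespace Pool.Agent.H54.IX

open Pool.Agent.H98.FJ

variable {T : ℝ} {S : Type} {W W' : S → List ℝ} {len : S → ℝ → ℝ}

/-- the action of the group of a stage on the points gives the permutation -/
theorem Stage.ev_form (h : S → Equiv.Perm ℝ) (hg : ∀ s, Gen T (h s) (W s) (W' s) (len s))
    (st : Stage T W W' len) (ev : GT st.L.lam →* Equiv.Perm (Pt st.L.lam))
    (hev : ∀ U U' : List st.L.A, U.Perm U' → U.Nodup → ∀ p : Pt st.L.lam, p.1.1 ∈ U →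
      pos st.L.lam U (ev (RR (rh st.L.lam) U U') p) = pos st.L.lam U' p)
    (p : FreeGroup S) : ∀ q : Pt st.L.lam, pos st.L.lam st.L.W0 (ev (st.φ p) q) =
      (FreeGroup.lift h p : Equiv.Perm ℝ) (pos st.L.lam st.L.W0 q) := by
  induction p using FreeGroup.induction_on with
  | C1 =>
    intro q
    rw [map_one, map_one, map_one]
    rfl
  | of s =>
    intro q
    have hU := st.perm s
    have hUn := hU.nodup_iff.2 st.L.nodup
    have hU' : ((W' s).flatMap (st.B s)).Perm st.L.W0 :=
      (List.Perm.flatMap_right (st.B s) (hg s).perm).symm.trans hU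
    have hA : Adapted st.L.lam (h s) ((W s).flatMap (st.B s)) ((W' s).flatMap (st.B s)) :=
      (hg s).adapted.flatMap (hg s).perm (hg s).nodup (st.B s) (st.sums s) st.L.pos hUn
    change pos st.L.lam st.L.W0 (ev (st.φ (FreeGroup.of s)) q) =
      (FreeGroup.lift h (FreeGroup.of s) : Equiv.Perm ℝ) _
    rw [st.form s, map_mul, Equiv.Perm.mul_apply, hev _ _ hU'.symm st.L.nodup _ (st.L.full _),
      FreeGroup.lift_apply_of]
    have h1 := hev _ _ hU hUn q (hU.symm.subset (st.L.full _))
    rw [← h1]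
    exact (hA _ (hU.symm.subset (st.L.full _)) _
      (ev (RR (rh st.L.lam) ((W s).flatMap (st.B s)) st.L.W0) q).2.1
      (ev (RR (rh st.L.lam) ((W s).flatMap (st.B s)) st.L.W0) q).2.2).symm
  | inv_of s ih =>
    intro q
    have h1 := ih ((ev (st.φ (FreeGroup.of s)))⁻¹ q)
    change pos st.L.lam st.L.W0 (ev (st.φ (FreeGroup.of s)⁻¹) q) =
      (FreeGroup.lift h (FreeGroup.of s)⁻¹ : Equiv.Perm ℝ) _
    rw [map_inv, map_inv, map_inv]
    have h2 : ev (st.φ (FreeGroup.of s)) ((ev (st.φ (FreeGroup.of s)))⁻¹ q) = q :=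
      Equiv.apply_symm_apply _ q
    rw [h2] at h1
    rw [h1]
    exact (Equiv.symm_apply_apply _ _).symm
  | mul p q hp hq =>
    intro x
    rw [map_mul, map_mul, map_mul, Equiv.Perm.mul_apply, Equiv.Perm.mul_apply, hp, hq]

/-- the map is bijective on `[0,T)` -/
theorem lift_range (h : S → Equiv.Perm ℝ) (hfix : ∀ s x, ¬ (0 ≤ x ∧ x < T) → h s x = x)
    (p : FreeGroup S) : ∀ x, ¬ (0 ≤ x ∧ x < T) → (FreeGroup.lift h p : Equiv.Perm ℝ) x = x := by
  induction p using FreeGroup.induction_on with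
  | C1 => intro x _; rw [map_one]; rfl
  | of s =>
    intro x hx
    rw [FreeGroup.lift_apply_of, hfix s x hx]
  | inv_of s ih =>
    intro x hx
    rw [map_inv]
    exact (Equiv.symm_apply_eq _).2 (ih x hx).symm
  | mul p q hp hq =>
    intro x hx
    rw [map_mul, Equiv.Perm.mul_apply, hq x hx, hp x hx]

theorem orb_range (h : S → Equiv.Perm ℝ) (hfix : ∀ s x, ¬ (0 ≤ x ∧ x < T) → h s x = x)
    (hg : ∀ s, Gen T (h s) (W s) (W' s) (len s)) : ∀ x ∈ Orb h W, 0 ≤ x ∧ x < T := by
  rintro x ⟨g, s, i, hi, rfl⟩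
  by_contra hcon
  have h1 := lift_range h hfix g _ hcon
  have h2 := (FreeGroup.lift h g : Equiv.Perm ℝ).injective h1
  rw [h2] at hcon
  exact hcon ((hg s).range i hi)

/-- **The main theorem for finitely many generators.** -/
theorem main_fin {C : (G : Type) → [Group G] → Prop} (hC : Inherits C) (hE : Extension C)
    (hT : 0 < T) [Finite S] (h : S → Equiv.Perm ℝ) (hh : ∀ s, ∃ P, Pw T P (h s)) :
    C (FreeGroup.lift h).range := by
  -- the lists of the generators
  have hl : ∀ s, ∃ (W W' : List ℝ) (len : ℝ → ℝ), Gen T (h s) W W' len := by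
    intro s
    obtain ⟨P, hP⟩ := hh s
    obtain ⟨Q, W, W', len, -, h1, h2, h3, h4, h5, h6, h7⟩ := exists_lists T hT P (h s) hP
    exact ⟨W, W', len, h2, h3, fun i hi => (h5 i hi).1, fun i hi => (h5 i hi).2.2,
      fun i hi => h1 i ((h4 i).1 hi), h6, h7⟩
  choose W W' len hg using hl
  have hfix : ∀ s x, ¬ (0 ≤ x ∧ x < T) → h s x = x := fun s x hx => (hh s).choose_spec.1 x hx
  have hW : ∀ s, (W s).Perm (W' s) := fun s => (hg s).perm
  have hcount : Countable S := inferInstance
  -- the differences of the orbit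
  let O : Set ℝ := Orb h W ∪ {0, T}
  have hO : O.Countable := by
    refine Set.Countable.union ?_ (Set.toFinite _).countable
    have h1 : Orb h W ⊆ ⋃ (g : FreeGroup S), ⋃ (s : S),
        (fun i => (FreeGroup.lift h g : Equiv.Perm ℝ) i) '' {i | i ∈ W s} := by
      rintro x ⟨g, s, i, hi, rfl⟩
      exact Set.mem_iUnion.2 ⟨g, Set.mem_iUnion.2 ⟨s, i, hi, rfl⟩⟩
    have hcf : Countable (FreeGroup S) := by
      unfold FreeGroup
      infer_instance
    refine Set.Countable.mono h1 ?_
    refine Set.countable_iUnion fun g => Set.countable_iUnion fun s => ?_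
    exact (List.finite_toSet (W s)).countable.image _
  obtain ⟨e, he⟩ : ∃ e : ℕ → ℝ, Set.image2 (fun x y => y - x) O O ⊆ Set.range e := by
    have h1 : (Set.image2 (fun x y => y - x) O O).Countable := hO.image2 hO _
    have h2 : (Set.image2 (fun x y : ℝ => y - x) O O).Nonempty :=
      ⟨0 - 0, 0, by simp [O], 0, by simp [O], rfl⟩
    obtain ⟨e, he⟩ := h1.exists_eq_range h2
    exact ⟨e, he.le⟩
  -- the stages
  obtain ⟨st0⟩ := exists_stage (len := len) hT h hg
  choose nx Ψ hΨ hX hM using fun (st : Stage T W W' len) (X : Finset ℝ) => st.next hW X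
  let st : ℕ → Stage T W W' len := fun n => Nat.rec st0 (fun n st => nx st {e n}) n
  have hst : ∀ n, st (n + 1) = nx (st n) {e n} := fun n => rfl
  have hker : ∀ n m, n ≤ m → (st n).φ.ker ≤ (st m).φ.ker := by
    intro n m hnm
    induction m, hnm using Nat.le_induction with
    | base => exact le_rfl
    | succ m _ ih =>
      refine ih.trans ?_
      intro x hx
      rw [MonoidHom.mem_ker] at hx ⊢
      rw [hst, hΨ, MonoidHom.comp_apply, hx, map_one]
  have hrep : ∀ n m, n ≤ m → ∀ x, Rep (st n).L.M x → Rep (st m).L.M x := by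
    intro n m hnm
    induction m, hnm using Nat.le_induction with
    | base => exact fun x hx => hx
    | succ m _ ih =>
      intro x hx
      rw [hst]
      exact (ih x hx).trans (hM (st m) {e m})
  have hdiff : ∀ x ∈ O, ∀ y ∈ O, x < y → ∃ n, Rep (st n).L.M (y - x) := by
    intro x hx y hy hxy
    obtain ⟨n, hn⟩ := he ⟨x, hx, y, hy, rfl⟩
    refine ⟨n + 1, ?_⟩
    rw [hst]
    refine hX (st n) {e n} _ ?_ (by linarith)
    rw [hn, Finset.mem_singleton]
  refine hC.quot (FreeGroup.lift h).rangeRestrict (MonoidHom.rangeRestrict_surjective _)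
    (fun n => (st n).φ.ker) hker ?_ ?_ ?_
  · -- the kernels are in the kernel
    intro n p hp
    rw [MonoidHom.mem_ker] at hp
    obtain ⟨ev, hev⟩ := exists_ev (lam := (st n).L.lam) (st n).L.pos
    rw [MonoidHom.mem_ker]
    refine Subtype.ext (Equiv.ext fun x => ?_)
    change (FreeGroup.lift h p : Equiv.Perm ℝ) x = x
    by_cases hx : 0 ≤ x ∧ x < T
    · obtain ⟨q, -, hq⟩ := pos_surj (st n).L.lam (st n).L.W0 (st n).L.nodup x hx.1
        (by rw [(st n).L.total]; exact hx.2)
      have h1 := (st n).ev_form h hg ev hev p q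
      rw [hp, map_one] at h1
      rw [← hq, ← h1]
      rfl
    · exact lift_range h hfix p x hx
  · -- the kernel is in the union
    intro p hp
    have hp' : FreeGroup.lift h p = 1 := by
      have := congrArg Subtype.val hp
      exact this
    obtain ⟨P, hP, hgood⟩ := good_all h hg p
    obtain ⟨P', hP'def⟩ : ∃ P' : Finset ℝ, P' = insert 0 P := ⟨_, rfl⟩
    have hP'O : ∀ x ∈ P', x ∈ O := by
      intro x hx
      rw [hP'def, Finset.mem_insert] at hx
      rcases hx with rfl | hx
      · exact Or.inr (by simp)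
      · exact Or.inl (hP x hx)
    have hP'r : ∀ x ∈ P', 0 ≤ x ∧ x < T := by
      intro x hx
      rw [hP'def, Finset.mem_insert] at hx
      rcases hx with rfl | hx
      · exact ⟨le_rfl, hT⟩
      · exact orb_range h hfix hg x (hP x hx)
    have hex : ∃ n, ∀ x ∈ P', ∀ y ∈ insert T P', x < y → Rep (st n).L.M (y - x) := by
      have h1 : ∀ z : ℝ × ℝ, ∃ n, z ∈ P' ×ˢ insert T P' → z.1 < z.2 →
          Rep (st n).L.M (z.2 - z.1) := by
        rintro ⟨x, y⟩
        by_cases hxy : x ∈ O ∧ y ∈ O ∧ x < y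
        · obtain ⟨n, hn⟩ := hdiff x hxy.1 y hxy.2.1 hxy.2.2
          exact ⟨n, fun _ _ => hn⟩
        · refine ⟨0, fun hz h2 => absurd ?_ hxy⟩
          rw [Finset.mem_product, Finset.mem_insert] at hz
          refine ⟨hP'O x hz.1, ?_, h2⟩
          rcases hz.2 with h3 | h3
          · change y = T at h3
            rw [h3]
            exact Or.inr (by simp)
          · exact hP'O y h3
      choose f hf using h1
      refine ⟨(P' ×ˢ insert T P').sup f, ?_⟩
      intro x hx y hy hxy
      have hz : (x, y) ∈ P' ×ˢ insert T P' := Finset.mem_product.2 ⟨hx, hy⟩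
      exact hrep _ _ (Finset.le_sup hz) _ (hf (x, y) hz hxy)
    obtain ⟨n, hn⟩ := hex
    refine ⟨n, ?_⟩
    obtain ⟨U, hU, hU'⟩ := exists_U (st n).L P' (by rw [hP'def]; simp) hP'r (by
      intro x hx y hy hxy
      refine hn x hx y ?_ hxy
      rw [Finset.mem_insert]
      exact hy.symm)
    obtain ⟨U', hU'p, hA, hform⟩ := hgood (st n) U hU (by
      intro x hx
      exact hU' x (by rw [hP'def]; exact Finset.mem_insert_of_mem hx))
    have hUU' : U = U' := by
      refine eq_of_pre (st n).L.pos U U' (hU.trans hU'p.symm) (hU.nodup_iff.2 (st n).L.nodup) ?_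
      intro a ha
      have h1 := hA a ha 0 le_rfl ((st n).L.pos a)
      rw [add_zero, add_zero, hp'] at h1
      exact h1
    rw [MonoidHom.mem_ker, hform, ← hUU', RR_trans, RR_self]
  · -- the quotients
    intro n
    exact hC.of_injective (QuotientGroup.kerLift (st n).φ)
      (QuotientGroup.kerLift_injective (st n).φ) (gt_mem hC hE _)

end Pool.Agent.H54.IX
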