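import Pool.Agent.H54.IX.TG

/-!
# The groups `TG Δ` of finite graphs are in the class

Let `xy` be an edge of `Δ`, `Δb = Δ - xy`, `Δf` the graph without the edges at `x` and `Δ₁` the subgraph of `Δf` without
the edges `yz` for which `z` is not adjacent to `x` (this is the contraction `Δ/xy`, with the new vertex `y`). `TG Δ` is
the HNN extension of `TG Δb` with stable letter `rr x y` which conjugates the image of the cabling
`rr y z ↦ rr x z * rr y z` of `TG Δ₁` to the image of the cabling `rr y z ↦ rr y z * rr x z`. The cablings are injective,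
because followed by the map which forgets `x` they are the map `TG Δ₁ → TG Δf` of a subgraph, which is injective by
induction. The map `TG Δ → TG Δf` which forgets `x` is injective on the associated subgroup.
-/

set_option autoImplicit false

open Classical

namespace Pool.Agent.H54.IX

open Pool.Agent.H98.FJ HNNExtension

variable {A : Type}

/-- the graph without the edge `xy` -/
def delE (Δ : SimpleGraph A) (x y : A) : SimpleGraph A where
  Adj a b := Δ.Adj a b ∧ ¬ (a = x ∧ b = y) ∧ ¬ (a = y ∧ b = x)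
  symm := ⟨fun _ _ h => ⟨h.1.symm, fun h1 => h.2.2 ⟨h1.2, h1.1⟩, fun h1 => h.2.1 ⟨h1.2, h1.1⟩⟩⟩
  loopless := ⟨fun _ h => h.1.ne rfl⟩

theorem delE_le (Δ : SimpleGraph A) (x y : A) : delE Δ x y ≤ Δ := fun _ _ h => h.1

/-- the contracted graph; the new vertex is `y` -/
def ctr (Δ : SimpleGraph A) (x y : A) : SimpleGraph A where
  Adj a b := Δ.Adj a b ∧ a ≠ x ∧ b ≠ x ∧ (a = y → Δ.Adj x b) ∧ (b = y → Δ.Adj x a)
  symm := ⟨fun _ _ h => ⟨h.1.symm, h.2.2.1, h.2.1, h.2.2.2.2, h.2.2.2.1⟩⟩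
  loopless := ⟨fun _ h => h.1.ne rfl⟩

theorem ctr_le (Δ : SimpleGraph A) (x y : A) : ctr Δ x y ≤ del Δ x := fun _ _ h =>
  ⟨h.1, h.2.1, h.2.2.1⟩

section step

variable (Δ : SimpleGraph A) (x y : A) (hxy : Δ.Adj x y)

include hxy in
theorem k1_isYB : IsYB (ctr Δ x y) (cab (rr (delE Δ x y)) (ctr Δ x y) y x y) := by
  refine cab_isYB (rr_isYB _) hxy.ne ?_ ?_ ?_
  · intro a b h ha hb
    exact ⟨h.1, fun h1 => hb h1.2, fun h1 => ha h1.1⟩
  · intro b h
    refine ⟨⟨h.2.2.2.1 rfl, fun h1 => h.1.ne h1.2.symm, fun h1 => hxy.ne h1.1⟩,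
      ⟨h.1, fun h1 => hxy.ne h1.1.symm, fun h1 => h.2.2.1 h1.2⟩⟩
  · intro a b h ha
    exact ⟨h.2.1, ha⟩

include hxy in
theorem k2_isYB : IsYB (ctr Δ x y) (cab (rr (delE Δ x y)) (ctr Δ x y) y y x) := by
  refine cab_isYB (rr_isYB _) hxy.ne.symm ?_ ?_ ?_
  · intro a b h ha hb
    exact ⟨h.1, fun h1 => hb h1.2, fun h1 => ha h1.1⟩
  · intro b h
    refine ⟨⟨h.1, fun h1 => hxy.ne h1.1.symm, fun h1 => h.2.2.1 h1.2⟩,
      ⟨h.2.2.2.1 rfl, fun h1 => h.1.ne h1.2.symm, fun h1 => hxy.ne h1.1⟩⟩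
  · intro a b h ha
    exact ⟨ha, h.2.1⟩

/-- the cablings -/
noncomputable def k1 : TG (ctr Δ x y) →* TG (delE Δ x y) := lft (k1_isYB Δ x y hxy)

noncomputable def k2 : TG (ctr Δ x y) →* TG (delE Δ x y) := lft (k2_isYB Δ x y hxy)

/-- forgetting `x` -/
def fgb : TG (delE Δ x y) →* TG (del Δ x) :=
  lft (forget_isYB (Δ := delE Δ x y) (Δ' := del Δ x) x (fun a b => by
    constructor
    · rintro ⟨h1, h2, h3⟩
      exact ⟨⟨h1, fun h => h2 h.1, fun h => h3 h.2⟩, h2, h3⟩
    · rintro ⟨⟨h1, -, -⟩, h2, h3⟩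
      exact ⟨h1, h2, h3⟩))

def fg : TG Δ →* TG (del Δ x) :=
  lft (forget_isYB (Δ := Δ) (Δ' := del Δ x) x (fun _ _ => Iff.rfl))

theorem rr_del_left (a : A) : rr (del Δ x) x a = 1 :=
  (rr_isYB _).off _ _ (fun h => h.2.1 rfl)

theorem rr_del_right (a : A) : rr (del Δ x) a x = 1 :=
  (rr_isYB _).off _ _ (fun h => h.2.2 rfl)

theorem fgb_k1 : (fgb Δ x y).comp (k1 Δ x y hxy) = incl (ctr_le Δ x y) := by
  refine tg_ext fun a b h => ?_
  rw [MonoidHom.comp_apply, incl_rr _ h]
  unfold k1 fgb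
  rw [lft_rr]
  unfold cab
  rw [if_pos h]
  by_cases ha : a = y
  · subst ha
    rw [if_pos rfl, map_mul, lft_rr, lft_rr, rr_del_left, one_mul]
  · by_cases hb : b = y
    · subst hb
      rw [if_neg ha, if_pos rfl, map_mul, lft_rr, lft_rr, rr_del_right, mul_one]
    · rw [if_neg ha, if_neg hb, lft_rr]

theorem fgb_k2 : (fgb Δ x y).comp (k2 Δ x y hxy) = incl (ctr_le Δ x y) := by
  refine tg_ext fun a b h => ?_
  rw [MonoidHom.comp_apply, incl_rr _ h]
  unfold k2 fgb
  rw [lft_rr]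
  unfold cab
  rw [if_pos h]
  by_cases ha : a = y
  · subst ha
    rw [if_pos rfl, map_mul, lft_rr, lft_rr, rr_del_left, mul_one]
  · by_cases hb : b = y
    · subst hb
      rw [if_neg ha, if_pos rfl, map_mul, lft_rr, lft_rr, rr_del_right, one_mul]
    · rw [if_neg ha, if_neg hb, lft_rr]

variable (hi : Function.Injective (incl (ctr_le Δ x y)))

include hi in
theorem k1_inj : Function.Injective (k1 Δ x y hxy) := by
  intro g h hgh
  apply hi
  rw [← fgb_k1 Δ x y hxy, MonoidHom.comp_apply, MonoidHom.comp_apply, hgh]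

include hi in
theorem k2_inj : Function.Injective (k2 Δ x y hxy) := by
  intro g h hgh
  apply hi
  rw [← fgb_k2 Δ x y hxy, MonoidHom.comp_apply, MonoidHom.comp_apply, hgh]

/-- the isomorphism of the associated subgroups -/
noncomputable def th : (k1 Δ x y hxy).range ≃* (k2 Δ x y hxy).range :=
  (MonoidHom.ofInjective (k1_inj Δ x y hxy hi)).symm.trans
    (MonoidHom.ofInjective (k2_inj Δ x y hxy hi))

theorem th_apply (g : TG (ctr Δ x y)) :
    ((th Δ x y hxy hi ⟨k1 Δ x y hxy g, ⟨g, rfl⟩⟩ : (k2 Δ x y hxy).range) : TG (delE Δ x y)) =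
      k2 Δ x y hxy g := by
  have h : (⟨k1 Δ x y hxy g, ⟨g, rfl⟩⟩ : (k1 Δ x y hxy).range) =
      MonoidHom.ofInjective (k1_inj Δ x y hxy hi) g := Subtype.ext rfl
  unfold th
  rw [h, MulEquiv.trans_apply, MulEquiv.symm_apply_apply]
  rfl

/-- the HNN extension -/
abbrev HX : Type := HNNExtension (TG (delE Δ x y)) _ _ (th Δ x y hxy hi)

theorem hx_rel (g : TG (ctr Δ x y)) :
    (t : HX Δ x y hxy hi) * of (k1 Δ x y hxy g) = of (k2 Δ x y hxy g) * t := by
  have h := t_mul_of (φ := th Δ x y hxy hi) ⟨k1 Δ x y hxy g, ⟨g, rfl⟩⟩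
  rw [th_apply] at h
  exact h

/-- the generators of `TG Δ` in the HNN extension -/
noncomputable def bt (a b : A) : HX Δ x y hxy hi :=
  if a = x ∧ b = y then t else if a = y ∧ b = x then t⁻¹ else of (rr (delE Δ x y) a b)

theorem bt_xy : bt Δ x y hxy hi x y = t := if_pos ⟨rfl, rfl⟩

theorem bt_yx : bt Δ x y hxy hi y x = t⁻¹ := by
  unfold bt
  rw [if_neg (fun h => hxy.ne h.1.symm), if_pos ⟨rfl, rfl⟩]

theorem bt_of {a b : A} (h1 : ¬ (a = x ∧ b = y)) (h2 : ¬ (a = y ∧ b = x)) :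
    bt Δ x y hxy hi a b = of (rr (delE Δ x y) a b) := by
  unfold bt
  rw [if_neg h1, if_neg h2]

theorem bt_isYB : IsYB Δ (bt Δ x y hxy hi) := by
  have hb := rr_isYB (delE Δ x y)
  have hne : x ≠ y := hxy.ne
  have hinv : ∀ a b, Δ.Adj a b → bt Δ x y hxy hi a b * bt Δ x y hxy hi b a = 1 := by
    intro a b hab
    by_cases h1 : a = x ∧ b = y
    · obtain ⟨rfl, rfl⟩ := h1
      rw [bt_xy, bt_yx, mul_inv_cancel]
    · by_cases h2 : a = y ∧ b = x
      · obtain ⟨rfl, rfl⟩ := h2
        rw [bt_xy, bt_yx, inv_mul_cancel]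
      · rw [bt_of Δ x y hxy hi h1 h2, bt_of Δ x y hxy hi (fun h => h2 ⟨h.2, h.1⟩)
          (fun h => h1 ⟨h.2, h.1⟩), ← map_mul, hb.inv a b ⟨hab, h1, h2⟩, map_one]
  -- the stable letter commutes
  have hcomm : ∀ c d, Δ.Adj c d → x ≠ c → x ≠ d → y ≠ c → y ≠ d →
      (t : HX Δ x y hxy hi) * of (rr (delE Δ x y) c d) = of (rr (delE Δ x y) c d) * t := by
    intro c d hcd h1 h2 h3 h4
    have hadj : (ctr Δ x y).Adj c d :=
      ⟨hcd, h1.symm, h2.symm, fun h => absurd h.symm h3, fun h => absurd h.symm h4⟩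
    have e1 : k1 Δ x y hxy (rr (ctr Δ x y) c d) = rr (delE Δ x y) c d := by
      unfold k1
      rw [lft_rr]
      unfold cab
      rw [if_pos hadj, if_neg h3.symm, if_neg h4.symm]
    have e2 : k2 Δ x y hxy (rr (ctr Δ x y) c d) = rr (delE Δ x y) c d := by
      unfold k2
      rw [lft_rr]
      unfold cab
      rw [if_pos hadj, if_neg h3.symm, if_neg h4.symm]
    have h := hx_rel Δ x y hxy hi (rr (ctr Δ x y) c d)
    rw [e1, e2] at h
    exact h
  have htri : ∀ c, Δ.Adj x c → Δ.Adj y c →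
      bt Δ x y hxy hi x y * bt Δ x y hxy hi x c * bt Δ x y hxy hi y c =
        bt Δ x y hxy hi y c * bt Δ x y hxy hi x c * bt Δ x y hxy hi x y := by
    intro c hxc hyc
    have hadj : (ctr Δ x y).Adj y c :=
      ⟨hyc, hne.symm, hxc.ne', fun _ => hxc, fun h => absurd h hyc.ne'⟩
    have e1 : k1 Δ x y hxy (rr (ctr Δ x y) y c) = rr (delE Δ x y) x c * rr (delE Δ x y) y c := by
      unfold k1
      rw [lft_rr]
      unfold cab
      rw [if_pos hadj, if_pos rfl]
    have e2 : k2 Δ x y hxy (rr (ctr Δ x y) y c) = rr (delE Δ x y) y c * rr (delE Δ x y) x c := by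
      unfold k2
      rw [lft_rr]
      unfold cab
      rw [if_pos hadj, if_pos rfl]
    have h := hx_rel Δ x y hxy hi (rr (ctr Δ x y) y c)
    rw [e1, e2, map_mul, map_mul] at h
    rw [bt_xy, bt_of Δ x y hxy hi (a := x) (b := c) (fun h => hyc.ne' h.2) (fun h => hne h.1),
      bt_of Δ x y hxy hi (a := y) (b := c) (fun h => hne h.1.symm) (fun h => hxc.ne' h.2),
      mul_assoc]
    exact h
  refine ⟨?_, hinv, ?_, ?_⟩
  · intro a b hab
    rw [bt_of Δ x y hxy hi (fun h => hab (by rw [h.1, h.2]; exact hxy))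
      (fun h => hab (by rw [h.1, h.2]; exact hxy.symm)), hb.off a b (fun h => hab h.1), map_one]
  · intro a b c d hab hcd hac had hbc hbd
    have hsw : ∀ a b, a = x ∧ b = y → ∀ c d, Δ.Adj c d → a ≠ c → a ≠ d → b ≠ c → b ≠ d →
        bt Δ x y hxy hi a b * bt Δ x y hxy hi c d = bt Δ x y hxy hi c d * bt Δ x y hxy hi a b := by
      rintro a b ⟨rfl, rfl⟩ c d hcd h1 h2 h3 h4
      rw [bt_xy, bt_of Δ a b hxy hi (fun h => h1 h.1.symm) (fun h => h3 h.1.symm)]
      exact hcomm c d hcd h1 h2 h3 h4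
    have hsw' : ∀ a b, a = y ∧ b = x → ∀ c d, Δ.Adj c d → a ≠ c → a ≠ d → b ≠ c → b ≠ d →
        bt Δ x y hxy hi a b * bt Δ x y hxy hi c d = bt Δ x y hxy hi c d * bt Δ x y hxy hi a b := by
      rintro a b ⟨rfl, rfl⟩ c d hcd h1 h2 h3 h4
      have h5 := hsw b a ⟨rfl, rfl⟩ c d hcd h3 h4 h1 h2
      rw [bt_xy] at h5
      rw [bt_yx]
      exact (Commute.inv_left (show Commute _ _ from h5)).eq
    by_cases h1 : a = x ∧ b = y
    · exact hsw a b h1 c d hcd hac had hbc hbd
    · by_cases h2 : a = y ∧ b = x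
      · exact hsw' a b h2 c d hcd hac had hbc hbd
      · by_cases h3 : c = x ∧ d = y
        · exact (hsw c d h3 a b hab hac.symm hbc.symm had.symm hbd.symm).symm
        · by_cases h4 : c = y ∧ d = x
          · exact (hsw' c d h4 a b hab hac.symm hbc.symm had.symm hbd.symm).symm
          · rw [bt_of Δ x y hxy hi h1 h2, bt_of Δ x y hxy hi h3 h4, ← map_mul, ← map_mul,
              hb.comm a b c d ⟨hab, h1, h2⟩ ⟨hcd, h3, h4⟩ hac had hbc hbd]
  · intro a b c hab hac hbc
    -- the six positions of `x` and `y`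
    by_cases h1 : a = x ∧ b = y
    · obtain ⟨rfl, rfl⟩ := h1
      exact htri c hac hbc
    · by_cases h2 : a = y ∧ b = x
      · obtain ⟨rfl, rfl⟩ := h2
        exact yb12 (hinv b a hab.symm) (htri c hbc hac)
      · by_cases h3 : a = x ∧ c = y
        · obtain ⟨rfl, rfl⟩ := h3
          exact yb23 (hinv c b hbc.symm) (htri b hab hbc.symm)
        · by_cases h4 : a = y ∧ c = x
          · obtain ⟨rfl, rfl⟩ := h4
            exact yb23 (hinv c b hbc.symm) (yb12 (hinv c a hac.symm) (htri b hbc.symm hab))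
          · by_cases h5 : b = x ∧ c = y
            · obtain ⟨rfl, rfl⟩ := h5
              exact yb12 (hinv b a hab.symm) (yb23 (hinv c a hac.symm) (htri a hab.symm hac.symm))
            · by_cases h6 : b = y ∧ c = x
              · obtain ⟨rfl, rfl⟩ := h6
                exact yb12 (hinv b a hab.symm) (yb23 (hinv c a hac.symm)
                  (yb12 (hinv c b hbc.symm) (htri a hac.symm hab.symm)))
              · have g1 : (delE Δ x y).Adj a b := ⟨hab, h1, h2⟩
                have g2 : (delE Δ x y).Adj a c := ⟨hac, h3, h4⟩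
                have g3 : (delE Δ x y).Adj b c := ⟨hbc, h5, h6⟩
                rw [bt_of Δ x y hxy hi h1 h2, bt_of Δ x y hxy hi h3 h4, bt_of Δ x y hxy hi h5 h6,
                  ← map_mul, ← map_mul, ← map_mul, ← map_mul, hb.yb a b c g1 g2 g3]

/-- the homomorphism to the HNN extension -/
noncomputable def bet : TG Δ →* HX Δ x y hxy hi := lft (bt_isYB Δ x y hxy hi)

theorem bet_incl : (bet Δ x y hxy hi).comp (incl (delE_le Δ x y)) = of := by
  refine tg_ext fun a b h => ?_
  rw [MonoidHom.comp_apply, incl_rr _ h]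
  unfold bet
  rw [lft_rr, bt_of Δ x y hxy hi h.2.1 h.2.2]

/-- the relation in `TG Δ` -/
theorem tg_rel (g : TG (ctr Δ x y)) :
    rr Δ x y * incl (delE_le Δ x y) (k1 Δ x y hxy g) =
      incl (delE_le Δ x y) (k2 Δ x y hxy g) * rr Δ x y := by
  have hr := rr_isYB Δ
  have h : (MulAut.conj (rr Δ x y)).toMonoidHom.comp
      ((incl (delE_le Δ x y)).comp (k1 Δ x y hxy)) =
      (incl (delE_le Δ x y)).comp (k2 Δ x y hxy) := by
    -- the values on the generators
    have main : ∀ a b, (ctr Δ x y).Adj a b → b ≠ y →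
        rr Δ x y * incl (delE_le Δ x y) (k1 Δ x y hxy (rr (ctr Δ x y) a b)) * (rr Δ x y)⁻¹ =
          incl (delE_le Δ x y) (k2 Δ x y hxy (rr (ctr Δ x y) a b)) := by
      intro a b hab hb
      unfold k1 k2
      rw [lft_rr, lft_rr]
      unfold cab
      rw [if_pos hab, if_pos hab]
      by_cases ha : a = y
      · subst ha
        have e1 : (delE Δ x a).Adj x b := ⟨hab.2.2.2.1 rfl, fun h1 => hab.1.ne h1.2.symm,
          fun h1 => hxy.ne h1.1⟩
        have e2 : (delE Δ x a).Adj a b := ⟨hab.1, fun h1 => hxy.ne h1.1.symm, fun h1 => hab.2.2.1 h1.2⟩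
        rw [if_pos rfl, if_pos rfl, map_mul, map_mul, incl_rr _ e1, incl_rr _ e2,
          mul_inv_eq_iff_eq_mul, ← mul_assoc]
        exact hr.yb x a b hxy e1.1 e2.1
      · have e1 : (delE Δ x y).Adj a b := ⟨hab.1, fun h1 => hb h1.2, fun h1 => ha h1.1⟩
        rw [if_neg ha, if_neg hb, if_neg ha, if_neg hb, incl_rr _ e1, mul_inv_eq_iff_eq_mul]
        exact hr.comm x y a b hxy hab.1 hab.2.1.symm hab.2.2.1.symm (Ne.symm ha) (Ne.symm hb)
    refine tg_ext fun a b hab => ?_
    by_cases hb : b = y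
    · have ha : a ≠ y := fun h => hab.ne (h.trans hb.symm)
      have e : rr (ctr Δ x y) a b = (rr (ctr Δ x y) b a)⁻¹ := (rr_isYB _).inv' hab.symm
      rw [e, map_inv, map_inv]
      congr 1
      exact main b a hab.symm ha
    · exact main a b hab hb
  have h1 := DFunLike.congr_fun h g
  have h2 : rr Δ x y * incl (delE_le Δ x y) (k1 Δ x y hxy g) * (rr Δ x y)⁻¹ =
      incl (delE_le Δ x y) (k2 Δ x y hxy g) := h1
  rw [← h2, inv_mul_cancel_right]

/-- the homomorphism from the HNN extension -/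
noncomputable def alp : HX Δ x y hxy hi →* TG Δ :=
  HNNExtension.lift (incl (delE_le Δ x y)) (rr Δ x y) (by
    rintro ⟨a, g, rfl⟩
    rw [th_apply]
    exact tg_rel Δ x y hxy g)

theorem alp_bet : (alp Δ x y hxy hi).comp (bet Δ x y hxy hi) = MonoidHom.id _ := by
  refine tg_ext fun a b hab => ?_
  rw [MonoidHom.comp_apply, MonoidHom.id_apply]
  unfold bet
  rw [lft_rr]
  by_cases h1 : a = x ∧ b = y
  · obtain ⟨rfl, rfl⟩ := h1
    rw [bt_xy]
    unfold alp
    rw [lift_t]
  · by_cases h2 : a = y ∧ b = x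
    · obtain ⟨rfl, rfl⟩ := h2
      rw [bt_yx, map_inv]
      unfold alp
      rw [lift_t]
      exact ((rr_isYB Δ).inv' hxy).symm
    · rw [bt_of Δ x y hxy hi h1 h2]
      unfold alp
      have hd : (delE Δ x y).Adj a b := ⟨hab, h1, h2⟩
      rw [lift_of, incl_rr _ hd]

theorem bet_inj : Function.Injective (bet Δ x y hxy hi) := by
  intro g h hgh
  have h1 := congrArg (alp Δ x y hxy hi) hgh
  rw [← MonoidHom.comp_apply, ← MonoidHom.comp_apply, alp_bet] at h1
  exact h1

include hxy hi in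
theorem delE_inj : Function.Injective (incl (delE_le Δ x y)) := by
  intro g h hgh
  have h1 := congrArg (bet Δ x y hxy hi) hgh
  rw [← MonoidHom.comp_apply, ← MonoidHom.comp_apply, bet_incl] at h1
  exact HNNExtension.of_injective _ h1

/-- forgetting `x`, on the HNN extension -/
noncomputable def fgx : HX Δ x y hxy hi →* TG (del Δ x) :=
  HNNExtension.lift (fgb Δ x y) 1 (by
    rintro ⟨a, g, rfl⟩
    rw [th_apply, one_mul, mul_one, ← MonoidHom.comp_apply, ← MonoidHom.comp_apply, fgb_k1, fgb_k2])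

include hxy hi in
theorem step_mem {C : (G : Type) → [Group G] → Prop} (hC : Inherits C) (hE : Extension C)
    (h1 : C (TG (delE Δ x y))) (h2 : C (TG (del Δ x))) : C (TG Δ) := by
  refine hC.of_injective (bet Δ x y hxy hi) (bet_inj Δ x y hxy hi) ?_
  refine hnn_edge_mem _ hC hE h1 h2 (fgx Δ x y hxy hi) ?_
  rintro ⟨a, g, rfl⟩ h
  unfold fgx at h
  rw [lift_of, ← MonoidHom.comp_apply, fgb_k1] at h
  have h3 : g = 1 := hi (h.trans (map_one _).symm)
  change k1 Δ x y hxy g = 1
  rw [h3, map_one]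

end step

/-- the subgraph homomorphisms are injective and the groups are in the class -/
theorem tg_main {C : (G : Type) → [Group G] → Prop} (hC : Inherits C) (hE : Extension C)
    [Finite A] (Δ : SimpleGraph A) :
    (∀ (Δ' : SimpleGraph A) (hle : Δ' ≤ Δ), Function.Injective (incl hle)) ∧ C (TG Δ) := by
  induction Δ using WellFoundedLT.induction with
  | ind Δ ih =>
    have hstep : ∀ x y, Δ.Adj x y → del Δ x < Δ ∧ delE Δ x y < Δ := by
      intro x y hxy
      refine ⟨lt_of_le_of_ne (del_le Δ x) ?_, lt_of_le_of_ne (delE_le Δ x y) ?_⟩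
      · intro h
        have : (del Δ x).Adj x y := by rw [h]; exact hxy
        exact this.2.1 rfl
      · intro h
        have : (delE Δ x y).Adj x y := by rw [h]; exact hxy
        exact this.2.1 ⟨rfl, rfl⟩
    constructor
    · intro Δ' hle
      by_cases heq : Δ' = Δ
      · subst heq
        rw [incl_refl]
        exact Function.injective_id
      · obtain ⟨x, y, hxy, hn⟩ : ∃ x y, Δ.Adj x y ∧ ¬ Δ'.Adj x y := by
          by_contra hcon
          push Not at hcon
          exact heq (le_antisymm hle (fun x y h => hcon x y h))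
        have hle' : Δ' ≤ delE Δ x y := fun a b h => ⟨hle h,
          fun h1 => hn (by rw [← h1.1, ← h1.2]; exact h),
          fun h1 => hn (by rw [← h1.1, ← h1.2]; exact h.symm)⟩
        have h1 := delE_inj Δ x y hxy ((ih _ (hstep x y hxy).1).1 _ (ctr_le Δ x y))
        have h2 := (ih _ (hstep x y hxy).2).1 Δ' hle'
        have h3 := incl_comp hle' (delE_le Δ x y)
        have h4 : incl hle = (incl (delE_le Δ x y)).comp (incl hle') := h3.symm
        rw [h4, MonoidHom.coe_comp]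
        exact h1.comp h2
    · by_cases hbot : Δ = ⊥
      · subst hbot
        refine hC.fin _ ?_
        have h1 : (MonoidHom.id (TG (⊥ : SimpleGraph A))) = 1 :=
          tg_ext fun x y h => absurd h (by simp)
        have h2 : Subsingleton (TG (⊥ : SimpleGraph A)) :=
          ⟨fun g h => (DFunLike.congr_fun h1 g).trans (DFunLike.congr_fun h1 h).symm⟩
        infer_instance
      · obtain ⟨x, y, hxy⟩ : ∃ x y, Δ.Adj x y := by
          by_contra hcon
          push Not at hcon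
          exact hbot (le_bot_iff.1 (fun x y h => absurd h (hcon x y)))
        exact step_mem Δ x y hxy ((ih _ (hstep x y hxy).1).1 _ (ctr_le Δ x y)) hC hE
          (ih _ (hstep x y hxy).2).2 (ih _ (hstep x y hxy).1).2

theorem tg_mem {C : (G : Type) → [Group G] → Prop} (hC : Inherits C) (hE : Extension C)
    [Finite A] (Δ : SimpleGraph A) : C (TG Δ) := (tg_main hC hE Δ).2

end Pool.Agent.H54.IX
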