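import Pool.Agent.H54.IX.Blk

/-!
# Refinement

Every token `a` is cut in the tokens of the list `w a`, tokens of the same type are cut in the same way. This gives a
homomorphism of the groups `GT`, which maps recut elements to recut elements.
-/

set_option autoImplicit false

open Classical

namespace Pool.Agent.H54.IX

variable {A T A' T' : Type}

theorem YB.isYB {M : Type} [Group M] {r : A → A → M} (hr : YB r) (Δ : SimpleGraph A) :
    IsYB Δ (fun x y => if Δ.Adj x y then r x y else 1) where
  off x y h1 := if_neg h1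
  inv x y h1 := by
    rw [if_pos h1, if_pos h1.symm]
    exact hr.inv x y h1.ne
  comm x y z w h1 h2 h3 h4 h5 h6 := by
    rw [if_pos h1, if_pos h2]
    exact hr.comm x y z w h3 h4 h5 h6 h1.ne h2.ne
  yb x y z h1 h2 h3 := by
    rw [if_pos h1, if_pos h2, if_pos h3]
    exact hr.yb x y z h1.ne h2.ne h3.ne

/-- homomorphisms from `GT τ` -/
theorem gt_lift (τ : A → T) {M : Type} [Group M] (r : A → A → M) (hr : YB r) (f : sg τ →* M)
    (hf : ∀ (σ : sg τ) (x y : A), τ x ≠ τ y → f σ * r x y = r (σ.1 x) (σ.1 y) * f σ)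
    (hs : ∀ (x y : A) (h : τ x = τ y), x ≠ y → f ⟨Equiv.swap x y, swap_mem_sg h⟩ = r x y) :
    ∃ g : GT τ →* M, (∀ x y, x ≠ y → g (rh τ x y) = r x y) ∧
      ∀ (σ : Equiv.Perm A) (h : σ ∈ sg τ), g (pm τ σ h) = f ⟨σ, h⟩ := by
  let f1 : TG (grt τ) →* M := lft (hr.isYB (grt τ))
  have hf1 : ∀ x y, τ x ≠ τ y → f1 (rr (grt τ) x y) = r x y := by
    intro x y h
    have h' : (grt τ).Adj x y := h
    change lft _ (rr (grt τ) x y) = _
    rw [lft_rr, if_pos h']
  let g : GT τ →* M := SemidirectProduct.lift f1 f (by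
    intro σ
    refine tg_ext fun x y hxy => ?_
    have hxy' : τ (σ.1 x) ≠ τ (σ.1 y) := by rw [σ.2 x, σ.2 y]; exact hxy
    change f1 (sgm τ σ (rr (grt τ) x y)) = f σ * f1 (rr (grt τ) x y) * (f σ)⁻¹
    rw [sgm_rr, hf1 _ _ hxy, hf1 _ _ hxy', hf σ x y hxy, mul_inv_cancel_right])
  have hg : ∀ (σ : Equiv.Perm A) (h : σ ∈ sg τ), g (pm τ σ h) = f ⟨σ, h⟩ := by
    intro σ h
    exact SemidirectProduct.lift_inr _ _ _ _
  refine ⟨g, ?_, hg⟩
  intro x y hxy
  by_cases h : τ x = τ y
  · rw [rh_eq h, hg, hs x y h hxy]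
  · rw [rh_ne h]
    have := SemidirectProduct.lift_inl (φ := sga τ) f1 f (by
      intro σ
      refine tg_ext fun x y hxy => ?_
      have hxy' : τ (σ.1 x) ≠ τ (σ.1 y) := by rw [σ.2 x, σ.2 y]; exact hxy
      change f1 (sgm τ σ (rr (grt τ) x y)) = f σ * f1 (rr (grt τ) x y) * (f σ)⁻¹
      rw [sgm_rr, hf1 _ _ hxy, hf1 _ _ hxy', hf σ x y hxy, mul_inv_cancel_right])
      (rr (grt τ) x y)
    rw [hf1 _ _ h] at this
    exact this

/-- every token is cut in a list of tokens, tokens of the same type in the same way -/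
structure Refn (τ : A → T) (τ' : A' → T') (w : A → List A') : Prop where
  nodup : ∀ a, (w a).Nodup
  disj : ∀ a b x, x ∈ w a → x ∈ w b → a = b
  cover : ∀ x, ∃ a, x ∈ w a
  typ : ∀ a b, τ a = τ b → (w a).map τ' = (w b).map τ'

namespace Refn

variable {τ : A → T} {τ' : A' → T'} {w : A → List A'}

theorem flatMap_nodup (h : Refn τ τ' w) {W : List A} (hW : W.Nodup) : (W.flatMap w).Nodup := by
  rw [List.nodup_flatMap]
  refine ⟨fun a _ => h.nodup a, ?_⟩
  refine hW.imp ?_
  intro a b hab x hx hx'
  exact hab (h.disj a b x hx hx')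

theorem flatMap_full (h : Refn τ τ' w) {W : List A} (hW : ∀ a, a ∈ W) (x : A') :
    x ∈ W.flatMap w := by
  obtain ⟨a, ha⟩ := h.cover x
  exact List.mem_flatMap.2 ⟨a, hW a, ha⟩

variable [Fintype A] [Fintype A']

/-- the exchange of two blocks -/
theorem yb (h : Refn τ τ' w) :
    YB (fun x y => RR (rh τ') (w x ++ w y) (w y ++ w x)) := by
  have hr := rh_yb τ'
  have hn : ∀ x y, x ≠ y → (w x ++ w y).Nodup := by
    intro x y hxy
    rw [List.nodup_append]
    refine ⟨h.nodup x, h.nodup y, ?_⟩
    rintro a ha b hb rfl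
    exact hxy (h.disj x y a ha hb)
  have hn3 : ∀ x y z, x ≠ y → x ≠ z → y ≠ z → (w x ++ w y ++ w z).Nodup := by
    intro x y z h1 h2 h3
    have h4 : ([x, y, z] : List A).Nodup := by simp [h1, h2, h3]
    have := h.flatMap_nodup h4
    simpa using this
  have hp : ∀ x y, (w x ++ w y).Perm (w y ++ w x) := fun x y => List.perm_append_comm
  refine ⟨?_, ?_, ?_⟩
  · intro x y _
    change RR (rh τ') (w x ++ w y) (w y ++ w x) * RR (rh τ') (w y ++ w x) (w x ++ w y) = 1
    rw [RR_trans, RR_self]
  · intro x y z u h1 h2 h3 h4 h5 h6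
    refine RR_comm hr (hp x y) (hp z u) ?_
    have h7 : ([x, y, z, u] : List A).Nodup := by simp [h1, h2, h3, h4, h5, h6]
    have := h.flatMap_nodup h7
    simpa using this
  · intro x y z h1 h2 h3
    have e1 : RR (rh τ') (w x ++ w y) (w y ++ w x) =
        RR (rh τ') (w x ++ w y ++ w z) (w y ++ w x ++ w z) :=
      (RR_right hr (hp x y) (w z) (hn3 x y z h1 h2 h3)).symm
    have e2 : RR (rh τ') (w x ++ w z) (w z ++ w x) =
        RR (rh τ') (w y ++ w x ++ w z) (w y ++ w z ++ w x) := by
      rw [List.append_assoc, List.append_assoc]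
      refine (RR_left hr (hp x z) (w y) ?_).symm
      have := hn3 y x z h1.symm h3 h2
      rwa [List.append_assoc] at this
    have e3 : RR (rh τ') (w y ++ w z) (w z ++ w y) =
        RR (rh τ') (w y ++ w z ++ w x) (w z ++ w y ++ w x) :=
      (RR_right hr (hp y z) (w x) (hn3 y z x h3 h1.symm h2.symm)).symm
    have f1 : RR (rh τ') (w y ++ w z) (w z ++ w y) =
        RR (rh τ') (w x ++ w y ++ w z) (w x ++ w z ++ w y) := by
      rw [List.append_assoc, List.append_assoc]
      refine (RR_left hr (hp y z) (w x) ?_).symm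
      have := hn3 x y z h1 h2 h3
      rwa [List.append_assoc] at this
    have f2 : RR (rh τ') (w x ++ w z) (w z ++ w x) =
        RR (rh τ') (w x ++ w z ++ w y) (w z ++ w x ++ w y) :=
      (RR_right hr (hp x z) (w y) (hn3 x z y h2 h1 h3.symm)).symm
    have f3 : RR (rh τ') (w x ++ w y) (w y ++ w x) =
        RR (rh τ') (w z ++ w x ++ w y) (w z ++ w y ++ w x) := by
      rw [List.append_assoc, List.append_assoc]
      refine (RR_left hr (hp x y) (w z) ?_).symm
      have := hn3 z x y h2.symm h3.symm h1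
      rwa [List.append_assoc] at this
    have g1 : RR (rh τ') (w x ++ w y) (w y ++ w x) * RR (rh τ') (w x ++ w z) (w z ++ w x) *
        RR (rh τ') (w y ++ w z) (w z ++ w y) =
        RR (rh τ') (w x ++ w y ++ w z) (w z ++ w y ++ w x) := by
      rw [e1, e2, e3, RR_trans, RR_trans]
    have g2 : RR (rh τ') (w y ++ w z) (w z ++ w y) * RR (rh τ') (w x ++ w z) (w z ++ w x) *
        RR (rh τ') (w x ++ w y) (w y ++ w x) =
        RR (rh τ') (w x ++ w y ++ w z) (w z ++ w y ++ w x) := by
      rw [f1, f2, f3, RR_trans, RR_trans]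
    exact g1.trans g2.symm

/-- the permutation of the new tokens -/
theorem exists_perm (h : Refn τ τ' w) (σ : sg τ) :
    ∃ σ' : Equiv.Perm A', σ' ∈ sg τ' ∧ ∀ a, (w a).map σ' = w (σ.1 a) := by
  have hfull : ∀ a, a ∈ (Finset.univ.toList : List A) := fun a => by simp
  have hnod : (Finset.univ.toList : List A).Nodup := Finset.nodup_toList _
  have hperm : ((Finset.univ.toList : List A).map σ.1).Perm (Finset.univ.toList : List A) := by
    rw [List.perm_ext_iff_of_nodup (hnod.map σ.1.injective) hnod]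
    intro a
    refine ⟨fun _ => hfull a, fun _ => ?_⟩
    exact List.mem_map.2 ⟨σ.1.symm a, hfull _, σ.1.apply_symm_apply a⟩
  have hV : (Finset.univ.toList : List A).flatMap (fun a => w (σ.1 a)) =
      ((Finset.univ.toList : List A).map σ.1).flatMap w := by
    rw [List.flatMap_map]
  have h1 : ((Finset.univ.toList : List A).flatMap w).Perm
      ((Finset.univ.toList : List A).flatMap (fun a => w (σ.1 a))) := by
    rw [hV]
    exact (List.Perm.flatMap_right w hperm).symm
  obtain ⟨σ', hσ', h2⟩ := exists_relabel τ' ((Finset.univ.toList : List A).flatMap w)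
    ((Finset.univ.toList : List A).flatMap (fun a => w (σ.1 a)))
    (h.flatMap_nodup hnod) (h1.nodup_iff.1 (h.flatMap_nodup hnod)) (h.flatMap_full hfull)
    (fun a => h1.subset (h.flatMap_full hfull a)) (by
      rw [List.map_flatMap, List.map_flatMap]
      refine List.flatMap_congr fun a _ => ?_
      exact h.typ _ _ (σ.2 a).symm)
  refine ⟨σ', hσ', fun a => ?_⟩
  refine flatMap_inj (fun a => (w a).map σ') (fun a => w (σ.1 a)) Finset.univ.toList ?_ ?_ a
    (hfull a)
  · intro b _
    have := congrArg List.length (h.typ _ _ (σ.2 b))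
    simpa using this.symm
  · rw [← h2, List.map_flatMap]

theorem perm_unique (h : Refn τ τ' w) {σ ρ : Equiv.Perm A'}
    (hσ : ∀ a, (w a).map σ = (w a).map ρ) : σ = ρ := by
  refine Equiv.ext fun x => ?_
  obtain ⟨a, ha⟩ := h.cover x
  obtain ⟨i, hi, rfl⟩ := List.getElem_of_mem ha
  have h1 := List.getElem_of_eq (hσ a) (i := i) (by simpa using hi)
  simpa using h1

/-- the homomorphism of a refinement -/
theorem exists_hom (h : Refn τ τ' w) :
    ∃ Ψ : GT τ →* GT τ', ∀ W W' : List A, W.Perm W' → W.Nodup →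
      Ψ (RR (rh τ) W W') = RR (rh τ') (W.flatMap w) (W'.flatMap w) := by
  choose e he he' using h.exists_perm
  have he1 : ∀ σ ρ, e (σ * ρ) = e σ * e ρ := by
    intro σ ρ
    refine h.perm_unique fun a => ?_
    rw [he' (σ * ρ) a]
    have h1 : (w a).map (e σ * e ρ) = ((w a).map (e ρ)).map (e σ) := by
      rw [List.map_map]
      rfl
    rw [h1, he', he']
    rfl
  have he0 : e 1 = 1 := by
    refine h.perm_unique fun a => ?_
    rw [he' 1 a]
    have h1 : (w a).map (1 : Equiv.Perm A') = (w a).map id := rfl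
    rw [h1, List.map_id]
    rfl
  let f : sg τ →* GT τ' :=
    { toFun := fun σ => pm τ' (e σ) (he σ)
      map_one' := by
        rw [pm_congr τ' (he 1) he0]
        exact pm_one τ'
      map_mul' := fun σ ρ => by
        rw [pm_mul]
        exact pm_congr τ' _ (he1 σ ρ) }
  have hp : ∀ x y, (w x ++ w y).Perm (w y ++ w x) := fun x y => List.perm_append_comm
  have hn : ∀ x y, x ≠ y → (w x ++ w y).Nodup := by
    intro x y hxy
    rw [List.nodup_append]
    refine ⟨h.nodup x, h.nodup y, ?_⟩
    rintro a ha b hb rfl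
    exact hxy (h.disj x y a ha hb)
  obtain ⟨Ψ, hΨ, hΨ'⟩ := gt_lift τ (fun x y => RR (rh τ') (w x ++ w y) (w y ++ w x)) h.yb f (by
    intro σ x y hxy
    have hxy' : x ≠ y := fun h => hxy (congrArg τ h)
    change pm τ' (e σ) (he σ) * RR (rh τ') (w x ++ w y) (w y ++ w x) =
      RR (rh τ') (w (σ.1 x) ++ w (σ.1 y)) (w (σ.1 y) ++ w (σ.1 x)) * pm τ' (e σ) (he σ)
    rw [pm_RR τ' (e σ) (he σ) (hp x y) (hn x y hxy'), List.map_append, List.map_append, he', he'])
    (by
      intro x y hxy hne
      have hs := swap_mem_sg hxy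
      change pm τ' (e ⟨Equiv.swap x y, hs⟩) (he ⟨Equiv.swap x y, hs⟩) =
        RR (rh τ') (w x ++ w y) (w y ++ w x)
      have hx : (w x).map (e ⟨Equiv.swap x y, hs⟩) = w y := by
        rw [he']
        exact congrArg w (Equiv.swap_apply_left x y)
      have hy : (w y).map (e ⟨Equiv.swap x y, hs⟩) = w x := by
        rw [he']
        exact congrArg w (Equiv.swap_apply_right x y)
      have h1 := RR_relabel τ' _ (w y ++ w x) rfl (hn y x hne.symm) (e ⟨Equiv.swap x y, hs⟩)
        (he _) (by
          intro a ha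
          obtain ⟨c, hc⟩ := h.cover a
          have hcx : c ≠ x := by
            rintro rfl
            exact ha (List.mem_append_right _ hc)
          have hcy : c ≠ y := by
            rintro rfl
            exact ha (List.mem_append_left _ hc)
          have h2 : (w c).map (e ⟨Equiv.swap x y, hs⟩) = w c := by
            rw [he']
            exact congrArg w (Equiv.swap_apply_of_ne_of_ne hcx hcy)
          obtain ⟨i, hi, rfl⟩ := List.getElem_of_mem hc
          have h3 := List.getElem_of_eq h2 (i := i) (by simpa using hi)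
          simpa using h3)
      rw [List.map_append, hx, hy] at h1
      rw [← RR_inv, h1, inv_inv])
  refine ⟨Ψ, fun W W' hW hn' => ?_⟩
  have h1 := RR_gen' (rh_yb τ) Ψ (fun W => bw (rh τ') (W.flatMap w)) (by
    intro U V a b hnod
    have hab : a ≠ b := by
      intro hab
      subst hab
      rw [List.nodup_append] at hnod
      simp at hnod
    have h2 := h.flatMap_nodup hnod
    have e1 : (U ++ a :: b :: V).flatMap w = U.flatMap w ++ (w a ++ w b) ++ V.flatMap w := by
      simp
    have e2 : (U ++ b :: a :: V).flatMap w = U.flatMap w ++ (w b ++ w a) ++ V.flatMap w := by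
      simp
    have h3 := RR_ctx (rh_yb τ') (hp a b) (U.flatMap w) (V.flatMap w) (by rw [← e1]; exact h2)
    change bw (rh τ') ((U ++ a :: b :: V).flatMap w) =
      Ψ (rh τ a b) * bw (rh τ') ((U ++ b :: a :: V).flatMap w)
    rw [hΨ a b hab, e1, e2, ← h3]
    unfold RR
    rw [inv_mul_cancel_right]) hW hn'
  exact h1

end Refn

end Pool.Agent.H54.IX
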