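import Pool.Agent.H54.IX.Lev
import Pool.Agent.H65.IX.Ev

/-!
# Stages

A stage is a level with a homomorphism of the free group to the group `GT` of the level.
-/

set_option autoImplicit false

open Classical

namespace Pool.Agent.H54.IX

/-- the lists of an interval exchange transformation -/
structure Gen (T : ℝ) (h : Equiv.Perm ℝ) (W W' : List ℝ) (len : ℝ → ℝ) : Prop where
  nodup : W.Nodup
  perm : W.Perm W'
  pos : ∀ i ∈ W, 0 < len i
  left : ∀ i ∈ W, pre len W i = i
  range : ∀ i ∈ W, 0 ≤ i ∧ i < T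
  total : (W.map len).sum = T
  adapted : Adapted len h W W'

variable {T : ℝ} {S : Type}

/-- a stage -/
structure Stage (T : ℝ) {S : Type} (W W' : S → List ℝ) (len : S → ℝ → ℝ) where
  L : Lev T
  φ : FreeGroup S →* GT L.lam
  B : S → ℝ → List L.A
  sums : ∀ s, ∀ i ∈ W s, ((B s i).map L.lam).sum = len s i
  perm : ∀ s, ((W s).flatMap (B s)).Perm L.W0
  form : ∀ s, φ (FreeGroup.of s) = RR (rh L.lam) L.W0 ((W' s).flatMap (B s)) *
    RR (rh L.lam) ((W s).flatMap (B s)) L.W0

variable {W W' : S → List ℝ} {len : S → ℝ → ℝ}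

/-- the first stage -/
theorem exists_stage (hT : 0 < T) [Finite S] (h : S → Equiv.Perm ℝ)
    (hg : ∀ s, Gen T (h s) (W s) (W' s) (len s)) : Nonempty (Stage T W W' len) := by
  have := Fintype.ofFinite S
  obtain ⟨L, hL⟩ := exists_first hT
    (Finset.univ.biUnion fun s => ((W s).map (len s)).toFinset)
  have hB : ∀ s, ∃ B : ℝ → List L.A, ((W s).flatMap B).Perm L.W0 ∧
      ∀ i ∈ W s, ((B i).map L.lam).sum = len s i := by
    intro s
    refine exists_fill L.uniq L.lam L.mem L.W0 (len s) (W s) (hg s).nodup ?_ ?_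
    · intro i hi
      refine hL _ ?_ ((hg s).pos i hi)
      rw [Finset.mem_biUnion]
      refine ⟨s, Finset.mem_univ _, ?_⟩
      rw [List.mem_toFinset]
      exact List.mem_map_of_mem hi
    · rw [(hg s).total, L.total]
  choose B h1 h2 using hB
  exact ⟨{
    L := L
    φ := FreeGroup.lift fun s => RR (rh L.lam) L.W0 ((W' s).flatMap (B s)) *
      RR (rh L.lam) ((W s).flatMap (B s)) L.W0
    B := B
    sums := h2
    perm := h1
    form := fun s => FreeGroup.lift_apply_of }⟩

/-- the next stage -/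
theorem Stage.next (hW : ∀ s, (W s).Perm (W' s)) (st : Stage T W W' len) (X : Finset ℝ) :
    ∃ (st' : Stage T W W' len) (Ψ : GT st.L.lam →* GT st'.L.lam), st'.φ = Ψ.comp st.φ ∧
      (∀ x ∈ X, 0 < x → Rep st'.L.M x) ∧ ∀ x ∈ st.L.M, Rep st'.L.M x := by
  obtain ⟨L', w, href, h0, hsum, hX, hM⟩ := exists_step st.L X
  obtain ⟨Ψ, hΨ⟩ := href.exists_hom
  have hp' : ∀ s, ((W' s).flatMap (st.B s)).Perm st.L.W0 := fun s =>
    (List.Perm.flatMap_right (st.B s) (hW s)).symm.trans (st.perm s)
  have hs : ∀ V : List st.L.A, ((V.flatMap w).map L'.lam).sum = (V.map st.L.lam).sum := by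
    intro V
    induction V with
    | nil => rfl
    | cons a V ih =>
      rw [List.flatMap_cons, List.map_append, List.sum_append, ih, hsum, List.map_cons,
        List.sum_cons]
  refine ⟨{
    L := L'
    φ := Ψ.comp st.φ
    B := fun s i => (st.B s i).flatMap w
    sums := fun s i hi => by rw [hs, st.sums s i hi]
    perm := fun s => by
      rw [h0, ← List.flatMap_assoc]
      exact List.Perm.flatMap_right w (st.perm s)
    form := fun s => by
      rw [MonoidHom.comp_apply, st.form s, map_mul, hΨ _ _ (hp' s).symm st.L.nodup,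
        hΨ _ _ (st.perm s) ((st.perm s).nodup_iff.2 st.L.nodup), h0, ← List.flatMap_assoc,
        ← List.flatMap_assoc] }, Ψ, rfl, hX, hM⟩

/-- the formula for the generators, with any blocks -/
theorem Stage.form' (hW : ∀ s, (W s).Perm (W' s)) (st : Stage T W W' len) (s : S)
    (B' : ℝ → List st.L.A) (hs : ∀ i ∈ W s, ((B' i).map st.L.lam).sum = len s i)
    (hp : ((W s).flatMap B').Perm st.L.W0) :
    st.φ (FreeGroup.of s) = RR (rh st.L.lam) st.L.W0 ((W' s).flatMap B') *
      RR (rh st.L.lam) ((W s).flatMap B') st.L.W0 := by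
  have h1 := block st.L.lam (hW s) (st.B s) B' ((st.perm s).nodup_iff.2 st.L.nodup)
    (fun a => (st.perm s).symm.subset (st.L.full a)) (hp.nodup_iff.2 st.L.nodup)
    (fun a => hp.symm.subset (st.L.full a)) (by
      intro i hi
      refine st.L.uniq _ _ ?_ ?_ ?_
      · intro x hx
        obtain ⟨a, -, rfl⟩ := List.mem_map.1 hx
        exact st.L.mem a
      · intro x hx
        obtain ⟨a, -, rfl⟩ := List.mem_map.1 hx
        exact st.L.mem a
      · rw [st.sums s i hi, hs i hi])
  rw [st.form s, ← RR_trans st.L.W0 ((W' s).flatMap B') ((W' s).flatMap (st.B s)),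
    ← RR_trans ((W s).flatMap (st.B s)) ((W s).flatMap B') st.L.W0, h1, mul_assoc,
    ← mul_assoc (RR (rh st.L.lam) ((W' s).flatMap B') ((W' s).flatMap (st.B s))), RR_trans,
    RR_self, one_mul]

/-- `p` is computed by any list of tokens whose left endpoints contain a finite set `P` -/
def Good (h : S → Equiv.Perm ℝ) (W W' : S → List ℝ) (len : S → ℝ → ℝ) (T : ℝ) (O : Set ℝ)
    (p : FreeGroup S) : Prop :=
  ∃ P : Finset ℝ, (∀ x ∈ P, x ∈ O) ∧ ∀ (st : Stage T W W' len) (U : List st.L.A),
    U.Perm st.L.W0 → (∀ x ∈ P, ∃ a ∈ U, pre st.L.lam U a = x) →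
    ∃ U' : List st.L.A, U'.Perm st.L.W0 ∧ Adapted st.L.lam (FreeGroup.lift h p : Equiv.Perm ℝ) U U' ∧
      st.φ p = RR (rh st.L.lam) st.L.W0 U' * RR (rh st.L.lam) U st.L.W0

/-- the orbit of the left endpoints -/
def Orb (h : S → Equiv.Perm ℝ) (W : S → List ℝ) : Set ℝ :=
  {x | ∃ (g : FreeGroup S) (s : S) (i : ℝ), i ∈ W s ∧ x = (FreeGroup.lift h g : Equiv.Perm ℝ) i}

theorem Orb_inv (h : S → Equiv.Perm ℝ) (W : S → List ℝ) (g : FreeGroup S) {x : ℝ}
    (hx : x ∈ Orb h W) : (FreeGroup.lift h g : Equiv.Perm ℝ) x ∈ Orb h W := by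
  obtain ⟨g', s, i, hi, rfl⟩ := hx
  refine ⟨g * g', s, i, hi, ?_⟩
  rw [map_mul]
  rfl

theorem good_all (h : S → Equiv.Perm ℝ) (hg : ∀ s, Gen T (h s) (W s) (W' s) (len s))
    (p : FreeGroup S) : Good h W W' len T (Orb h W) p := by
  have hW : ∀ s, (W s).Perm (W' s) := fun s => (hg s).perm
  induction p using FreeGroup.induction_on with
  | C1 =>
    refine ⟨∅, by simp, fun st U hU _ => ⟨U, hU, ?_, ?_⟩⟩
    · intro i _ t _ _
      rw [map_one]
      rfl
    · rw [map_one, RR_trans, RR_self]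
  | of s =>
    refine ⟨(W s).toFinset, ?_, ?_⟩
    · intro x hx
      rw [List.mem_toFinset] at hx
      exact ⟨1, s, x, hx, by rw [map_one]; rfl⟩
    · intro st U hU hP
      obtain ⟨B', hB, hB'⟩ := exists_blocks (len s) st.L.lam (W s) U (hg s).nodup
        (hU.nodup_iff.2 st.L.nodup) (hg s).pos (fun a _ => st.L.pos a)
        (by rw [(hg s).total, (hU.map _).sum_eq, st.L.total]) (by
          intro i hi
          rw [(hg s).left i hi]
          exact hP i (List.mem_toFinset.2 hi))
      subst hB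
      refine ⟨(W' s).flatMap B', (List.Perm.flatMap_right B' (hW s)).symm.trans hU, ?_, ?_⟩
      · rw [FreeGroup.lift_apply_of]
        exact (hg s).adapted.flatMap (hW s) (hg s).nodup B' hB' st.L.pos
          (hU.nodup_iff.2 st.L.nodup)
      · exact st.form' hW s B' hB' hU
  | inv_of s _ =>
    refine ⟨((W' s).map fun i => pre (len s) (W' s) i).toFinset, ?_, ?_⟩
    · intro x hx
      rw [List.mem_toFinset, List.mem_map] at hx
      obtain ⟨i, hi, rfl⟩ := hx
      have hi' : i ∈ W s := (hW s).symm.subset hi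
      refine ⟨FreeGroup.of s, s, i, hi', ?_⟩
      have h1 := (hg s).adapted i hi' 0 le_rfl ((hg s).pos i hi')
      rw [add_zero, add_zero, (hg s).left i hi'] at h1
      rw [FreeGroup.lift_apply_of, h1]
    · intro st U hU hP
      obtain ⟨B', hB, hB'⟩ := exists_blocks (len s) st.L.lam (W' s) U
        ((hW s).nodup_iff.1 (hg s).nodup)
        (hU.nodup_iff.2 st.L.nodup) (fun i hi => (hg s).pos i ((hW s).symm.subset hi))
        (fun a _ => st.L.pos a)
        (by rw [((hW s).symm.map _).sum_eq, (hg s).total, (hU.map _).sum_eq, st.L.total]) (by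
          intro i hi
          exact hP _ (List.mem_toFinset.2 (List.mem_map_of_mem hi)))
      subst hB
      have hU' : ((W s).flatMap B').Perm st.L.W0 :=
        (List.Perm.flatMap_right B' (hW s)).trans hU
      have hB'' : ∀ i ∈ W s, ((B' i).map st.L.lam).sum = len s i := fun i hi =>
        hB' i ((hW s).subset hi)
      refine ⟨(W s).flatMap B', hU', ?_, ?_⟩
      · have h1 : FreeGroup.lift h (FreeGroup.of s)⁻¹ = (h s).symm := by
          rw [map_inv, FreeGroup.lift_apply_of]
          rfl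
        change Adapted st.L.lam (FreeGroup.lift h (FreeGroup.of s)⁻¹ : Equiv.Perm ℝ) _ _
        rw [h1]
        refine Adapted.symm _ ?_ (List.Perm.flatMap_right B' (hW s))
        exact (hg s).adapted.flatMap (hW s) (hg s).nodup B' hB'' st.L.pos
          (hU'.nodup_iff.2 st.L.nodup)
      · rw [map_inv, st.form' hW s B' hB'' hU', mul_inv_rev, RR_inv, RR_inv]
  | mul p q hp hq =>
    obtain ⟨Pp, hPp, hp'⟩ := hp
    obtain ⟨Pq, hPq, hq'⟩ := hq
    refine ⟨Pq ∪ Pp.image (FreeGroup.lift h q⁻¹ : Equiv.Perm ℝ), ?_, ?_⟩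
    · intro x hx
      rcases Finset.mem_union.1 hx with hx | hx
      · exact hPq x hx
      · obtain ⟨y, hy, rfl⟩ := Finset.mem_image.1 hx
        exact Orb_inv h W _ (hPp y hy)
    · intro st U hU hP
      obtain ⟨U1, hU1, hA1, hf1⟩ := hq' st U hU (fun x hx => hP x (Finset.mem_union_left _ hx))
      obtain ⟨U2, hU2, hA2, hf2⟩ := hp' st U1 hU1 (by
        intro x hx
        obtain ⟨a, ha, ha'⟩ := hP _ (Finset.mem_union_right _ (Finset.mem_image_of_mem _ hx))
        refine ⟨a, (hU.trans hU1.symm).subset ha, ?_⟩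
        have h1 := hA1 a ha 0 le_rfl (st.L.pos a)
        rw [add_zero, add_zero, ha'] at h1
        rw [← h1, map_inv]
        exact Equiv.apply_symm_apply _ x)
      refine ⟨U2, hU2, ?_, ?_⟩
      · rw [map_mul]
        exact hA1.comp _ hA2 (hU.trans hU1.symm)
      · rw [map_mul, hf1, hf2, mul_assoc, ← mul_assoc (RR (rh st.L.lam) U1 st.L.W0), RR_trans,
          RR_self, one_mul]

end Pool.Agent.H54.IX
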