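import Pool.Agent.H54.IX.Hnn

/-!
# The groups `TG Δ`

For a graph `Δ` the group `TG Δ` is generated by `rr Δ x y` for the edges `xy` (and `rr Δ x y = 1` otherwise), with the
relations `rr x y * rr y x = 1`, `rr x y` and `rr z w` commute if `{x, y}` and `{z, w}` are disjoint, and
`rr x y * rr x z * rr y z = rr y z * rr x z * rr x y` for triangles.
-/

set_option autoImplicit false

open Classical

namespace Pool.Agent.H54.IX

variable {A : Type}

/-- the relations of `TG Δ` for a family of elements of a group -/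
structure IsYB (Δ : SimpleGraph A) {M : Type} [Group M] (r : A → A → M) : Prop where
  off : ∀ x y, ¬ Δ.Adj x y → r x y = 1
  inv : ∀ x y, Δ.Adj x y → r x y * r y x = 1
  comm : ∀ x y z w, Δ.Adj x y → Δ.Adj z w → x ≠ z → x ≠ w → y ≠ z → y ≠ w →
    r x y * r z w = r z w * r x y
  yb : ∀ x y z, Δ.Adj x y → Δ.Adj x z → Δ.Adj y z → r x y * r x z * r y z = r y z * r x z * r x y

/-- the relations as words -/
def rels (Δ : SimpleGraph A) : Set (FreeGroup (A × A)) :=
  {u | (∃ x y, ¬ Δ.Adj x y ∧ u = FreeGroup.of (x, y)) ∨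
    (∃ x y, Δ.Adj x y ∧ u = FreeGroup.of (x, y) * FreeGroup.of (y, x)) ∨
    (∃ x y z w, Δ.Adj x y ∧ Δ.Adj z w ∧ x ≠ z ∧ x ≠ w ∧ y ≠ z ∧ y ≠ w ∧
      u = (FreeGroup.of (x, y) * FreeGroup.of (z, w)) *
        (FreeGroup.of (z, w) * FreeGroup.of (x, y))⁻¹) ∨
    (∃ x y z, Δ.Adj x y ∧ Δ.Adj x z ∧ Δ.Adj y z ∧
      u = (FreeGroup.of (x, y) * FreeGroup.of (x, z) * FreeGroup.of (y, z)) *
        (FreeGroup.of (y, z) * FreeGroup.of (x, z) * FreeGroup.of (x, y))⁻¹)}

/-- the group of the graph -/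
abbrev TG (Δ : SimpleGraph A) : Type := PresentedGroup (rels Δ)

/-- the generators -/
def rr (Δ : SimpleGraph A) (x y : A) : TG Δ := PresentedGroup.of (x, y)

theorem rr_isYB (Δ : SimpleGraph A) : IsYB Δ (rr Δ) where
  off x y h := PresentedGroup.one_of_mem (rels := rels Δ) (Or.inl ⟨x, y, h, rfl⟩)
  inv x y h := PresentedGroup.one_of_mem (rels := rels Δ) (Or.inr (Or.inl ⟨x, y, h, rfl⟩))
  comm x y z w h1 h2 h3 h4 h5 h6 := by
    have h := PresentedGroup.one_of_mem (rels := rels Δ)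
      (Or.inr (Or.inr (Or.inl ⟨x, y, z, w, h1, h2, h3, h4, h5, h6, rfl⟩)))
    rw [map_mul, map_inv, mul_inv_eq_one] at h
    exact h
  yb x y z h1 h2 h3 := by
    have h := PresentedGroup.one_of_mem (rels := rels Δ)
      (Or.inr (Or.inr (Or.inr ⟨x, y, z, h1, h2, h3, rfl⟩)))
    rw [map_mul, map_inv, mul_inv_eq_one] at h
    exact h

/-- homomorphisms from `TG Δ` -/
def lft {Δ : SimpleGraph A} {M : Type} [Group M] {r : A → A → M} (h : IsYB Δ r) : TG Δ →* M :=
  PresentedGroup.toGroup (f := fun p => r p.1 p.2) (by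
    rintro u (⟨x, y, h1, rfl⟩ | ⟨x, y, h1, rfl⟩ | ⟨x, y, z, w, h1, h2, h3, h4, h5, h6, rfl⟩ |
      ⟨x, y, z, h1, h2, h3, rfl⟩)
    · simpa using h.off x y h1
    · simpa using h.inv x y h1
    · rw [map_mul, map_inv, mul_inv_eq_one]
      simpa using h.comm x y z w h1 h2 h3 h4 h5 h6
    · rw [map_mul, map_inv, mul_inv_eq_one]
      simpa using h.yb x y z h1 h2 h3)

@[simp] theorem lft_rr {Δ : SimpleGraph A} {M : Type} [Group M] {r : A → A → M} (h : IsYB Δ r)
    (x y : A) : lft h (rr Δ x y) = r x y := PresentedGroup.toGroup.of _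

theorem tg_ext {Δ : SimpleGraph A} {M : Type} [Group M] {f g : TG Δ →* M}
    (h : ∀ x y, Δ.Adj x y → f (rr Δ x y) = g (rr Δ x y)) : f = g := by
  refine PresentedGroup.ext fun p => ?_
  by_cases hp : Δ.Adj p.1 p.2
  · exact h p.1 p.2 hp
  · have h1 : rr Δ p.1 p.2 = 1 := (rr_isYB Δ).off _ _ hp
    change f (rr Δ p.1 p.2) = g (rr Δ p.1 p.2)
    rw [h1, map_one, map_one]

namespace IsYB

variable {Δ : SimpleGraph A} {M : Type} [Group M] {r : A → A → M}

theorem inv' (h : IsYB Δ r) {x y : A} (hxy : Δ.Adj x y) : r y x = (r x y)⁻¹ :=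
  (inv_eq_of_mul_eq_one_right (h.inv x y hxy)).symm

end IsYB

/-- Yang-Baxter for a triple and its permutations -/
theorem yb12 {M : Type} [Group M] {r : A → A → M} {x y z : A} (h1 : r x y * r y x = 1)
    (h : r x y * r x z * r y z = r y z * r x z * r x y) :
    r y x * r y z * r x z = r x z * r y z * r y x := by
  have h2 : r y x = (r x y)⁻¹ := (inv_eq_of_mul_eq_one_right h1).symm
  rw [h2]
  have h3 : (r x y)⁻¹ * (r y z * r x z * r x y) * (r x y)⁻¹ =
      (r x y)⁻¹ * (r x y * r x z * r y z) * (r x y)⁻¹ := by rw [h]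
  calc (r x y)⁻¹ * r y z * r x z = (r x y)⁻¹ * (r y z * r x z * r x y) * (r x y)⁻¹ := by group
    _ = (r x y)⁻¹ * (r x y * r x z * r y z) * (r x y)⁻¹ := h3
    _ = r x z * r y z * (r x y)⁻¹ := by group

theorem yb23 {M : Type} [Group M] {r : A → A → M} {x y z : A} (h1 : r y z * r z y = 1)
    (h : r x y * r x z * r y z = r y z * r x z * r x y) :
    r x z * r x y * r z y = r z y * r x y * r x z := by
  have h2 : r z y = (r y z)⁻¹ := (inv_eq_of_mul_eq_one_right h1).symm
  rw [h2]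
  have h3 : (r y z)⁻¹ * (r y z * r x z * r x y) * (r y z)⁻¹ =
      (r y z)⁻¹ * (r x y * r x z * r y z) * (r y z)⁻¹ := by rw [h]
  calc r x z * r x y * (r y z)⁻¹ = (r y z)⁻¹ * (r y z * r x z * r x y) * (r y z)⁻¹ := by group
    _ = (r y z)⁻¹ * (r x y * r x z * r y z) * (r y z)⁻¹ := h3
    _ = (r y z)⁻¹ * r x y * r x z := by group

/-- restriction to a subgraph -/
theorem IsYB.restrict {Δ Δ' : SimpleGraph A} (hle : Δ' ≤ Δ) {M : Type} [Group M] {r : A → A → M}
    (h : IsYB Δ r) : IsYB Δ' (fun x y => if Δ'.Adj x y then r x y else 1) where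
  off x y h1 := if_neg h1
  inv x y h1 := by rw [if_pos h1, if_pos h1.symm]; exact h.inv x y (hle h1)
  comm x y z w h1 h2 h3 h4 h5 h6 := by
    rw [if_pos h1, if_pos h2]
    exact h.comm x y z w (hle h1) (hle h2) h3 h4 h5 h6
  yb x y z h1 h2 h3 := by
    rw [if_pos h1, if_pos h2, if_pos h3]
    exact h.yb x y z (hle h1) (hle h2) (hle h3)

/-- the homomorphism of a subgraph -/
noncomputable def incl {Δ' Δ : SimpleGraph A} (hle : Δ' ≤ Δ) : TG Δ' →* TG Δ := lft ((rr_isYB Δ).restrict hle)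

theorem incl_rr {Δ' Δ : SimpleGraph A} (hle : Δ' ≤ Δ) {x y : A} (h : Δ'.Adj x y) :
    incl hle (rr Δ' x y) = rr Δ x y := by
  unfold incl
  rw [lft_rr, if_pos h]

theorem incl_comp {Δ'' Δ' Δ : SimpleGraph A} (h1 : Δ'' ≤ Δ') (h2 : Δ' ≤ Δ) :
    (incl h2).comp (incl h1) = incl (h1.trans h2) := by
  refine tg_ext fun x y h => ?_
  rw [MonoidHom.comp_apply, incl_rr h1 h, incl_rr h2 (h1 h), incl_rr _ h]

theorem incl_refl {Δ : SimpleGraph A} (h : Δ ≤ Δ) : incl h = MonoidHom.id (TG Δ) := by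
  refine tg_ext fun x y hxy => ?_
  rw [incl_rr h hxy, MonoidHom.id_apply]

/-- the graph without the edges at `x` -/
def del (Δ : SimpleGraph A) (x : A) : SimpleGraph A where
  Adj a b := Δ.Adj a b ∧ a ≠ x ∧ b ≠ x
  symm := ⟨fun _ _ h => ⟨h.1.symm, h.2.2, h.2.1⟩⟩
  loopless := ⟨fun _ h => h.1.ne rfl⟩

theorem del_le (Δ : SimpleGraph A) (x : A) : del Δ x ≤ Δ := fun _ _ h => h.1

/-- forgetting `x` -/
theorem forget_isYB {Δ Δ' : SimpleGraph A} (x : A) (h0 : ∀ a b, Δ'.Adj a b ↔ Δ.Adj a b ∧ a ≠ x ∧ b ≠ x) :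
    IsYB Δ (rr Δ') := by
  have hr := rr_isYB Δ'
  have hx : ∀ a, rr Δ' x a = 1 := fun a => hr.off _ _ (fun h => ((h0 _ _).1 h).2.1 rfl)
  have hx' : ∀ a, rr Δ' a x = 1 := fun a => hr.off _ _ (fun h => ((h0 _ _).1 h).2.2 rfl)
  refine ⟨?_, ?_, ?_, ?_⟩
  · intro a b h
    exact hr.off a b (fun h1 => h ((h0 _ _).1 h1).1)
  · intro a b h
    by_cases ha : a = x
    · subst ha; rw [hx, hx', one_mul]
    · by_cases hb : b = x
      · subst hb; rw [hx, hx', one_mul]
      · exact hr.inv a b ((h0 _ _).2 ⟨h, ha, hb⟩)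
  · intro a b c d h1 h2 h3 h4 h5 h6
    by_cases ha : a = x
    · subst ha; rw [hx, one_mul, mul_one]
    · by_cases hb : b = x
      · subst hb; rw [hx', one_mul, mul_one]
      · by_cases hc : c = x
        · subst hc; rw [hx, one_mul, mul_one]
        · by_cases hd : d = x
          · subst hd; rw [hx', one_mul, mul_one]
          · exact hr.comm a b c d ((h0 _ _).2 ⟨h1, ha, hb⟩) ((h0 _ _).2 ⟨h2, hc, hd⟩) h3 h4 h5 h6
  · intro a b c h1 h2 h3
    by_cases ha : a = x
    · subst ha; rw [hx, hx, one_mul, one_mul, mul_one, mul_one]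
    · by_cases hb : b = x
      · subst hb; rw [hx, hx', one_mul]
      · by_cases hc : c = x
        · subst hc; rw [hx', hx', one_mul, mul_one, mul_one, one_mul]
        · exact hr.yb a b c ((h0 _ _).2 ⟨h1, ha, hb⟩) ((h0 _ _).2 ⟨h2, ha, hc⟩)
            ((h0 _ _).2 ⟨h3, hb, hc⟩)

/-- cabling: the token `y` is replaced by the tokens `p`, `q` -/
noncomputable def cab {M : Type} [Group M] (r : A → A → M) (Δ₁ : SimpleGraph A) (y p q : A)
    (a b : A) : M :=
  if Δ₁.Adj a b then (if a = y then r p b * r q b else if b = y then r a q * r a p else r a b)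
  else 1

theorem cab_isYB {Δb Δ₁ : SimpleGraph A} {M : Type} [Group M] {r : A → A → M} (hr : IsYB Δb r)
    {y p q : A} (hpq : p ≠ q)
    (h1 : ∀ a b, Δ₁.Adj a b → a ≠ y → b ≠ y → Δb.Adj a b)
    (h2 : ∀ b, Δ₁.Adj y b → Δb.Adj p b ∧ Δb.Adj q b)
    (h3 : ∀ a b, Δ₁.Adj a b → a ≠ y → a ≠ p ∧ a ≠ q) : IsYB Δ₁ (cab r Δ₁ y p q) := by
  have hin : ∀ a b, Δ₁.Adj a b → cab r Δ₁ y p q a b * cab r Δ₁ y p q b a = 1 := by
    intro a b hab
    unfold cab
    rw [if_pos hab, if_pos hab.symm]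
    by_cases ha : a = y
    · subst ha
      have hb : b ≠ a := hab.ne'
      rw [if_pos rfl, if_neg hb, if_pos rfl]
      obtain ⟨h4, h5⟩ := h2 b hab
      rw [hr.inv' h4, hr.inv' h5]
      group
    · by_cases hb : b = y
      · subst hb
        rw [if_neg ha, if_pos rfl, if_pos rfl]
        obtain ⟨h4, h5⟩ := h2 a hab.symm
        rw [hr.inv' h4, hr.inv' h5]
        group
      · rw [if_neg ha, if_neg hb, if_neg hb, if_neg ha]
        exact hr.inv a b (h1 a b hab ha hb)
  -- Yang-Baxter with the first token `y`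
  have hy : ∀ b c, Δ₁.Adj y b → Δ₁.Adj y c → Δ₁.Adj b c →
      cab r Δ₁ y p q y b * cab r Δ₁ y p q y c * cab r Δ₁ y p q b c =
        cab r Δ₁ y p q b c * cab r Δ₁ y p q y c * cab r Δ₁ y p q y b := by
    intro b c hb hc hbc
    unfold cab
    rw [if_pos hb, if_pos hc, if_pos hbc, if_pos rfl, if_pos rfl, if_neg hb.ne', if_neg hc.ne']
    obtain ⟨pb, qb⟩ := h2 b hb
    obtain ⟨pc, qc⟩ := h2 c hc
    have hbc' := h1 b c hbc hb.ne' hc.ne'
    have hbp := h3 b c hbc hb.ne'
    have hcp := h3 c b hbc.symm hc.ne'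
    have e1 := hr.comm q b p c qb pc hpq.symm qc.ne hbp.1 hbc.ne
    have e2 := hr.comm p b q c pb qc hpq pc.ne hbp.2 hbc.ne
    have y1 := hr.yb q b c qb qc hbc'
    have y2 := hr.yb p b c pb pc hbc'
    calc r p b * r q b * (r p c * r q c) * r b c
        = r p b * (r q b * r p c) * r q c * r b c := by group
      _ = r p b * (r p c * r q b) * r q c * r b c := by rw [e1]
      _ = r p b * r p c * (r q b * r q c * r b c) := by group
      _ = r p b * r p c * (r b c * r q c * r q b) := by rw [y1]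
      _ = (r p b * r p c * r b c) * r q c * r q b := by group
      _ = (r b c * r p c * r p b) * r q c * r q b := by rw [y2]
      _ = r b c * r p c * (r p b * r q c) * r q b := by group
      _ = r b c * r p c * (r q c * r p b) * r q b := by rw [e2]
      _ = r b c * (r p c * r q c) * (r p b * r q b) := by group
  refine ⟨?_, hin, ?_, ?_⟩
  · intro a b hab
    exact if_neg hab
  · -- disjoint pairs
    have key : ∀ b c d, Δ₁.Adj y b → Δ₁.Adj c d → c ≠ y → d ≠ y → b ≠ c → b ≠ d →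
        cab r Δ₁ y p q y b * cab r Δ₁ y p q c d = cab r Δ₁ y p q c d * cab r Δ₁ y p q y b := by
      intro b c d hb hcd hc hd hbc hbd
      unfold cab
      rw [if_pos hb, if_pos hcd, if_pos rfl, if_neg hc, if_neg hd]
      obtain ⟨pb, qb⟩ := h2 b hb
      have hcd' := h1 c d hcd hc hd
      have hc' := h3 c d hcd hc
      have hd' := h3 d c hcd.symm hd
      have e1 := hr.comm p b c d pb hcd' hc'.1.symm hd'.1.symm hbc hbd
      have e2 := hr.comm q b c d qb hcd' hc'.2.symm hd'.2.symm hbc hbd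
      rw [mul_assoc, e2, ← mul_assoc, e1, mul_assoc]
    have key' : ∀ a b c d, Δ₁.Adj a b → Δ₁.Adj c d → c ≠ y → d ≠ y → a ≠ c → a ≠ d → b ≠ c →
        b ≠ d → cab r Δ₁ y p q a b * cab r Δ₁ y p q c d =
          cab r Δ₁ y p q c d * cab r Δ₁ y p q a b := by
      intro a b c d hab hcd hc hd hac had hbc hbd
      by_cases ha : a = y
      · subst ha
        exact key b c d hab hcd hc hd hbc hbd
      · by_cases hb : b = y
        · subst hb
          have h4 := key a c d hab.symm hcd hc hd hac had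
          have h5 : cab r Δ₁ b p q a b = (cab r Δ₁ b p q b a)⁻¹ :=
            (inv_eq_of_mul_eq_one_right (hin b a hab.symm)).symm
          rw [h5]
          exact (Commute.inv_left (show Commute _ _ from h4)).eq
        · unfold cab
          rw [if_pos hab, if_pos hcd, if_neg ha, if_neg hb, if_neg hc, if_neg hd]
          exact hr.comm a b c d (h1 a b hab ha hb) (h1 c d hcd hc hd) hac had hbc hbd
    intro a b c d hab hcd hac had hbc hbd
    by_cases hc : c = y
    · subst hc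
      exact (key' c d a b hcd hab hac hbc hac.symm hbc.symm had.symm hbd.symm).symm
    · by_cases hd : d = y
      · subst hd
        exact (key' c d a b hcd hab had hbd hac.symm hbc.symm had.symm hbd.symm).symm
      · exact key' a b c d hab hcd hc hd hac had hbc hbd
  · intro a b c hab hac hbc
    by_cases ha : a = y
    · subst ha
      exact hy b c hab hac hbc
    · by_cases hb : b = y
      · subst hb
        exact yb12 (hin b a hab.symm) (hy a c hab.symm hbc hac)
      · by_cases hc : c = y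
        · subst hc
          exact yb23 (hin c b hbc.symm) (yb12 (hin c a hac.symm) (hy a b hac.symm hbc.symm hab))
        · have h4 := h1 a b hab ha hb
          have h5 := h1 a c hac ha hc
          have h6 := h1 b c hbc hb hc
          unfold cab
          rw [if_pos hab, if_pos hac, if_pos hbc, if_neg ha, if_neg hb, if_neg ha, if_neg hc,
            if_neg hb, if_neg hc]
          exact hr.yb a b c h4 h5 h6

end Pool.Agent.H54.IX
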